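import Pool.Agent.H77.SC.Mn

/-!
# Av: averaging over unitary conjugates

`avg`: let `K` be the convex hull of `{w a w* : w unitary}`; its elements have norm `≤ ‖a‖`.
`minel` gives `z` in the 2-norm closure of `K` fixed by all isometric linear `T` preserving `K`,
in particular by `x ↦ w x w*` for every unitary `w`.  So `z` commutes with all unitaries, hence
with `N` (`CStarAlgebra.span_unitary`), hence `z = c • 1` by `IsII1.factor`.  `τ = τ(a)` on `K`
(`τ` is linear and tracial), and `|τ(z) - τ(x)| ≤ ‖z - x‖₂`, so `c = τ(z) = τ(a)`.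

`corner`: put `a = y y*`, `τ(a) ≠ 0` (faithful + tracial).  If `x z y = 0` for all `z`, then
`x (w a w*) = 0` for all unitary `w`, so `x b = 0` for `b` in the hull, and
`|τ(a)| ‖x‖₂ = ‖x (τ(a) - b)‖₂ ≤ ‖x‖ ‖τ(a) - b‖₂` is arbitrarily small: `x = 0`.
-/

open Filter Topology

namespace SC

variable {N : Type*} [CStarAlgebra N] {τ : N →ₗ[ℂ] ℂ}

/-- Conjugation by `w`. -/
noncomputable def avT (w : N) : N →ₗ[ℂ] N :=
  (LinearMap.mulLeft ℂ w).comp (LinearMap.mulRight ℂ (star w))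

theorem avT_apply (w x : N) : avT w x = w * x * star w := by
  simp [avT, mul_assoc]

/-- The set of conjugates. -/
def avC (a : N) : Set N := {b : N | ∃ w ∈ unitary N, b = w * a * star w}

theorem av_conj_mem {a : N} {w : N} (hw : w ∈ unitary N) {x : N} (hx : x ∈ convexHull ℝ (avC a)) :
    avT w x ∈ convexHull ℝ (avC a) := by
  have h1 : Convex ℝ (((avT w).restrictScalars ℝ) ⁻¹' (convexHull ℝ (avC a))) :=
    (convex_convexHull ℝ (avC a)).linear_preimage _
  have h2 : avC a ⊆ ((avT w).restrictScalars ℝ) ⁻¹' (convexHull ℝ (avC a)) := by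
    rintro _ ⟨v, hv, rfl⟩
    refine subset_convexHull ℝ _ ?_
    refine ⟨w * v, mul_mem hw hv, ?_⟩
    rw [LinearMap.restrictScalars_apply, avT_apply, star_mul]
    simp only [mul_assoc]
  exact convexHull_min h2 h1 hx

theorem av_tau_hull (h : IsII1 τ) {a x : N} (hx : x ∈ convexHull ℝ (avC a)) : τ x = τ a := by
  have h1 : Convex ℝ ((τ.restrictScalars ℝ) ⁻¹' {τ a}) :=
    (convex_singleton (τ a)).linear_preimage _
  have h2 : avC a ⊆ (τ.restrictScalars ℝ) ⁻¹' {τ a} := by
    rintro _ ⟨v, hv, rfl⟩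
    rw [Set.mem_preimage, Set.mem_singleton_iff, LinearMap.restrictScalars_apply, h.tracial,
      ← mul_assoc, (Unitary.mem_iff.1 hv).1, one_mul]
  exact convexHull_min h2 h1 hx

theorem av_mul_hull {x : N} {a b : N} (hx : ∀ w ∈ unitary N, x * (w * a * star w) = 0)
    (hb : b ∈ convexHull ℝ (avC a)) : x * b = 0 := by
  have h1 : Convex ℝ (((LinearMap.mulLeft ℂ x).restrictScalars ℝ) ⁻¹' {(0 : N)}) :=
    (convex_singleton (0 : N)).linear_preimage _
  have h2 : avC a ⊆ ((LinearMap.mulLeft ℂ x).restrictScalars ℝ) ⁻¹' {(0 : N)} := by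
    rintro _ ⟨v, hv, rfl⟩
    exact hx v hv
  exact convexHull_min h2 h1 hb

theorem av_norm_hull {a x : N} (hx : x ∈ convexHull ℝ (avC a)) : ‖x‖ ≤ ‖a‖ := by
  have h2 : avC a ⊆ Metric.closedBall (0 : N) ‖a‖ := by
    rintro _ ⟨v, hv, rfl⟩
    rw [mem_closedBall_zero_iff]
    have h3 : ‖v‖ ≤ 1 := norm_unitary_le hv
    calc ‖v * a * star v‖ ≤ ‖v * a‖ * ‖star v‖ := norm_mul_le _ _
      _ ≤ (‖v‖ * ‖a‖) * ‖star v‖ := by gcongr; exact norm_mul_le _ _
      _ ≤ (1 * ‖a‖) * 1 := by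
        rw [norm_star]
        gcongr
      _ = ‖a‖ := by ring
  have := convexHull_min h2 (convex_closedBall (0 : N) ‖a‖) hx
  rwa [mem_closedBall_zero_iff] at this

theorem avg (h : IsII1 τ) (a : N) (ε : ℝ) (hε : 0 < ε) :
    ∃ x ∈ convexHull ℝ {b : N | ∃ w ∈ unitary N, b = w * a * star w},
      n2 τ (x - τ a • (1 : N)) < ε := by
  have hne : (convexHull ℝ (avC a)).Nonempty :=
    ⟨1 * a * star 1, subset_convexHull ℝ _ ⟨1, one_mem _, rfl⟩⟩
  obtain ⟨z, hz1, hz2⟩ := minel h (convexHull ℝ (avC a)) (convex_convexHull ℝ _) hne ‖a‖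
    fun x hx => av_norm_hull hx
  have hcu : ∀ w ∈ unitary N, z * w = w * z := by
    intro w hw
    have h1 : avT w z = z := by
      refine hz2 (avT w) (fun x => ?_) fun x hx => av_conj_mem hw hx
      rw [avT_apply, n2_unitary_right h (Unitary.star_mem hw), n2_unitary_left hw]
    rw [avT_apply] at h1
    calc z * w = w * z * star w * w := by rw [h1]
      _ = w * z := by rw [mul_assoc, (Unitary.mem_iff.1 hw).1, mul_one]
  have hc : ∀ x : N, z * x = x * z := by
    intro x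
    obtain ⟨u, c, hx, -⟩ := CStarAlgebra.exists_sum_four_unitary x
    rw [hx, Finset.mul_sum, Finset.sum_mul]
    refine Finset.sum_congr rfl fun i _ => ?_
    rw [mul_smul_comm, smul_mul_assoc, hcu _ (u i).2]
  obtain ⟨c, rfl⟩ := h.factor z hc
  have hcc : c = τ a := by
    by_contra hne'
    have hpos : 0 < ‖c - τ a‖ := norm_pos_iff.2 (sub_ne_zero.2 hne')
    obtain ⟨x, hx, hx2⟩ := hz1 _ hpos
    have h3 := tau_le_n2 h (c • (1 : N) - x)
    rw [map_sub, map_smul, h.map_one, smul_eq_mul, mul_one, av_tau_hull h hx] at h3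
    linarith
  obtain ⟨x, hx, hx2⟩ := hz1 ε hε
  refine ⟨x, hx, ?_⟩
  rw [n2_sub_comm, ← hcc]
  exact hx2

theorem corner (h : IsII1 τ) {x y : N} (hx : x ≠ 0) (hy : y ≠ 0) : ∃ z : N, x * z * y ≠ 0 := by
  by_contra hcon
  push Not at hcon
  have ha : τ (y * star y) ≠ 0 := by
    intro h0
    rw [h.tracial] at h0
    exact hy (h.faithful y h0)
  have hxw : ∀ w ∈ unitary N, x * (w * (y * star y) * star w) = 0 := by
    intro w _
    have : x * (w * (y * star y) * star w) = (x * w * y) * (star y * star w) := by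
      simp only [mul_assoc]
    rw [this, hcon w, zero_mul]
  have hn : 0 < n2 τ x := by
    rcases (n2_nonneg (τ := τ) x).lt_or_eq with h1 | h1
    · exact h1
    · exact absurd (n2_eq_zero h h1.symm) hx
  have hta : 0 < ‖τ (y * star y)‖ := norm_pos_iff.2 ha
  have hxn : 0 < ‖x‖ := norm_pos_iff.2 hx
  obtain ⟨b, hb, hb2⟩ := avg h (y * star y) (‖τ (y * star y)‖ * n2 τ x / ‖x‖) (by positivity)
  have h1 : x * b = 0 := av_mul_hull hxw hb
  have h2 := n2_mul_le h x (b - τ (y * star y) • (1 : N))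
  have h3 : x * (b - τ (y * star y) • (1 : N)) = -(τ (y * star y) • x) := by
    rw [mul_sub, h1, zero_sub, mul_smul_comm, mul_one]
  rw [h3, n2_neg, n2_smul h] at h2
  rw [lt_div_iff₀ hxn] at hb2
  linarith [mul_comm (n2 τ (b - τ (y * star y) • (1 : N))) ‖x‖]

end SC
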