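import Pool.Agent.H77.SC.Cp1
import Pool.Agent.H77.SC.Av

/-!
# Cp2: projections with the same trace are equivalent

`PI p q v` : `v` is a partial isometry with `v* v ≤ p`, `v v* ≤ q`.

* If `PI p q v` and `PI (p - v* v) (q - v v*) d` then `PI p q (v + d)`,
  `(v+d)* (v+d) = v* v + d* d`, `(v+d)(v+d)* = v v* + d d*` (the cross terms vanish:
  `v* d = v* (q - v v*) d = 0` because `v* q = v*`, `v* v v* = v*`; similarly `v d* = 0`).
* Greedy choice: `v_0 = 0`, `v_{k+1} = v_k + d_k` with `PI (p - v_k* v_k) (q - v_k v_k*) d_k` and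
  `τ(d_k* d_k) ≥ s_k/2`, `s_k` the supremum of `τ(d* d)` over all such `d` (`≤ 1`).
  `Σ_{k<n} τ(d_k* d_k) = τ(v_n* v_n) ≤ τ(p) ≤ 1`, so `τ(d_k* d_k) → 0` and, for `k ≤ l`,
  `‖v_l - v_k‖₂² = Σ_{k≤j<l} τ(d_j* d_j)` (`(v_l - v_k)* (v_l - v_k) = Σ d_j* d_j`, or
  `v_l = v_k + d` with `PI (p - v_k* v_k) (q - v_k v_k*) d`, `τ(d* d) = τ(v_l* v_l) - τ(v_k* v_k)`),
  so `(v_k)` is Cauchy in the 2-norm; `‖v_k‖ ≤ 1`; limit `v` with `PI p q v`
  (multiplication is 2-norm continuous on bounded sets).
* Suppose `v* v ≠ p`.  Then `v v* ≠ q` (`τ(v* v) = τ(v v*)`, `τ(p) = τ(q)`, and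
  `τ(p - v* v) = ‖p - v* v‖₂²  > 0` as `p - v* v` is a nonzero projection).  By
  `corner` there is `x` with `y = (q - v v*) x (p - v* v) ≠ 0`, and `polar` gives `d ≠ 0` with
  `PI (p - v* v) (q - v v*) d`.  Also `p - v* v ≤ p - v_k* v_k` (as `v* v` dominates `v_k* v_k`:
  `v_l v_k* v_k = v_k` for `l ≥ k`, so `v v_k* v_k = v_k`, `v* v v_k* v_k = v* v_k`…; equivalently
  `v_k* v_k v* v = v_k* v_k`), so `PI (p - v_k* v_k) (q - v_k v_k*) d` and
  `0 < τ(d* d) ≤ s_k ≤ 2 τ(d_k* d_k) → 0`, a contradiction.  So `v* v = p`, and then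
  `τ(q - v v*) = 0` and `q - v v*` is a projection, so `v v* = q`.
(Any other proof, e.g. with Zorn's lemma, is fine.)
-/

open Filter Topology

namespace SC

variable {N : Type*} [CStarAlgebra N] {τ : N →ₗ[ℂ] ℂ}

def PI (p q v : N) : Prop := v * star v * v = v ∧ q * v = v ∧ v * p = v

/-- Projections. -/
def Pj (p : N) : Prop := star p = p ∧ p * p = p

theorem PI.star1 {p q v : N} (hv : PI p q v) : star v * (v * star v) = star v := by
  have h1 := congrArg star hv.1
  rwa [star_mul, star_mul, star_star] at h1

theorem PI.q1 {p q v : N} (hq : Pj q) (hv : PI p q v) : star v * q = star v := by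
  have h1 := congrArg star hv.2.1
  rwa [star_mul, hq.1] at h1

theorem PI.p1 {p q v : N} (hp : Pj p) (hv : PI p q v) : p * star v = star v := by
  have h1 := congrArg star hv.2.2
  rwa [star_mul, hp.1] at h1

theorem PI.norm_le {p q v : N} (hv : PI p q v) : ‖v‖ ≤ 1 := by
  have h1 : ‖star v * v‖ = ‖v‖ * ‖v‖ := CStarRing.norm_star_mul_self
  have h2 : star (star v * v) * (star v * v) = star v * v := by
    rw [star_mul, star_star]
    calc star v * v * (star v * v) = star v * (v * star v * v) := by simp only [mul_assoc]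
      _ = star v * v := by rw [hv.1]
  have h3 : ‖star (star v * v) * (star v * v)‖ = ‖star v * v‖ * ‖star v * v‖ :=
    CStarRing.norm_star_mul_self
  rw [h2, h1] at h3
  by_contra hcon
  push Not at hcon
  have h4 : 1 < ‖v‖ * ‖v‖ := by nlinarith
  nlinarith

theorem PI.zero (p q : N) : PI p q 0 := by
  refine ⟨?_, ?_, ?_⟩ <;> simp

theorem PI.subP {p q v : N} (hp : Pj p) (hv : PI p q v) : Pj (p - star v * v) := by
  refine ⟨?_, ?_⟩
  · rw [star_sub, star_mul, star_star, hp.1]
  · have e1 : p * (star v * v) = star v * v := by rw [← mul_assoc, hv.p1 hp]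
    have e2 : star v * v * p = star v * v := by rw [mul_assoc, hv.2.2]
    have e3 : star v * v * (star v * v) = star v * v := by
      calc star v * v * (star v * v) = star v * (v * star v * v) := by simp only [mul_assoc]
        _ = star v * v := by rw [hv.1]
    rw [mul_sub, sub_mul, sub_mul, hp.2, e1, e2, e3]
    abel

theorem PI.subQ {p q v : N} (hq : Pj q) (hv : PI p q v) : Pj (q - v * star v) := by
  refine ⟨?_, ?_⟩
  · rw [star_sub, star_mul, star_star, hq.1]
  · have e1 : q * (v * star v) = v * star v := by rw [← mul_assoc, hv.2.1]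
    have e2 : v * star v * q = v * star v := by rw [mul_assoc, hv.q1 hq]
    have e3 : v * star v * (v * star v) = v * star v := by
      calc v * star v * (v * star v) = v * star v * v * star v := by simp only [mul_assoc]
        _ = v * star v := by rw [hv.1]
    rw [mul_sub, sub_mul, sub_mul, hq.2, e1, e2, e3]
    abel

theorem PI.c1 {p q v d : N} (hq : Pj q) (hv : PI p q v)
    (hd : PI (p - star v * v) (q - v * star v) d) : star v * d = 0 := by
  calc star v * d = star v * ((q - v * star v) * d) := by rw [hd.2.1]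
    _ = (star v * q - star v * (v * star v)) * d := by rw [← mul_assoc, mul_sub]
    _ = 0 := by rw [hv.q1 hq, hv.star1, sub_self, zero_mul]

theorem PI.c2 {p q v d : N} (hq : Pj q) (hv : PI p q v)
    (hd : PI (p - star v * v) (q - v * star v) d) : star d * v = 0 := by
  have h1 := congrArg star (hv.c1 hq hd)
  rwa [star_mul, star_star, star_zero] at h1

theorem PI.c4 {p q v d : N} (hp : Pj p) (hv : PI p q v)
    (hd : PI (p - star v * v) (q - v * star v) d) : d * star v = 0 := by
  calc d * star v = d * (p - star v * v) * star v := by rw [hd.2.2]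
    _ = d * (p * star v - star v * (v * star v)) := by
        rw [mul_assoc, sub_mul, mul_assoc (star v)]
    _ = 0 := by rw [hv.p1 hp, hv.star1, sub_self, mul_zero]

theorem PI.c3 {p q v d : N} (hp : Pj p) (hv : PI p q v)
    (hd : PI (p - star v * v) (q - v * star v) d) : v * star d = 0 := by
  have h1 := congrArg star (hv.c4 hp hd)
  rwa [star_mul, star_star, star_zero] at h1

theorem PI.sq {p q v d : N} (hq : Pj q) (hv : PI p q v)
    (hd : PI (p - star v * v) (q - v * star v) d) :
    star (v + d) * (v + d) = star v * v + star d * d := by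
  rw [star_add, add_mul, mul_add, mul_add, hv.c1 hq hd, hv.c2 hq hd, add_zero, zero_add]

theorem PI.sq' {p q v d : N} (hp : Pj p) (hv : PI p q v)
    (hd : PI (p - star v * v) (q - v * star v) d) :
    (v + d) * star (v + d) = v * star v + d * star d := by
  rw [star_add, add_mul, mul_add, mul_add, hv.c3 hp hd, hv.c4 hp hd, add_zero, zero_add]

theorem PI.add {p q v d : N} (hp : Pj p) (hq : Pj q) (hv : PI p q v)
    (hd : PI (p - star v * v) (q - v * star v) d) : PI p q (v + d) := by
  refine ⟨?_, ?_, ?_⟩
  · rw [mul_assoc, hv.sq hq hd, add_mul, mul_add, mul_add, ← mul_assoc v, hv.1, ← mul_assoc v,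
      hv.c3 hp hd, zero_mul, ← mul_assoc d, hv.c4 hp hd, zero_mul, ← mul_assoc d, hd.1, add_zero,
      zero_add]
  · have e1 : q * d = d := by
      have e2 : q * (q - v * star v) = q - v * star v := by
        rw [mul_sub, hq.2, ← mul_assoc, hv.2.1]
      calc q * d = q * ((q - v * star v) * d) := by rw [hd.2.1]
        _ = d := by rw [← mul_assoc, e2, hd.2.1]
    rw [mul_add, hv.2.1, e1]
  · have e1 : d * p = d := by
      have e2 : (p - star v * v) * p = p - star v * v := by
        rw [sub_mul, hp.2, mul_assoc, hv.2.2]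
      calc d * p = d * (p - star v * v) * p := by rw [hd.2.2]
        _ = d := by rw [mul_assoc, e2, hd.2.2]
    rw [add_mul, hv.2.2, e1]

/-- Extensions can be composed. -/
theorem PI.trans {p q v D d : N} (hp : Pj p) (hq : Pj q) (hv : PI p q v)
    (hD : PI (p - star v * v) (q - v * star v) D)
    (hd : PI (p - star (v + D) * (v + D)) (q - (v + D) * star (v + D)) d) :
    PI (p - star v * v) (q - v * star v) (D + d) := by
  refine hD.add (hv.subP hp) (hv.subQ hq) ?_
  rw [hv.sq hq hD, hv.sq' hp hD] at hd
  rwa [sub_sub, sub_sub]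

theorem n2_add_sq (h : IsII1 τ) {p q v d : N} (hq : Pj q) (hv : PI p q v)
    (hd : PI (p - star v * v) (q - v * star v) d) :
    n2 τ (v + d) ^ 2 = n2 τ v ^ 2 + n2 τ d ^ 2 := by
  rw [n2_sq h, n2_sq h, n2_sq h, hv.sq hq hd, map_add, Complex.add_re]

theorem proj_equiv (h : IsII1 τ) {p q : N} (hp : star p = p) (hp2 : p * p = p)
    (hq : star q = q) (hq2 : q * q = q) (ht : τ p = τ q) :
    ∃ v : N, star v * v = p ∧ v * star v = q := by
  have hP : Pj p := ⟨hp, hp2⟩
  have hQ : Pj q := ⟨hq, hq2⟩
  -- the greedy choice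
  have hbd : ∀ v : N, BddAbove {r : ℝ | ∃ d : N, PI (p - star v * v) (q - v * star v) d ∧
      r = n2 τ d} := by
    intro v
    refine ⟨1, ?_⟩
    rintro _ ⟨d, hd, rfl⟩
    exact (n2_le_norm h d).trans hd.norm_le
  have hch : ∀ v : N, ∃ d : N, PI (p - star v * v) (q - v * star v) d ∧
      sSup {r : ℝ | ∃ d : N, PI (p - star v * v) (q - v * star v) d ∧ r = n2 τ d} ≤
        2 * n2 τ d := by
    intro v
    by_cases h0 : sSup {r : ℝ | ∃ d : N, PI (p - star v * v) (q - v * star v) d ∧
        r = n2 τ d} ≤ 0
    · refine ⟨0, PI.zero _ _, h0.trans ?_⟩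
      have := n2_nonneg (τ := τ) (0 : N)
      linarith
    · push Not at h0
      have hne : {r : ℝ | ∃ d : N, PI (p - star v * v) (q - v * star v) d ∧
          r = n2 τ d}.Nonempty := ⟨_, 0, PI.zero _ _, rfl⟩
      obtain ⟨_, ⟨d, hd, rfl⟩, hlt⟩ := exists_lt_of_lt_csSup hne (half_lt_self h0)
      exact ⟨d, hd, by linarith⟩
  choose D hD1 hD2 using hch
  set V : ℕ → N := fun k => (fun v => v + D v)^[k] 0 with hV
  have hV0 : V 0 = 0 := rfl
  have hVs : ∀ k, V (k + 1) = V k + D (V k) := by
    intro k
    simp only [hV, Function.iterate_succ_apply']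
  have hVP : ∀ k, PI p q (V k) := by
    intro k
    induction k with
    | zero => rw [hV0]; exact PI.zero _ _
    | succ k ih => rw [hVs]; exact ih.add hP hQ (hD1 _)
  have hext : ∀ k n, PI (p - star (V k) * V k) (q - V k * star (V k)) (V (k + n) - V k) := by
    intro k n
    induction n with
    | zero => rw [add_zero, sub_self]; exact PI.zero _ _
    | succ n ih =>
      have e1 : V (k + (n + 1)) - V k = (V (k + n) - V k) + D (V (k + n)) := by
        rw [← add_assoc, hVs]
        abel
      rw [e1]
      refine (hVP k).trans hP hQ ih ?_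
      rw [add_sub_cancel]
      exact hD1 _
  have hsq : ∀ k n, n2 τ (V (k + n)) ^ 2 = n2 τ (V k) ^ 2 + n2 τ (V (k + n) - V k) ^ 2 := by
    intro k n
    have h1 := n2_add_sq h hQ (hVP k) (hext k n)
    rwa [add_sub_cancel] at h1
  have hle1 : ∀ k, n2 τ (V k) ^ 2 ≤ 1 := by
    intro k
    have h1 : n2 τ (V k) ≤ 1 := (n2_le_norm h _).trans (hVP k).norm_le
    have h2 := n2_nonneg (τ := τ) (V k)
    nlinarith
  have htail : ∀ ε : ℝ, 0 < ε → ∃ K, ∀ n, n2 τ (V (K + n) - V K) < ε := by
    intro ε hε
    have hb : BddAbove (Set.range fun k => n2 τ (V k) ^ 2) := ⟨1, by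
      rintro _ ⟨k, rfl⟩
      exact hle1 k⟩
    have hlt : sSup (Set.range fun k => n2 τ (V k) ^ 2) - ε ^ 2 <
        sSup (Set.range fun k => n2 τ (V k) ^ 2) := by
      have := pow_pos hε 2
      linarith
    obtain ⟨_, ⟨K, rfl⟩, hK⟩ := exists_lt_of_lt_csSup (Set.range_nonempty _) hlt
    refine ⟨K, fun n => ?_⟩
    have h1 : n2 τ (V (K + n)) ^ 2 ≤ sSup (Set.range fun k => n2 τ (V k) ^ 2) :=
      le_csSup hb ⟨K + n, rfl⟩
    have h2 := hsq K n
    have hK' : sSup (Set.range fun k => n2 τ (V k) ^ 2) - ε ^ 2 < n2 τ (V K) ^ 2 := hK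
    have h3 : n2 τ (V (K + n) - V K) ^ 2 < ε ^ 2 := by linarith
    exact lt_of_pow_lt_pow_left₀ 2 hε.le h3
  have hcau : ∀ ε : ℝ, 0 < ε → ∃ K, ∀ k ≥ K, ∀ l ≥ K, n2 τ (V k - V l) < ε := by
    intro ε hε
    obtain ⟨K, hK⟩ := htail (ε / 2) (by linarith)
    refine ⟨K, fun k hk l hl => ?_⟩
    obtain ⟨a, rfl⟩ := Nat.exists_eq_add_of_le hk
    obtain ⟨b, rfl⟩ := Nat.exists_eq_add_of_le hl
    have h1 := n2_sub_le h (V (K + a)) (V K) (V (K + b))
    have h2 := hK a
    have h3 := hK b
    rw [n2_sub_comm (V K)] at h1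
    linarith
  obtain ⟨v, hv1, hlim⟩ := h.complete V (fun k => (hVP k).norm_le) hcau
  have lim0 : ∀ (x : N) (C : ℝ) (K : ℕ), (∀ k ≥ K, n2 τ x ≤ C * n2 τ (V k - v)) → x = 0 := by
    intro x C K hx
    apply n2_eq_zero h
    have h1 : Tendsto (fun k => C * n2 τ (V k - v)) atTop (𝓝 (C * 0)) := hlim.const_mul C
    rw [mul_zero] at h1
    have h2 : n2 τ x ≤ 0 := ge_of_tendsto h1 (eventually_atTop.2 ⟨K, hx⟩)
    exact le_antisymm h2 (n2_nonneg x)
  have hvP : PI p q v := by
    refine ⟨?_, ?_, ?_⟩
    · refine sub_eq_zero.1 (lim0 _ 4 0 fun k _ => ?_)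
      have e1 : v * star v * v - v = (V k - v) - ((V k - v) * (star (V k) * V k) +
          v * (star (V k - v) * V k) + v * star v * (V k - v)) := by
        have e2 := (hVP k).1
        have e3 : V k - ((V k - v) * (star (V k) * V k) +
          v * (star (V k - v) * V k) + v * star v * (V k - v)) =
            V k - V k * star (V k) * V k + v * star v * v := by
          rw [star_sub]
          noncomm_ring
        rw [e2, sub_self, zero_add] at e3
        rw [← e3]
        abel
      rw [e1]
      have hVk : ‖V k‖ ≤ 1 := (hVP k).norm_le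
      have hw := n2_nonneg (τ := τ) (V k - v)
      have b1 : n2 τ ((V k - v) * (star (V k) * V k)) ≤ n2 τ (V k - v) := by
        refine (n2_mul_le' h _ _).trans ?_
        have : ‖star (V k) * V k‖ ≤ 1 := by
          rw [CStarRing.norm_star_mul_self]
          nlinarith [norm_nonneg (V k)]
        nlinarith
      have b2 : n2 τ (v * (star (V k - v) * V k)) ≤ n2 τ (V k - v) := by
        refine (n2_mul_le h _ _).trans ?_
        have b3 : n2 τ (star (V k - v) * V k) ≤ n2 τ (V k - v) := by
          refine (n2_mul_le' h _ _).trans ?_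
          rw [n2_star h]
          nlinarith
        have b4 := n2_nonneg (τ := τ) (star (V k - v) * V k)
        have b5 := norm_nonneg v
        nlinarith
      have b3 : n2 τ (v * star v * (V k - v)) ≤ n2 τ (V k - v) := by
        refine (n2_mul_le h _ _).trans ?_
        have : ‖v * star v‖ ≤ 1 := by
          rw [CStarRing.norm_self_mul_star]
          nlinarith [norm_nonneg v]
        nlinarith
      have c1 := n2_add_le h ((V k - v) * (star (V k) * V k) + v * (star (V k - v) * V k))
        (v * star v * (V k - v))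
      have c2 := n2_add_le h ((V k - v) * (star (V k) * V k)) (v * (star (V k - v) * V k))
      have c3 := n2_add_le h (V k - v) (-((V k - v) * (star (V k) * V k) +
          v * (star (V k - v) * V k) + v * star v * (V k - v)))
      rw [n2_neg, ← sub_eq_add_neg] at c3
      linarith
    · refine sub_eq_zero.1 (lim0 _ (‖q‖ + 1) 0 fun k _ => ?_)
      have e1 : q * v - v = -(q * (V k - v)) + (V k - v) := by
        rw [mul_sub, (hVP k).2.1]
        abel
      rw [e1]
      have c1 := n2_add_le h (-(q * (V k - v))) (V k - v)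
      rw [n2_neg] at c1
      have c2 := n2_mul_le h q (V k - v)
      linarith
    · refine sub_eq_zero.1 (lim0 _ (‖p‖ + 1) 0 fun k _ => ?_)
      have e1 : v * p - v = -((V k - v) * p) + (V k - v) := by
        rw [sub_mul, (hVP k).2.2]
        abel
      rw [e1]
      have c1 := n2_add_le h (-((V k - v) * p)) (V k - v)
      rw [n2_neg] at c1
      have c2 := n2_mul_le' h (V k - v) p
      linarith
  -- the limit extends every `V k`
  have hA : ∀ k, star (V k) * v = star (V k) * V k := by
    intro k
    refine sub_eq_zero.1 (lim0 _ ‖V k‖ k fun l hl => ?_)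
    obtain ⟨n, rfl⟩ := Nat.exists_eq_add_of_le hl
    have e1 := (hVP k).c1 hQ (hext k n)
    have e2 : star (V k) * v - star (V k) * V k = star (V k) * (v - V (k + n)) := by
      rw [mul_sub] at e1
      rw [mul_sub, sub_eq_zero.1 e1]
    rw [e2]
    refine (n2_mul_le h _ _).trans ?_
    rw [norm_star, n2_sub_comm]
  have hB : ∀ k, v * star (V k) = V k * star (V k) := by
    intro k
    refine sub_eq_zero.1 (lim0 _ ‖V k‖ k fun l hl => ?_)
    obtain ⟨n, rfl⟩ := Nat.exists_eq_add_of_le hl
    have e1 := (hVP k).c4 hP (hext k n)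
    have e2 : v * star (V k) - V k * star (V k) = (v - V (k + n)) * star (V k) := by
      rw [sub_mul] at e1
      rw [sub_mul, sub_eq_zero.1 e1]
    rw [e2]
    refine (n2_mul_le' h _ _).trans ?_
    rw [norm_star, n2_sub_comm, mul_comm]
  have htr : τ (star v * v) = τ (v * star v) := h.tracial _ _
  -- `v* v = p`
  have hmain : star v * v = p := by
    by_contra hne
    have hPp := hvP.subP hP
    have hQq := hvP.subQ hQ
    have hx : p - star v * v ≠ 0 := fun h0 => hne (sub_eq_zero.1 h0).symm
    have hy : q - v * star v ≠ 0 := by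
      intro h0
      apply hx
      apply h.faithful
      rw [hPp.1, hPp.2, map_sub, ht, htr, ← map_sub, h0, map_zero]
    obtain ⟨z, hz⟩ := corner h hy hx
    obtain ⟨d, hd0, hd1, hd2, hd3⟩ := polar h _ hz
    have hdq : (q - v * star v) * d = d := by
      apply hd2
      rw [← mul_assoc, ← mul_assoc, hQq.2]
    have hdp : d * (p - star v * v) = d := by
      apply hd3 _ hPp.1
      rw [mul_assoc, hPp.2]
    have hdd : d * star d * d = d := by
      apply sub_eq_zero.1
      rw [← CStarRing.star_mul_self_eq_zero_iff]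
      have e1 : star (d * star d * d - d) * (d * star d * d - d) =
          star d * d * (star d * d) * (star d * d) - star d * d * (star d * d) -
            star d * d * (star d * d) + star d * d := by
        rw [star_sub, star_mul, star_mul, star_star]
        noncomm_ring
      rw [e1, hd1, hd1]
      abel
    have hdk : ∀ k, PI (p - star (V k) * V k) (q - V k * star (V k)) d := by
      intro k
      refine ⟨hdd, ?_, ?_⟩
      · have e1 : V k * star (V k) * (v * star v) = V k * star (V k) := by
          have e2 : V k * star v = V k * star (V k) := by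
            have := congrArg star (hB k)
            rwa [star_mul, star_mul, star_star] at this
          calc V k * star (V k) * (v * star v) = V k * (star (V k) * v) * star v := by
                simp only [mul_assoc]
            _ = V k * star (V k) * V k * star v := by rw [hA]; simp only [mul_assoc]
            _ = V k * star (V k) := by rw [(hVP k).1, e2]
        have e3 : (q - V k * star (V k)) * (q - v * star v) = q - v * star v := by
          rw [mul_sub, sub_mul, sub_mul, hq2, e1, ← mul_assoc q, hvP.2.1, mul_assoc (V k),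
            (hVP k).q1 hQ]
          abel
        calc (q - V k * star (V k)) * d = (q - V k * star (V k)) * ((q - v * star v) * d) := by
              rw [hdq]
          _ = d := by rw [← mul_assoc, e3, hdq]
      · have e1 : star v * v * (star (V k) * V k) = star (V k) * V k := by
          have e2 : star v * V k = star (V k) * V k := by
            have := congrArg star (hA k)
            rwa [star_mul, star_mul, star_star] at this
          calc star v * v * (star (V k) * V k) = star v * (v * star (V k)) * V k := by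
                simp only [mul_assoc]
            _ = star v * (V k * star (V k) * V k) := by rw [hB]; simp only [mul_assoc]
            _ = star (V k) * V k := by rw [(hVP k).1, e2]
        have e3 : (p - star v * v) * (p - star (V k) * V k) = p - star v * v := by
          rw [mul_sub, sub_mul, sub_mul, hp2, e1, ← mul_assoc p, (hVP k).p1 hP,
            mul_assoc (star v), hvP.2.2]
          abel
        calc d * (p - star (V k) * V k) = d * (p - star v * v) * (p - star (V k) * V k) := by
              rw [hdp]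
          _ = d := by rw [mul_assoc, e3, hdp]
    -- contradiction
    have hpos : 0 < n2 τ d := by
      rcases (n2_nonneg (τ := τ) d).lt_or_eq with h1 | h1
      · exact h1
      · exact absurd (n2_eq_zero h h1.symm) hd0
    obtain ⟨K, hK⟩ := htail (n2 τ d / 2) (by linarith)
    have h1 := hK 1
    rw [hVs, add_sub_cancel_left] at h1
    have h2 := hD2 (V K)
    have h3 : n2 τ d ≤ sSup {r : ℝ | ∃ d : N, PI (p - star (V K) * V K)
        (q - V K * star (V K)) d ∧ r = n2 τ d} := le_csSup (hbd _) ⟨d, hdk K, rfl⟩
    linarith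
  refine ⟨v, hmain, ?_⟩
  have hQq := hvP.subQ hQ
  have h0 : q - v * star v = 0 := by
    apply h.faithful
    rw [hQq.1, hQq.2, map_sub, ← ht, ← htr, hmain, sub_self]
  exact (sub_eq_zero.1 h0).symm

end SC
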