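import Pool.Agent.H77.SC.U1

open Filter Topology

namespace SC

variable {N : Type*} [CStarAlgebra N] {τ : N →ₗ[ℂ] ℂ} {U : Ultrafilter ℕ}

private theorem const_haar {u : N} (hh : HaarSeq τ U (fun _ => u)) : u ∈ Haar τ := by
  refine ⟨hh.1 0, fun m hm => ?_⟩
  exact tendsto_nhds_unique (tendsto_const_nhds) (hh.2 m hm)

private theorem haar_const {u : N} (hu : u ∈ Haar τ) : HaarSeq τ U (fun _ => u) := by
  refine ⟨fun _ => hu.1, fun m hm => ?_⟩
  rw [show (fun _ : ℕ => τ (u ^ m)) = fun _ => 0 from funext fun _ => hu.2 m hm]
  exact tendsto_const_nhds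

private theorem comm_symm {a b : ℕ → N} (hc : CommSeq τ U a b) : CommSeq τ U b a := by
  unfold CommSeq at *
  refine hc.congr fun k => n2_sub_comm _ _

theorem path_haar_left {n : ℕ} {u v : N} (hp : Path τ U n u v) : u ∈ Haar τ := by
  obtain ⟨w, h0, h1, h2, h3⟩ := hp
  have := h2 0 (Nat.zero_le _)
  rw [h0] at this
  exact const_haar this

theorem path_haar_right {n : ℕ} {u v : N} (hp : Path τ U n u v) : v ∈ Haar τ := by
  obtain ⟨w, h0, h1, h2, h3⟩ := hp
  have := h2 (n + 1) le_rfl
  rw [h1] at this
  exact const_haar this

theorem path_comm {u v : N} (hu : u ∈ Haar τ) (hv : v ∈ Haar τ) (huv : u * v = v * u) :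
    Path τ U 0 u v := by
  refine ⟨fun i => if i = 0 then (fun _ => u) else (fun _ => v), by simp, by simp,
    fun i hi => ?_, fun i hi => ?_⟩
  · by_cases h0 : i = 0
    · simp only [h0, if_true]
      exact haar_const hu
    · simp only [h0, if_false]
      exact haar_const hv
  · have : i = 0 := by omega
    subst this
    simp only [if_true, zero_add, one_ne_zero, if_false]
    unfold CommSeq
    simp only [huv, sub_self, n2_zero]
    exact tendsto_const_nhds

theorem path_symm {n : ℕ} {u v : N} (hp : Path τ U n u v) : Path τ U n v u := by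
  obtain ⟨w, h0, h1, h2, h3⟩ := hp
  refine ⟨fun i => w (n + 1 - i), by simpa using h1, by simpa using h0,
    fun i hi => h2 _ (Nat.sub_le _ _), fun i hi => ?_⟩
  have := h3 (n - i) (Nat.sub_le _ _)
  have e1 : n - i + 1 = n + 1 - i := by omega
  have e2 : n + 1 - (i + 1) = n - i := by omega
  show CommSeq τ U (w (n + 1 - i)) (w (n + 1 - (i + 1)))
  rw [e2, ← e1]
  exact comm_symm this

theorem path_trans {n m : ℕ} {u v z : N} (hp : Path τ U n u v) (hq : Path τ U m v z) :
    Path τ U (n + m + 1) u z := by
  obtain ⟨w, h0, h1, h2, h3⟩ := hp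
  obtain ⟨w', g0, g1, g2, g3⟩ := hq
  refine ⟨fun i => if i ≤ n + 1 then w i else w' (i - (n + 1)), by simpa using h0, ?_,
    fun i hi => ?_, fun i hi => ?_⟩
  · have : ¬ (n + m + 1 + 1 ≤ n + 1) := by omega
    simp only [this, if_false]
    rw [show n + m + 1 + 1 - (n + 1) = m + 1 by omega]
    exact g1
  · by_cases hle : i ≤ n + 1
    · simp only [hle, if_true]
      exact h2 i hle
    · simp only [hle, if_false]
      exact g2 _ (by omega)
  · by_cases hle : i + 1 ≤ n + 1
    · have hle' : i ≤ n + 1 := by omega
      simp only [hle, hle', if_true]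
      exact h3 i (by omega)
    · by_cases hle' : i ≤ n + 1
      · have hi' : i = n + 1 := by omega
        subst hi'
        simp only [le_refl, if_true, hle, if_false]
        rw [show n + 1 + 1 - (n + 1) = 1 by omega, h1, ← g0]
        exact g3 0 (Nat.zero_le _)
      · simp only [hle, hle', if_false]
        rw [show i + 1 - (n + 1) = (i - (n + 1)) + 1 by omega]
        exact g3 _ (by omega)

theorem path_mono {n m : ℕ} (hnm : n ≤ m) {u v : N} (hp : Path τ U n u v) :
    Path τ U m u v := by
  have hv := path_haar_right hp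
  obtain ⟨w, h0, h1, h2, h3⟩ := hp
  refine ⟨fun i => if i ≤ n + 1 then w i else (fun _ => v), by simpa using h0, ?_,
    fun i hi => ?_, fun i hi => ?_⟩
  · by_cases hle : m + 1 ≤ n + 1
    · have : m = n := by omega
      subst this
      simpa using h1
    · simp only [hle, if_false]
  · by_cases hle : i ≤ n + 1
    · simp only [hle, if_true]
      exact h2 i hle
    · simp only [hle, if_false]
      exact haar_const hv
  · by_cases hle : i + 1 ≤ n + 1
    · have hle' : i ≤ n + 1 := by omega
      simp only [hle, hle', if_true]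
      exact h3 i (by omega)
    · by_cases hle' : i ≤ n + 1
      · have hi' : i = n + 1 := by omega
        subst hi'
        simp only [le_refl, if_true, hle, if_false]
        rw [h1]
        unfold CommSeq
        simp only [sub_self, n2_zero]
        exact tendsto_const_nhds
      · simp only [hle, hle', if_false]
        unfold CommSeq
        simp only [sub_self, n2_zero]
        exact tendsto_const_nhds

theorem path_refl {u : N} (hu : u ∈ Haar τ) (n : ℕ) : Path τ U n u u :=
  path_mono (Nat.zero_le n) (path_comm hu hu rfl)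

private theorem conj_pow {w : N} (hw : w ∈ unitary N) (x : N) (m : ℕ) :
    (w * x * star w) ^ m = w * x ^ m * star w := by
  have hw1 : star w * w = 1 := (Unitary.mem_iff.mp hw).1
  have hw2 : w * star w = 1 := (Unitary.mem_iff.mp hw).2
  induction m with
  | zero => simp [hw2]
  | succ m ih =>
    rw [pow_succ, ih, pow_succ]
    calc w * x ^ m * star w * (w * x * star w) = w * x ^ m * (star w * w) * x * star w := by
          simp only [mul_assoc]
      _ = w * (x ^ m * x) * star w := by rw [hw1]; simp only [mul_assoc, one_mul, mul_one]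

theorem path_conj (h : IsII1 τ) {n : ℕ} {u v w : N} (hw : w ∈ unitary N)
    (hp : Path τ U n u v) : Path τ U n (w * u * star w) (w * v * star w) := by
  have hw1 : star w * w = 1 := (Unitary.mem_iff.mp hw).1
  have hw2 : w * star w = 1 := (Unitary.mem_iff.mp hw).2
  have hws : star w ∈ unitary N := Unitary.star_mem hw
  obtain ⟨x, h0, h1, h2, h3⟩ := hp
  refine ⟨fun i k => w * x i k * star w, by simp [h0], by simp [h1], fun i hi => ⟨fun k => ?_,
    fun m hm => ?_⟩, fun i hi => ?_⟩
  · exact mul_mem (mul_mem hw ((h2 i hi).1 k)) hws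
  · refine ((h2 i hi).2 m hm).congr fun k => ?_
    rw [conj_pow hw, mul_assoc, h.tracial w, mul_assoc, hw1, mul_one]
  · refine (h3 i hi).congr fun k => ?_
    have e : w * x i k * star w * (w * x (i + 1) k * star w) -
        w * x (i + 1) k * star w * (w * x i k * star w) =
        w * ((x i k * x (i + 1) k - x (i + 1) k * x i k) * star w) := by
      calc _ = w * x i k * (star w * w) * x (i + 1) k * star w -
            w * x (i + 1) k * (star w * w) * x i k * star w := by simp only [mul_assoc]
        _ = _ := by rw [hw1]; simp only [mul_assoc, one_mul, mul_one, mul_sub, sub_mul]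
    rw [e, n2_unitary_left hw, n2_unitary_right h hws]

end SC
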