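import Pool.Agent.H77.SC.P0

/-!
# P1: paths in the ultrapower and approximate paths; closedness

`path_iff_app` (→): given `ε`, `M`, finitely many conditions (`i ≤ n+1`, `1 ≤ m ≤ M`) hold for
`U`-almost all `k`; pick one such `k` (`U` is a proper filter) and `x i = w i k`.
(←): for each `k` choose `x^{(k)}` from `App` with `ε = 1/(k+1)`, `M = k`, and put
`w i k = x^{(k)} i` for `i ≤ n+1`; `w 0`, `w (n+1)` are constant.  For `k ≥ m`,
`‖τ((w i k)^m)‖ < 1/(k+1)`; so it tends to `0` along `atTop`, hence along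
`U ≤ cofinite = atTop` (`Nat.cofinite_eq_atTop`).  The same for the commutators.
For the endpoints: `App` with all `ε`, `M` shows that `u`, `v` are Haar unitaries.

`path_closed`: by `path_iff_app` prove `App τ n u v`.  Given `ε`, `M`, take `u'`, `v'` within
`ε/8` of `u`, `v` and `x'` from `App τ n u' v'` for `ε/4`, `M`; replace `x' 0 = u'` by `u` and
`x' (n+1) = v'` by `v` (Haar: their moments are `0`); each commutator changes by at most
`2 ‖u - u'‖₂ + 2 ‖v - v'‖₂ < ε/2` (only those with `i = 0` or `i = n` change, unitaries have norm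
`≤ 1`, `n2_mul_le`, `n2_mul_le'`).
-/

open Filter Topology

namespace SC

variable {N : Type*} [CStarAlgebra N] {τ : N →ₗ[ℂ] ℂ} {U : Ultrafilter ℕ}

theorem path_iff_app (h : IsII1 τ) (hU : (U : Filter ℕ) ≤ cofinite) (n : ℕ) (u v : N) :
    Path τ U n u v ↔ App τ n u v := by
  constructor
  · rintro ⟨w, h0, h1, h2, h3⟩ ε hε M
    have A : ∀ᶠ k in (U : Filter ℕ), ∀ i ∈ Finset.range (n + 2), ∀ m ∈ Finset.Icc 1 M,
        ‖τ (w i k ^ m)‖ < ε := by
      rw [Filter.eventually_all_finset]
      intro i hi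
      rw [Filter.eventually_all_finset]
      intro m hm
      have hi' : i ≤ n + 1 := by
        have := Finset.mem_range.1 hi
        omega
      have := Metric.tendsto_nhds.1 ((h2 i hi').2 m (Finset.mem_Icc.1 hm).1) ε hε
      filter_upwards [this] with k hk
      rwa [dist_zero_right] at hk
    have B : ∀ᶠ k in (U : Filter ℕ), ∀ i ∈ Finset.range (n + 1),
        n2 τ (w i k * w (i + 1) k - w (i + 1) k * w i k) < ε := by
      rw [Filter.eventually_all_finset]
      intro i hi
      have hi' : i ≤ n := by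
        have := Finset.mem_range.1 hi
        omega
      have := Metric.tendsto_nhds.1 (h3 i hi') ε hε
      filter_upwards [this] with k hk
      rw [Real.dist_0_eq_abs] at hk
      exact (le_abs_self _).trans_lt hk
    obtain ⟨k, hk1, hk2⟩ := (A.and B).exists
    refine ⟨fun i => w i k, congrFun h0 k, congrFun h1 k, fun i hi => ⟨(h2 i hi).1 k, ?_⟩, ?_⟩
    · intro m hm hM
      exact hk1 i (Finset.mem_range.2 (by omega)) m (Finset.mem_Icc.2 ⟨hm, hM⟩)
    · intro i hi
      exact hk2 i (Finset.mem_range.2 (by omega))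
  · intro hA
    have hU' : (U : Filter ℕ) ≤ atTop := by
      rw [← Nat.cofinite_eq_atTop]
      exact hU
    have hA' : ∀ k : ℕ, ∃ x : ℕ → N, x 0 = u ∧ x (n + 1) = v ∧
        (∀ i ≤ n + 1, x i ∈ unitary N ∧ ∀ m : ℕ, 1 ≤ m → m ≤ k →
          ‖τ (x i ^ m)‖ < 1 / ((k : ℝ) + 1)) ∧
        ∀ i ≤ n, n2 τ (x i * x (i + 1) - x (i + 1) * x i) < 1 / ((k : ℝ) + 1) :=
      fun k => hA (1 / ((k : ℝ) + 1)) (by positivity) k
    choose x h0 h1 h2 h3 using hA'
    refine ⟨fun i k => x k i, funext h0, funext h1, fun i hi => ⟨fun k => (h2 k i hi).1, ?_⟩, ?_⟩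
    · intro m hm
      refine Tendsto.mono_left ?_ hU'
      refine squeeze_zero_norm' ?_ tendsto_one_div_add_atTop_nhds_zero_nat
      filter_upwards [eventually_ge_atTop m] with k hk
      exact ((h2 k i hi).2 m hm hk).le
    · intro i hi
      unfold CommSeq
      refine Tendsto.mono_left ?_ hU'
      exact squeeze_zero (fun k => n2_nonneg _) (fun k => (h3 k i hi).le)
        tendsto_one_div_add_atTop_nhds_zero_nat

private theorem comm_le (h : IsII1 τ) {a b a' b' : N} (ha : a ∈ unitary N) (hb : b ∈ unitary N)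
    (ha' : a' ∈ unitary N) (hb' : b' ∈ unitary N) :
    n2 τ (a * b - b * a) ≤
      n2 τ (a' * b' - b' * a') + 2 * n2 τ (a - a') + 2 * n2 τ (b - b') := by
  have e : a * b - b * a = ((a - a') * b + a' * (b - b')) + ((a' * b' - b' * a') +
      (b' * (a' - a) + (b' - b) * a)) := by noncomm_ring
  rw [e]
  have k1 : n2 τ ((a - a') * b) = n2 τ (a - a') := n2_unitary_right h hb _
  have k2 : n2 τ (a' * (b - b')) = n2 τ (b - b') := n2_unitary_left ha' _
  have k3 : n2 τ (b' * (a' - a)) = n2 τ (a - a') := by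
    rw [n2_unitary_left hb', n2_sub_comm]
  have k4 : n2 τ ((b' - b) * a) = n2 τ (b - b') := by
    rw [n2_unitary_right h ha, n2_sub_comm]
  have l1 := n2_add_le h ((a - a') * b + a' * (b - b')) ((a' * b' - b' * a') +
      (b' * (a' - a) + (b' - b) * a))
  have l2 := n2_add_le h ((a - a') * b) (a' * (b - b'))
  have l3 := n2_add_le h (a' * b' - b' * a') (b' * (a' - a) + (b' - b) * a)
  have l4 := n2_add_le h (b' * (a' - a)) ((b' - b) * a)
  linarith

theorem path_closed (h : IsII1 τ) (hU : (U : Filter ℕ) ≤ cofinite) (n : ℕ) {u v : N}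
    (hu : u ∈ Haar τ) (hv : v ∈ Haar τ)
    (hc : ∀ ε : ℝ, 0 < ε → ∃ u' v' : N, Path τ U n u' v' ∧ n2 τ (u - u') < ε ∧
      n2 τ (v - v') < ε) : Path τ U n u v := by
  rw [path_iff_app h hU]
  intro ε hε M
  obtain ⟨u', v', hp, hu', hv'⟩ := hc (ε / 8) (by positivity)
  obtain ⟨x', x0, x1, hx2, hx3⟩ := (path_iff_app h hU n u' v').1 hp (ε / 4) (by positivity) M
  set x : ℕ → N := fun i => if i = 0 then u else if i = n + 1 then v else x' i with hx
  have hx0 : x 0 = u := by simp [hx]
  have hxn : x (n + 1) = v := by simp [hx]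
  have hxi : ∀ i, i ≠ 0 → i ≠ n + 1 → x i = x' i := by
    intro i h1 h2
    simp [hx, h1, h2]
  have hd : ∀ i, n2 τ (x i - x' i) ≤ ε / 8 := by
    intro i
    by_cases h1 : i = 0
    · subst h1
      rw [hx0, x0]
      exact hu'.le
    · by_cases h2 : i = n + 1
      · subst h2
        rw [hxn, x1]
        exact hv'.le
      · rw [hxi i h1 h2, sub_self, n2_zero]
        positivity
  have hxu : ∀ i ≤ n + 1, x i ∈ unitary N ∧ ∀ m : ℕ, 1 ≤ m → m ≤ M → ‖τ (x i ^ m)‖ < ε := by
    intro i hi
    by_cases h1 : i = 0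
    · subst h1
      rw [hx0]
      refine ⟨hu.1, fun m hm _ => ?_⟩
      rw [hu.2 m hm, norm_zero]
      exact hε
    · by_cases h2 : i = n + 1
      · subst h2
        rw [hxn]
        refine ⟨hv.1, fun m hm _ => ?_⟩
        rw [hv.2 m hm, norm_zero]
        exact hε
      · rw [hxi i h1 h2]
        refine ⟨(hx2 i hi).1, fun m hm hM => ?_⟩
        have := (hx2 i hi).2 m hm hM
        linarith
  refine ⟨x, hx0, hxn, hxu, fun i hi => ?_⟩
  have k := comm_le h (hxu i (by omega)).1 (hxu (i + 1) (by omega)).1 (hx2 i (by omega)).1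
    (hx2 (i + 1) (by omega)).1
  have k1 := hx3 i hi
  have k2 := hd i
  have k3 := hd (i + 1)
  linarith

end SC
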