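import Pool.Agent.H77.SC.P1

/-!
# O1: basic properties of sequential commutation orbits

Everything follows from `P0.lean` (`path_refl`, `path_symm`, `path_trans`, `path_conj`,
`path_comm`) and `haar_conj`, `haar_star`.
`conj_mem_of_mem`: for `u, x ∈ O`: `x ~ u` gives `u x u* ~ u u u* = u` (`path_conj`), so
`u x u* ∈ O`.  `nz_of`: if `x ∈ O` and `w x w* ∈ O`, then for `y ∈ O`: `w y w* ~ w x w*`, so
`w y w* ∈ O`; conversely if `w y w* ∈ O` then `w y w* ~ w x w*` and `path_conj` with `star w` gives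
`y ~ x` (`y` is a Haar unitary: `haar_conj` with `star w`).
`nz_comm`: `w u w* = u`.
`conj_orb`: `conjSet w (Orb u) = Orb (w u w*)`.
`conj_gen`: if `M` is a closed *-subalgebra containing `w O w*`, then `{x | w x w* ∈ M}` is a closed
*-subalgebra containing `O`, so it is `⊤`; so `M = ⊤` (`x = w (w* x w) w*`).
-/

open Filter Topology

namespace SC

variable {N : Type*} [CStarAlgebra N] {τ : N →ₗ[ℂ] ℂ} {U : Ultrafilter ℕ} {O : Set N}

theorem orb_haar (hO : IsOrb τ U O) {x : N} (hx : x ∈ O) : x ∈ Haar τ := by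
  obtain ⟨u, hu, rfl⟩ := hO
  exact hx.1

theorem orb_nonempty (hO : IsOrb τ U O) : O.Nonempty := by
  obtain ⟨u, hu, rfl⟩ := hO
  exact ⟨u, hu, 0, path_refl hu 0⟩

theorem orb_path (hO : IsOrb τ U O) {x y : N} (hx : x ∈ O) (hy : y ∈ O) :
    ∃ n, Path τ U n x y := by
  obtain ⟨u, hu, rfl⟩ := hO
  obtain ⟨n, hn⟩ := hx.2
  obtain ⟨m, hm⟩ := hy.2
  exact ⟨_, path_trans (path_symm hn) hm⟩

theorem orb_of_path (hO : IsOrb τ U O) {x y : N} (hx : x ∈ O) {n : ℕ}
    (hp : Path τ U n x y) : y ∈ O := by
  obtain ⟨u, hu, rfl⟩ := hO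
  obtain ⟨m, hm⟩ := hx.2
  exact ⟨path_haar_right hp, _, path_trans hm hp⟩

theorem orb_isOrb {u : N} (hu : u ∈ Haar τ) : IsOrb τ U (Orb τ U u) ∧ u ∈ Orb τ U u :=
  ⟨⟨u, hu, rfl⟩, hu, 0, path_refl hu 0⟩

theorem orb_star (h : IsII1 τ) (hO : IsOrb τ U O) {u : N} (hu : u ∈ O) : star u ∈ O := by
  have hH := orb_haar hO hu
  exact orb_of_path hO hu (path_comm hH (haar_star h hH)
    (by rw [Unitary.mul_star_self_of_mem hH.1, Unitary.star_mul_self_of_mem hH.1]))

private theorem conj_back {w : N} (hw : w ∈ unitary N) (x : N) :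
    star w * (w * x * star w) * star (star w) = x := by
  rw [star_star]
  calc star w * (w * x * star w) * w = (star w * w) * x * (star w * w) := by noncomm_ring
    _ = x := by rw [Unitary.star_mul_self_of_mem hw, one_mul, mul_one]

private theorem conj_fwd {w : N} (hw : w ∈ unitary N) (x : N) :
    w * (star w * x * star (star w)) * star w = x := by
  rw [star_star]
  calc w * (star w * x * w) * star w = (w * star w) * x * (w * star w) := by noncomm_ring
    _ = x := by rw [Unitary.mul_star_self_of_mem hw, one_mul, mul_one]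

theorem nz_of (h : IsII1 τ) (hO : IsOrb τ U O) {w x : N} (hw : w ∈ unitary N) (hx : x ∈ O)
    (hwx : w * x * star w ∈ O) : w ∈ Nz O := by
  refine ⟨hw, fun y => ⟨fun hy => ?_, fun hy => ?_⟩⟩
  · obtain ⟨n, hn⟩ := orb_path hO hx hy
    exact orb_of_path hO hwx (path_conj h hw hn)
  · obtain ⟨n, hn⟩ := orb_path hO hwx hy
    have h1 := path_conj h (star_mem' hw) hn
    rw [conj_back hw, conj_back hw] at h1
    exact orb_of_path hO hx h1

theorem nz_self (h : IsII1 τ) (hO : IsOrb τ U O) {u : N} (hu : u ∈ O) : u ∈ Nz O := by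
  have hU := (orb_haar hO hu).1
  refine nz_of h hO hU hu ?_
  rw [mul_assoc, Unitary.mul_star_self_of_mem hU, mul_one]
  exact hu

theorem nz_comm (h : IsII1 τ) (hO : IsOrb τ U O) {u w : N} (hu : u ∈ O) (hw : w ∈ unitary N)
    (hwu : w * u = u * w) : w ∈ Nz O := by
  refine nz_of h hO hw hu ?_
  rw [hwu, mul_assoc, Unitary.mul_star_self_of_mem hw, mul_one]
  exact hu

theorem nz_one : (1 : N) ∈ Nz O := by
  refine ⟨one_mem _, fun x => ?_⟩
  rw [star_one, one_mul, mul_one]

theorem nz_mul {w w' : N} (hw : w ∈ Nz O) (hw' : w' ∈ Nz O) : w * w' ∈ Nz O := by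
  refine ⟨mul_mem hw.1 hw'.1, fun x => ?_⟩
  have e : w * w' * x * star (w * w') = w * (w' * x * star w') * star w := by
    rw [star_mul]
    noncomm_ring
  rw [e, ← hw.2, ← hw'.2]

theorem nz_star {w : N} (hw : w ∈ Nz O) : star w ∈ Nz O := by
  refine ⟨star_mem' hw.1, fun x => ?_⟩
  rw [hw.2 (star w * x * star (star w)), conj_fwd hw.1]

theorem conj_orb (h : IsII1 τ) (hO : IsOrb τ U O) {w : N} (hw : w ∈ unitary N) :
    IsOrb τ U (conjSet w O) := by
  obtain ⟨u, hu, rfl⟩ := hO
  refine ⟨w * u * star w, haar_conj h hu hw, ?_⟩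
  ext x
  constructor
  · rintro ⟨y, hy, rfl⟩
    obtain ⟨n, hn⟩ := hy.2
    exact ⟨haar_conj h hy.1 hw, n, path_conj h hw hn⟩
  · intro hx
    obtain ⟨n, hn⟩ := hx.2
    refine ⟨star w * x * star (star w), ⟨haar_conj h hx.1 (star_mem' hw), n, ?_⟩,
      (conj_fwd hw x).symm⟩
    have h1 := path_conj h (star_mem' hw) hn
    rwa [conj_back hw] at h1

/-- the *-subalgebra `{x | w x w* ∈ M}` -/
private def pull (w : N) (hw : w ∈ unitary N) (M : StarSubalgebra ℂ N) : StarSubalgebra ℂ N where
  carrier := {x | w * x * star w ∈ M}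
  mul_mem' := by
    intro a b ha hb
    have e : w * (a * b) * star w = (w * a * star w) * (w * b * star w) := by
      calc w * (a * b) * star w = w * a * 1 * b * star w := by noncomm_ring
        _ = w * a * (star w * w) * b * star w := by rw [Unitary.star_mul_self_of_mem hw]
        _ = _ := by noncomm_ring
    show w * (a * b) * star w ∈ M
    rw [e]
    exact mul_mem ha hb
  add_mem' := by
    intro a b ha hb
    show w * (a + b) * star w ∈ M
    rw [mul_add, add_mul]
    exact add_mem ha hb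
  algebraMap_mem' := by
    intro r
    show w * algebraMap ℂ N r * star w ∈ M
    rw [← Algebra.commutes, mul_assoc, Unitary.mul_star_self_of_mem hw, mul_one]
    exact algebraMap_mem M r
  star_mem' := by
    intro a ha
    show w * star a * star w ∈ M
    have e : w * star a * star w = star (w * a * star w) := by
      rw [star_mul, star_mul, star_star, mul_assoc]
    rw [e]
    exact star_mem ha

theorem conj_gen (h : IsII1 τ) {w : N} (hw : w ∈ unitary N) (hg : Generates τ O) :
    Generates τ (conjSet w O) := by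
  intro M hM hOM
  have h1 : pull w hw M = ⊤ := by
    apply hg
    · intro x hx
      show w * x * star w ∈ M
      apply hM
      intro ε hε
      obtain ⟨y, hy, hlt⟩ := hx ε hε
      refine ⟨w * y * star w, hy, ?_⟩
      have e : w * x * star w - w * y * star w = w * (x - y) * star w := by noncomm_ring
      rw [e, n2_unitary_right h (star_mem' hw), n2_unitary_left hw]
      exact hlt
    · intro x hx
      exact hOM ⟨x, hx, rfl⟩
  refine eq_top_iff.2 fun x _ => ?_
  have h2 : star w * x * star (star w) ∈ pull w hw M := by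
    rw [h1]
    exact StarSubalgebra.mem_top
  have h3 : w * (star w * x * star (star w)) * star w ∈ M := h2
  rwa [conj_fwd hw] at h3

end SC
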