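import Pool.Agent.H77.SC.Cp3
import Pool.Agent.H77.SC.Hr

/-!
# Cp4: the unitary conjugates of a Haar unitary are dense in the Haar unitaries

Take `n ≥ 1` with `8/n < ε`, `u'`, `v'` from `haar_fin`, `w` from `conj_fin` with
`w u' w* = v'`; `‖w u w* - v‖₂ ≤ ‖w (u - u') w*‖₂ + ‖v' - v‖₂ ≤ 8/n < ε`.
-/

open Filter Topology

namespace SC

variable {N : Type*} [CStarAlgebra N] {τ : N →ₗ[ℂ] ℂ}

theorem haar_conj_dense (h : IsII1 τ) {u v : N} (hu : u ∈ Haar τ) (hv : v ∈ Haar τ) (ε : ℝ)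
    (hε : 0 < ε) : ∃ w ∈ unitary N, n2 τ (w * u * star w - v) < ε := by
  obtain ⟨n, hn⟩ := exists_nat_gt (8 / ε)
  have hn0 : (0 : ℝ) < n := lt_trans (by positivity) hn
  have hn1 : 1 ≤ n := by
    have : 0 < n := by exact_mod_cast hn0
    omega
  obtain ⟨u', hu', hun, hu0, hud⟩ := haar_fin h hu n hn1
  obtain ⟨v', hv', hvn, hv0, hvd⟩ := haar_fin h hv n hn1
  obtain ⟨w, hw, hwe⟩ := conj_fin h n hn1 hu' hv' hun hvn hu0 hv0
  refine ⟨w, hw, ?_⟩
  have e : w * u * star w - v = w * ((u - u') * star w) + (v' - v) := by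
    rw [← hwe]
    noncomm_ring
  have h1 : n2 τ (w * ((u - u') * star w)) = n2 τ (u - u') := by
    rw [n2_unitary_left hw, n2_unitary_right h (Unitary.star_mem hw)]
  have h2 : n2 τ (v' - v) = n2 τ (v - v') := n2_sub_comm _ _
  have h3 := n2_add_le h (w * ((u - u') * star w)) (v' - v)
  rw [← e, h1, h2] at h3
  have h4 : (8 : ℝ) / n < ε := by
    rw [div_lt_iff₀ hn0]
    rw [div_lt_iff₀ hε] at hn
    linarith
  have h5 : (4 : ℝ) / n + 4 / n = 8 / n := by ring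
  linarith

end SC
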