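import Pool.Agent.H77.SC.Ba2

/-!
# U1: the unitary group and the set of Haar unitaries are closed in the 2-norm

Let `x` be a 2-norm limit of unitaries `y`.  `x* x - 1 = x* x - y* y = (x* - y*) x + y* (x - y)`,
so `‖x* x - 1‖₂ ≤ ‖x - y‖₂ ‖x‖ + ‖x - y‖₂`, hence `x* x = 1`; similarly `x x* = 1`.
For Haar unitaries: `‖x^m - y^m‖₂ ≤ m ‖x - y‖₂` for unitaries (telescoping) and
`|τ(x^m)| = |τ(x^m - y^m)| ≤ ‖x^m - y^m‖₂`.
-/

open Filter Topology

namespace SC

variable {N : Type*} [CStarAlgebra N] {τ : N →ₗ[ℂ] ℂ}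

theorem eq_zero_of_small {a c : ℝ} (ha : 0 ≤ a) (hc : 0 < c)
    (h : ∀ ε : ℝ, 0 < ε → a ≤ ε * c) : a = 0 := by
  by_contra hne
  have hpos : 0 < a := lt_of_le_of_ne ha (Ne.symm hne)
  have h1 := h (a / (2 * c)) (by positivity)
  have h2 : a / (2 * c) * c = a / 2 := by
    field_simp
  rw [h2] at h1
  linarith

theorem star_mem' {w : N} (hw : w ∈ unitary N) : star w ∈ unitary N :=
  Unitary.star_mem hw

theorem unitary_closed (h : IsII1 τ) : Closed2 τ (unitary N : Set N) := by
  intro x hx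
  have key1 : n2 τ (star x * x - 1) = 0 := by
    refine eq_zero_of_small (c := ‖x‖ + 1) (n2_nonneg _) (by positivity) fun ε hε => ?_
    obtain ⟨y, hy, hlt⟩ := hx ε hε
    have hy' : y ∈ unitary N := hy
    have e : star x * x - 1 = (star x - star y) * x + star y * (x - y) := by
      rw [← Unitary.star_mul_self_of_mem hy']
      noncomm_ring
    rw [e]
    have h1 : n2 τ ((star x - star y) * x) ≤ n2 τ (x - y) * ‖x‖ := by
      refine le_trans (n2_mul_le' h _ _) ?_
      rw [← star_sub, n2_star h]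
    have h2 : n2 τ (star y * (x - y)) = n2 τ (x - y) := n2_unitary_left (star_mem' hy') _
    have h3 := n2_add_le h ((star x - star y) * x) (star y * (x - y))
    have h4 : n2 τ (x - y) * ‖x‖ ≤ ε * ‖x‖ :=
      mul_le_mul_of_nonneg_right (le_of_lt hlt) (norm_nonneg _)
    nlinarith [h1, h2, h3, h4, hlt]
  have key2 : n2 τ (x * star x - 1) = 0 := by
    refine eq_zero_of_small (c := ‖x‖ + 1) (n2_nonneg _) (by positivity) fun ε hε => ?_
    obtain ⟨y, hy, hlt⟩ := hx ε hε
    have hy' : y ∈ unitary N := hy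
    have e : x * star x - 1 = (x - y) * star x + y * (star x - star y) := by
      rw [← Unitary.mul_star_self_of_mem hy']
      noncomm_ring
    rw [e]
    have h1 : n2 τ ((x - y) * star x) ≤ n2 τ (x - y) * ‖x‖ := by
      refine le_trans (n2_mul_le' h _ _) ?_
      rw [norm_star]
    have h2 : n2 τ (y * (star x - star y)) = n2 τ (x - y) := by
      rw [n2_unitary_left hy', ← star_sub, n2_star h]
    have h3 := n2_add_le h ((x - y) * star x) (y * (star x - star y))
    have h4 : n2 τ (x - y) * ‖x‖ ≤ ε * ‖x‖ :=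
      mul_le_mul_of_nonneg_right (le_of_lt hlt) (norm_nonneg _)
    nlinarith [h1, h2, h3, h4, hlt]
  have h1 : star x * x = 1 := sub_eq_zero.1 (n2_eq_zero h key1)
  have h2 : x * star x = 1 := sub_eq_zero.1 (n2_eq_zero h key2)
  exact Unitary.mem_iff.2 ⟨h1, h2⟩

/-- telescoping for unitaries -/
theorem n2_pow_sub (h : IsII1 τ) {x y : N} (hx : x ∈ unitary N) (hy : y ∈ unitary N) (m : ℕ) :
    n2 τ (x ^ m - y ^ m) ≤ m * n2 τ (x - y) := by
  induction m with
  | zero =>
    rw [pow_zero, pow_zero, sub_self, n2_zero]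
    simp
  | succ m ih =>
    have e : x ^ (m + 1) - y ^ (m + 1) = x ^ m * (x - y) + (x ^ m - y ^ m) * y := by
      rw [pow_succ, pow_succ]
      noncomm_ring
    rw [e]
    have h1 : n2 τ (x ^ m * (x - y)) = n2 τ (x - y) :=
      n2_unitary_left (pow_mem hx m) _
    have h2 : n2 τ ((x ^ m - y ^ m) * y) = n2 τ (x ^ m - y ^ m) := n2_unitary_right h hy _
    have h3 := n2_add_le h (x ^ m * (x - y)) ((x ^ m - y ^ m) * y)
    rw [h1, h2] at h3
    push_cast
    linarith

theorem haar_closed (h : IsII1 τ) : Closed2 τ (Haar τ) := by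
  intro x hx
  have hxu : x ∈ unitary N := by
    apply unitary_closed h x
    intro ε hε
    obtain ⟨y, hy, hlt⟩ := hx ε hε
    exact ⟨y, hy.1, hlt⟩
  refine ⟨hxu, fun m hm => ?_⟩
  have key : ‖τ (x ^ m)‖ = 0 := by
    refine eq_zero_of_small (c := (m : ℝ) + 1) (norm_nonneg _) (by positivity) fun ε hε => ?_
    obtain ⟨y, hy, hlt⟩ := hx ε hε
    have e : τ (x ^ m) = τ (x ^ m - y ^ m) := by
      rw [map_sub, hy.2 m hm, sub_zero]
    rw [e]
    have h1 := tau_le_n2 h (x ^ m - y ^ m)
    have h2 := n2_pow_sub h hxu hy.1 m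
    have h3 : (m : ℝ) * n2 τ (x - y) ≤ m * ε :=
      mul_le_mul_of_nonneg_left (le_of_lt hlt) (Nat.cast_nonneg m)
    nlinarith [h1, h2, h3]
  exact norm_eq_zero.1 key

theorem conj_pow' {w : N} (hw : w ∈ unitary N) (u : N) (m : ℕ) :
    (w * u * star w) ^ m = w * u ^ m * star w := by
  induction m with
  | zero => rw [pow_zero, pow_zero, mul_one, Unitary.mul_star_self_of_mem hw]
  | succ m ih =>
    rw [pow_succ, ih, pow_succ]
    calc w * u ^ m * star w * (w * u * star w) = w * u ^ m * (star w * w) * u * star w := by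
          noncomm_ring
      _ = w * (u ^ m * u) * star w := by
          rw [Unitary.star_mul_self_of_mem hw]
          noncomm_ring

/-- Haar unitaries are preserved by unitary conjugation and by the adjoint. -/
theorem haar_conj (h : IsII1 τ) {u w : N} (hu : u ∈ Haar τ) (hw : w ∈ unitary N) :
    w * u * star w ∈ Haar τ := by
  refine ⟨mul_mem (mul_mem hw hu.1) (star_mem' hw), fun m hm => ?_⟩
  rw [conj_pow' hw, mul_assoc, h.tracial, mul_assoc, Unitary.star_mul_self_of_mem hw, mul_one]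
  exact hu.2 m hm

theorem haar_star (h : IsII1 τ) {u : N} (hu : u ∈ Haar τ) : star u ∈ Haar τ := by
  refine ⟨star_mem' hu.1, fun m hm => ?_⟩
  rw [← star_pow, tau_star h, hu.2 m hm, map_zero]

/-- `‖w u w* - w' u w'*‖₂ ≤ 2 ‖w - w'‖₂` for unitaries. -/
theorem n2_conj_sub (h : IsII1 τ) {u w w' : N} (hu : u ∈ unitary N) (hw : w ∈ unitary N)
    (hw' : w' ∈ unitary N) :
    n2 τ (w * u * star w - w' * u * star w') ≤ 2 * n2 τ (w - w') := by
  have e : w * u * star w - w' * u * star w' =
      (w - w') * (u * star w) + (w' * u) * (star w - star w') := by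
    noncomm_ring
  rw [e]
  have h1 : n2 τ ((w - w') * (u * star w)) = n2 τ (w - w') :=
    n2_unitary_right h (mul_mem hu (star_mem' hw)) _
  have h2 : n2 τ ((w' * u) * (star w - star w')) = n2 τ (w - w') := by
    rw [n2_unitary_left (mul_mem hw' hu), ← star_sub, n2_star h]
  have h3 := n2_add_le h ((w - w') * (u * star w)) ((w' * u) * (star w - star w'))
  rw [h1, h2] at h3
  linarith

end SC
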