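import Pool.Agent.H77.SC.My
import Pool.Agent.H77.SC.U1

/-!
# MU: Baire and Mycielski for 2-norm closed sets of unitaries

`X = {x : N // x ∈ S}` with `dist x y = n2 τ (x - y)` is a complete metric space
(`Ba1.lean`: `n2_zero`, `n2_sub_comm`, `n2_sub_le`, `n2_eq_zero`; complete by `IsII1.complete`,
unitaries have norm `≤ 1`, and `S` is closed).  Build the `MetricSpace` and `CompleteSpace`
instances locally (`letI`).  `baire2` : `nonempty_interior_of_iUnion_of_closed`.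
`myc2` : `mycielski`.
-/

open Filter Topology

namespace SC

variable {N : Type*} [CStarAlgebra N] {τ : N →ₗ[ℂ] ℂ}

/-- The points of a set `S` (a type without the norm metric of the subtype). -/
structure MU_Pt (S : Set N) where
  val : N
  mem : val ∈ S

/-- The 2-norm metric on `S`. -/
@[reducible] noncomputable def MU_metric (h : IsII1 τ) (S : Set N) : MetricSpace (MU_Pt S) where
  dist x y := n2 τ (x.val - y.val)
  dist_self x := by
    show n2 τ (x.val - x.val) = 0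
    rw [sub_self, n2_zero]
  dist_comm x y := n2_sub_comm _ _
  dist_triangle x y z := n2_sub_le h _ _ _
  eq_of_dist_eq_zero := by
    intro x y hxy
    have h1 : x.val - y.val = 0 := n2_eq_zero h hxy
    cases x
    cases y
    simp only [MU_Pt.mk.injEq]
    exact sub_eq_zero.1 h1

theorem MU_complete (h : IsII1 τ) (S : Set N) (hS : ∀ x ∈ S, x ∈ unitary N)
    (hcl : Closed2 τ S) :
    @CompleteSpace (MU_Pt S) (MU_metric h S).toPseudoMetricSpace.toUniformSpace := by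
  letI := MU_metric h S
  apply Metric.complete_of_cauchySeq_tendsto
  intro u hu
  rw [Metric.cauchySeq_iff] at hu
  obtain ⟨y, _, hy⟩ := h.complete (fun k => (u k).val)
    (fun k => norm_unitary_le (hS _ (u k).mem)) (by
      intro ε hε
      obtain ⟨K, hK⟩ := hu ε hε
      exact ⟨K, fun k hk l hl => hK k hk l hl⟩)
  have hyS : y ∈ S := by
    apply hcl
    intro ε hε
    obtain ⟨k, hk⟩ := (hy.eventually (gt_mem_nhds hε)).exists
    exact ⟨(u k).val, (u k).mem, by rw [n2_sub_comm]; exact hk⟩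
  refine ⟨⟨y, hyS⟩, ?_⟩
  rw [tendsto_iff_dist_tendsto_zero]
  exact hy

theorem baire2 (h : IsII1 τ) (S : Set N) (hS : ∀ x ∈ S, x ∈ unitary N) (hne : S.Nonempty)
    (hcl : Closed2 τ S) (A : ℕ → Set N)
    (hA : ∀ n, ∀ x ∈ S, (∀ ε : ℝ, 0 < ε → ∃ y ∈ S, y ∈ A n ∧ n2 τ (x - y) < ε) → x ∈ A n)
    (hcov : ∀ x ∈ S, ∃ n, x ∈ A n) :
    ∃ n, ∃ x ∈ S, ∃ r : ℝ, 0 < r ∧ ∀ y ∈ S, n2 τ (y - x) < r → y ∈ A n := by
  letI := MU_metric h S
  haveI := MU_complete h S hS hcl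
  haveI : Nonempty (MU_Pt S) := hne.elim fun x hx => ⟨⟨x, hx⟩⟩
  have hc : ∀ n, IsClosed {x : MU_Pt S | x.val ∈ A n} := by
    intro n
    apply isClosed_of_closure_subset
    intro x hx
    rw [Metric.mem_closure_iff] at hx
    exact hA n x.val x.mem fun ε hε => by
      obtain ⟨b, hb, hd⟩ := hx ε hε
      exact ⟨b.val, b.mem, hb, hd⟩
  obtain ⟨n, x, hx⟩ := nonempty_interior_of_iUnion_of_closed hc (by
    ext x
    simp only [Set.mem_iUnion, Set.mem_setOf_eq, Set.mem_univ, iff_true]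
    exact hcov _ x.mem)
  rw [mem_interior_iff_mem_nhds, Metric.mem_nhds_iff] at hx
  obtain ⟨r, hr, hb⟩ := hx
  refine ⟨n, x.val, x.mem, r, hr, fun y hy hd => ?_⟩
  have h1 : (⟨y, hy⟩ : MU_Pt S) ∈ Metric.ball x r := hd
  exact hb h1

theorem myc2 (h : IsII1 τ) (S : Set N) (hS : ∀ x ∈ S, x ∈ unitary N) (hne : S.Nonempty)
    (hcl : Closed2 τ S) (R : ℕ → N → N → Prop)
    (hR : ∀ n, ∀ x ∈ S, ∀ y ∈ S, (∀ ε : ℝ, 0 < ε → ∃ x' ∈ S, ∃ y' ∈ S, R n x' y' ∧
      n2 τ (x - x') < ε ∧ n2 τ (y - y') < ε) → R n x y)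
    (hno : ∀ n, ∀ x ∈ S, ∀ y ∈ S, ∀ r : ℝ, 0 < r → ∃ x' ∈ S, ∃ y' ∈ S,
      n2 τ (x' - x) < r ∧ n2 τ (y' - y) < r ∧ ¬ R n x' y') :
    ∃ f : (ℕ → Bool) → N, (∀ s, f s ∈ S) ∧ ∀ s t, s ≠ t → ∀ n, ¬ R n (f s) (f t) := by
  letI := MU_metric h S
  haveI := MU_complete h S hS hcl
  haveI : Nonempty (MU_Pt S) := hne.elim fun x hx => ⟨⟨x, hx⟩⟩
  have hc : ∀ n, IsClosed {p : MU_Pt S × MU_Pt S | R n p.1.val p.2.val} := by
    intro n
    apply isClosed_of_closure_subset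
    rintro ⟨x, y⟩ hx
    rw [Metric.mem_closure_iff] at hx
    refine hR n x.val x.mem y.val y.mem fun ε hε => ?_
    obtain ⟨⟨x', y'⟩, hb, hd⟩ := hx ε hε
    rw [Prod.dist_eq, max_lt_iff] at hd
    exact ⟨x'.val, x'.mem, y'.val, y'.mem, hb, hd.1, hd.2⟩
  obtain ⟨f, hf⟩ := mycielski (X := MU_Pt S)
    (fun n => {p : MU_Pt S × MU_Pt S | R n p.1.val p.2.val}) hc (by
      intro n x y r hr
      obtain ⟨x', hx', y', hy', h1, h2, h3⟩ := hno n x.val x.mem y.val y.mem r hr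
      exact ⟨⟨x', hx'⟩, ⟨y', hy'⟩, h1, h2, h3⟩)
  exact ⟨fun s => (f s).val, fun s => (f s).mem, fun s t hst n => hf s t hst n⟩

end SC
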