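import Pool.Agent.H77.SC.Bp

/-!
# Ux: every unitary is a 2-norm limit of exponentials of bounded skew-adjoint elements

Take `m ≥ 1` with `4/m < ε²` and `δ = δ₀` from `bump_sum`.  One of the `m` nonnegative terms
(`bump_nonneg`, `ζ_j • w` is unitary) is `≤ 1/m`: with `w' = ζ_j • w`,
`‖w' - exp (I • A)‖₂² ≤ 4/m < ε²`, `A = cfc (targ δ) w'`, `A* = A`, `‖A‖ ≤ π`.  With
`ζ_j⁻¹ = exp (I c)`, `c = arg (ζ_j⁻¹)`, `|c| ≤ π`:
`w = ζ_j⁻¹ • w'` and `‖w - exp (I • (A + c • 1))‖₂ = ‖w' - exp (I • A)‖₂ < ε`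
(`exp (x + (I c) • 1) = exp (I c) • exp x`).  So `y = I • (A + c • 1)`, `‖y‖ ≤ 2π ≤ 7`.
-/

open Filter Topology

namespace SC

variable {N : Type*} [CStarAlgebra N] {τ : N →ₗ[ℂ] ℂ}

theorem unitary_exp (h : IsII1 τ) {w : N} (hw : w ∈ unitary N) (ε : ℝ) (hε : 0 < ε) :
    ∃ y : N, star y = -y ∧ ‖y‖ ≤ 7 ∧ n2 τ (w - NormedSpace.exp y) < ε := by
  have : Nontrivial N := nontriv h
  obtain ⟨m, hm⟩ := exists_nat_gt (4 / ε ^ 2)
  have hε2 : 0 < ε ^ 2 := by positivity
  have hm0 : (0 : ℝ) < m := lt_trans (by positivity) hm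
  have hm1 : 1 ≤ m := by
    have : 0 < m := by exact_mod_cast hm0
    omega
  have h4 : 4 * (1 / (m : ℝ)) < ε ^ 2 := by
    rw [div_lt_iff₀ hε2] at hm
    rw [mul_one_div, div_lt_iff₀ hm0]
    linarith
  obtain ⟨δ, hδ, hb⟩ := bump_sum h m hm1
  have hsum := hb δ hδ le_rfl w hw
  set ζ : ℕ → ℂ := fun j => Complex.exp (2 * Real.pi * Complex.I * j / m) with hζ
  have hζn : ∀ j, ‖ζ j‖ = 1 := by
    intro j
    have : (2 * (Real.pi : ℂ) * Complex.I * j / m) = ((2 * Real.pi * j / m : ℝ) : ℂ) * Complex.I := by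
      push_cast; ring
    simp only [hζ]
    rw [this, Complex.norm_exp_ofReal_mul_I]
  have hζc : ∀ j, (starRingEnd ℂ) (ζ j) * ζ j = 1 := by
    intro j
    rw [mul_comm, Complex.mul_conj, Complex.normSq_eq_norm_sq, hζn]
    simp
  have hwj : ∀ j, ζ j • w ∈ unitary N := by
    intro j
    rw [Unitary.mem_iff] at hw ⊢
    rw [star_smul, Complex.star_def]
    constructor
    · rw [smul_mul_smul_comm, hζc, hw.1, one_smul]
    · rw [smul_mul_smul_comm, mul_comm, hζc, hw.2, one_smul]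
  have hex : ∃ j ∈ Finset.range m, (τ (cfc (bump δ) (ζ j • w))).re ≤ 1 / m := by
    by_contra hc
    push Not at hc
    have h1 : ∑ j ∈ Finset.range m, (1 / (m : ℝ)) < ∑ j ∈ Finset.range m, (τ (cfc (bump δ) (ζ j • w))).re :=
      Finset.sum_lt_sum_of_nonempty ⟨0, Finset.mem_range.2 hm1⟩ hc
    rw [Finset.sum_const, Finset.card_range, nsmul_eq_mul, mul_one_div, div_self hm0.ne'] at h1
    linarith
  obtain ⟨j, -, hj⟩ := hex
  set w' : N := ζ j • w with hw'
  have hw'u : w' ∈ unitary N := hwj j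
  set A : N := cfc (targ δ) w' with hA
  have hAs : star A = A := targ_sa hw'u hδ
  have hAn : ‖A‖ ≤ Real.pi := targ_norm hw'u hδ
  have hlt : n2 τ (w' - NormedSpace.exp (Complex.I • A)) < ε := by
    have h1 := targ_exp h hw'u hδ
    have h2 : n2 τ (w' - NormedSpace.exp (Complex.I • A)) ^ 2 < ε ^ 2 := by
      refine lt_of_le_of_lt h1 (lt_of_le_of_lt ?_ h4)
      linarith
    exact lt_of_pow_lt_pow_left₀ 2 hε.le h2
  set c : ℝ := Complex.arg ((starRingEnd ℂ) (ζ j)) with hc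
  have hcn : |c| ≤ Real.pi := Complex.abs_arg_le_pi _
  have hce : Complex.exp (Complex.I * c) = (starRingEnd ℂ) (ζ j) := by
    have h1 := Complex.norm_mul_exp_arg_mul_I ((starRingEnd ℂ) (ζ j))
    rw [Complex.norm_conj, hζn] at h1
    rw [mul_comm, ← hc] at *
    simpa using h1
  have hww : w = (starRingEnd ℂ) (ζ j) • w' := by
    rw [hw', smul_smul, hζc, one_smul]
  have hone : ‖(1 : N)‖ = 1 := CStarRing.norm_one
  refine ⟨Complex.I • (A + (c : ℂ) • (1 : N)), ?_, ?_, ?_⟩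
  · rw [star_smul, star_add, star_smul, hAs, star_one]
    simp [add_comm]
  · rw [norm_smul, Complex.norm_I, one_mul]
    calc ‖A + (c : ℂ) • (1 : N)‖ ≤ ‖A‖ + ‖(c : ℂ) • (1 : N)‖ := norm_add_le _ _
      _ ≤ Real.pi + Real.pi := by
          refine add_le_add hAn ?_
          rw [norm_smul, hone, mul_one, Complex.norm_real]
          exact hcn
      _ ≤ 7 := by linarith [Real.pi_lt_d2]
  · have hexp : NormedSpace.exp (Complex.I • (A + (c : ℂ) • (1 : N))) =
        (starRingEnd ℂ) (ζ j) • NormedSpace.exp (Complex.I • A) := by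
      have e1 : Complex.I • (A + (c : ℂ) • (1 : N)) =
          algebraMap ℂ N (Complex.I * c) + Complex.I • A := by
        rw [smul_add, smul_smul, Algebra.algebraMap_eq_smul_one, add_comm]
      letI : NormedAlgebra ℚ N := NormedAlgebra.restrictScalars ℚ ℂ N
      rw [e1, NormedSpace.exp_add_of_commute (Algebra.commutes _ _), ← NormedSpace.algebraMap_exp_comm,
        ← Complex.exp_eq_exp_ℂ, hce, Algebra.algebraMap_eq_smul_one, smul_mul_assoc, one_mul]
    rw [hexp]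
    have e2 : w - (starRingEnd ℂ) (ζ j) • NormedSpace.exp (Complex.I • A) =
        (starRingEnd ℂ) (ζ j) • (w' - NormedSpace.exp (Complex.I • A)) := by
      rw [smul_sub, ← hww]
    rw [e2, n2_smul h, Complex.norm_conj, hζn, one_mul]
    exact hlt

end SC
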