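import Pool.Agent.H77.SC.O1
import Pool.Agent.H77.SC.Ux
import Pool.Agent.H77.SC.Cp4
import Pool.Agent.H77.SC.MU

/-!
# O4: a conjugation invariant orbit is everything, with bounded path length

Fix `u ∈ O` (`orb_nonempty`).  `A_n = {w unitary : Path n u (w u w*)}`; by hypothesis every unitary
is in some `A_n` (`w u w* ∈ O`, `orb_path`).  `A_n` is closed in the unitary group (`path_closed`,
`n2_conj_sub`).  `baire2` with `S = unitary N` (`unitary_closed`): `n`, `w₀`, `r > 0` with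
`ball(w₀, r) ⊆ A_n`.

(i) If `w` is unitary and `‖w - 1‖₂ < r` then `Path (2n+1) u (w u w*)`: `w₀ w` is in the ball
(`n2_unitary_left`), so `Path n u (w₀ w u w* w₀*)` and `Path n u (w₀ u w₀*)`; so
`Path (2n+1) (w₀ u w₀*) (w₀ (w u w*) w₀*)`, and `path_conj` with `w₀*`.
(ii) If `star y = -y`, `‖y‖ ≤ 7`: let `k : ℕ` with `7 < k r` (`k ≥ 1`, depends only on `r`),
`w = exp (y/k)`, `‖w - 1‖₂ ≤ ‖y/k‖₂ ≤ 7/k < r` (`exp_lip` with `z = 0`, `n2_le_norm`).  By induction
on `j` (`path_conj` with `w^j`, `path_trans`): `Path (j (2n+2)) u (w^j u (w^j)*)` (use `path_refl`,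
`path_mono` for `j = 0`; `j(2n+2) + (2n+1) + 1 = (j+1)(2n+2)`).  With `j = k`:
`Path L u (exp y u (exp y)*)`, `L = k (2n+2)`.
(iii) Every Haar unitary `v`: `Path L u v`.  By `path_closed`, `haar_conj_dense` and `unitary_exp`
(`n2_conj_sub`) `v` is a 2-norm limit of `exp y u (exp y)*` with `‖y‖ ≤ 7`.
(iv) For all Haar `v, v'`: `Path (L + L + 1) v v'`.
-/

open Filter Topology

namespace SC

variable {N : Type*} [CStarAlgebra N] {τ : N →ₗ[ℂ] ℂ} {U : Ultrafilter ℕ} {O : Set N}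

/-- Step (i): conjugations by unitaries near `1` have bounded path length. -/
theorem O4_near (h : IsII1 τ) (hU : (U : Filter ℕ) ≤ cofinite) (hO : IsOrb τ U O)
    (hinv : ∀ w ∈ unitary N, w ∈ Nz O) {u : N} (hu : u ∈ O) :
    ∃ m : ℕ, ∃ r : ℝ, 0 < r ∧ ∀ w ∈ unitary N, n2 τ (w - 1) < r →
      Path τ U m u (w * u * star w) := by
  have hH := orb_haar hO hu
  have hcl : ∀ n : ℕ, ∀ x ∈ (unitary N : Set N), (∀ ε : ℝ, 0 < ε → ∃ y ∈ (unitary N : Set N),
      y ∈ {w : N | Path τ U n u (w * u * star w)} ∧ n2 τ (x - y) < ε) →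
      x ∈ {w : N | Path τ U n u (w * u * star w)} := by
    intro n x hx hc
    have hx' : x ∈ unitary N := hx
    refine path_closed h hU n hH (haar_conj h hH hx') fun ε hε => ?_
    obtain ⟨y, hy, hyp, hlt⟩ := hc (ε / 2) (half_pos hε)
    have hy' : y ∈ unitary N := hy
    refine ⟨u, y * u * star y, hyp, ?_, ?_⟩
    · rw [sub_self, n2_zero]
      exact hε
    · have := n2_conj_sub h hH.1 hx' hy'
      linarith
  have hcov : ∀ x ∈ (unitary N : Set N), ∃ n : ℕ,
      x ∈ {w : N | Path τ U n u (w * u * star w)} := by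
    intro x hx
    exact orb_path hO hu (((hinv x hx).2 u).1 hu)
  obtain ⟨n, w₀, hw₀, r, hr, hball⟩ := baire2 h (unitary N : Set N) (fun x hx => hx)
    ⟨1, one_mem (unitary N)⟩ (unitary_closed h)
    (fun n => {w : N | Path τ U n u (w * u * star w)}) hcl hcov
  have hw₀' : w₀ ∈ unitary N := hw₀
  refine ⟨n + n + 1, r, hr, fun w hw hwr => ?_⟩
  have h0 : Path τ U n u (w₀ * u * star w₀) :=
    hball w₀ hw₀ (by rw [sub_self, n2_zero]; exact hr)
  have h1 : Path τ U n u (w₀ * w * u * star (w₀ * w)) := by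
    refine hball (w₀ * w) (mul_mem hw₀' hw) ?_
    have e : w₀ * w - w₀ = w₀ * (w - 1) := by rw [mul_sub, mul_one]
    rw [e, n2_unitary_left hw₀']
    exact hwr
  have h2 := path_conj h (star_mem' hw₀') (path_trans (path_symm h0) h1)
  have e1 : ∀ x : N, star w₀ * (w₀ * x * star w₀) * star (star w₀) = x := by
    intro x
    rw [star_star]
    calc star w₀ * (w₀ * x * star w₀) * w₀ = (star w₀ * w₀) * x * (star w₀ * w₀) := by
          simp only [mul_assoc]
      _ = x := by rw [Unitary.star_mul_self_of_mem hw₀', one_mul, mul_one]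
  have e2 : w₀ * w * u * star (w₀ * w) = w₀ * (w * u * star w) * star w₀ := by
    rw [star_mul]
    simp only [mul_assoc]
  rw [e2, e1, e1] at h2
  exact h2

/-- Step (ii): powers. -/
theorem O4_pow (h : IsII1 τ) {u w : N} (hu : u ∈ Haar τ) (hw : w ∈ unitary N) {m : ℕ}
    (hp : Path τ U m u (w * u * star w)) (j : ℕ) :
    Path τ U (j * (m + 1)) u (w ^ j * u * star (w ^ j)) := by
  induction j with
  | zero =>
    rw [pow_zero, star_one, one_mul, mul_one]
    exact path_refl hu _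
  | succ j ih =>
    have h2 := path_trans ih (path_conj h (pow_mem hw j) hp)
    have e : w ^ j * (w * u * star w) * star (w ^ j) = w ^ (j + 1) * u * star (w ^ (j + 1)) := by
      rw [pow_succ, star_mul]
      simp only [mul_assoc]
    rw [e] at h2
    have e' : j * (m + 1) + m + 1 = (j + 1) * (m + 1) := by ring
    rw [← e']
    exact h2

/-- Step (ii): conjugations by exponentials have bounded path length. -/
theorem O4_exp (h : IsII1 τ) {u : N} (hu : u ∈ Haar τ) {m : ℕ} {r : ℝ} (hr : 0 < r)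
    (hp : ∀ w ∈ unitary N, n2 τ (w - 1) < r → Path τ U m u (w * u * star w)) :
    ∃ L : ℕ, ∀ y : N, star y = -y → ‖y‖ ≤ 7 →
      Path τ U L u (NormedSpace.exp y * u * star (NormedSpace.exp y)) := by
  obtain ⟨k, hk⟩ := exists_nat_gt (7 / r)
  have hk0 : (0 : ℝ) < k := lt_trans (by positivity) hk
  have hk7 : 7 < k * r := by
    rw [div_lt_iff₀ hr] at hk
    exact hk
  refine ⟨k * (m + 1), fun y hy hy7 => ?_⟩
  have hkC : (k : ℂ) ≠ 0 := by
    intro h0
    rw [Nat.cast_eq_zero] at h0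
    rw [h0, Nat.cast_zero] at hk0
    exact lt_irrefl _ hk0
  have hs : star ((k : ℂ)⁻¹ • y) = -((k : ℂ)⁻¹ • y) := by
    rw [star_smul, hy, smul_neg]
    congr 2
    simp
  have hu1 : NormedSpace.exp ((k : ℂ)⁻¹ • y) ∈ unitary N := exp_skew_unitary hs
  have hpow : NormedSpace.exp ((k : ℂ)⁻¹ • y) ^ k = NormedSpace.exp y := by
    let _ : NormedAlgebra ℚ N := NormedAlgebra.restrictScalars ℚ ℂ N
    rw [← NormedSpace.exp_nsmul, ← Nat.cast_smul_eq_nsmul ℂ, smul_smul, mul_inv_cancel₀ hkC,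
      one_smul]
  have hn : n2 τ (NormedSpace.exp ((k : ℂ)⁻¹ • y) - 1) < r := by
    have h1 := exp_lip h hs (z := 0) (by rw [star_zero, neg_zero])
    rw [NormedSpace.exp_zero, sub_zero, n2_smul h, norm_inv, Complex.norm_natCast] at h1
    have h2 : (k : ℝ)⁻¹ * n2 τ y ≤ (k : ℝ)⁻¹ * 7 :=
      mul_le_mul_of_nonneg_left ((n2_le_norm h y).trans hy7) (by positivity)
    have h3 : (k : ℝ)⁻¹ * 7 < r := by
      rw [inv_mul_lt_iff₀ hk0]
      exact hk7
    linarith
  have h4 := O4_pow h hu hu1 (hp _ hu1 hn) k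
  rw [hpow] at h4
  exact h4

theorem uniform_length (h : IsII1 τ) (hU : (U : Filter ℕ) ≤ cofinite) (hO : IsOrb τ U O)
    (hinv : ∀ w ∈ unitary N, w ∈ Nz O) :
    ∃ n, ∀ u ∈ Haar τ, ∀ v ∈ Haar τ, Path τ U n u v := by
  obtain ⟨u, hu⟩ := orb_nonempty hO
  have hH := orb_haar hO hu
  obtain ⟨m, r, hr, hm⟩ := O4_near h hU hO hinv hu
  obtain ⟨L, hL⟩ := O4_exp h hH hr hm
  have hall : ∀ v ∈ Haar τ, Path τ U L u v := by
    intro v hv
    refine path_closed h hU L hH hv fun ε hε => ?_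
    obtain ⟨w, hw, hwl⟩ := haar_conj_dense h hH hv (ε / 2) (half_pos hε)
    obtain ⟨y, hy, hy7, hyl⟩ := unitary_exp h hw (ε / 4) (by positivity)
    refine ⟨u, _, hL y hy hy7, ?_, ?_⟩
    · rw [sub_self, n2_zero]
      exact hε
    · have h1 := n2_conj_sub h hH.1 hw (exp_skew_unitary hy)
      have h2 := n2_sub_le h v (w * u * star w)
        (NormedSpace.exp y * u * star (NormedSpace.exp y))
      rw [n2_sub_comm v (w * u * star w)] at h2
      linarith
  exact ⟨L + L + 1, fun v hv v' hv' => path_trans (path_symm (hall v hv)) (hall v' hv')⟩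

end SC
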