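import Pool.Agent.H77.SC.Df

/-!
# Ba1: the 2-norm of a tracial state

`tau_star`: `τ((x+1)*(x+1)) = τ(x*x) + τ(x*) + τ(x) + 1` is real, so `Im τ(x*) = -Im τ(x)`;
the same for `i x` gives `Re τ(x*) = Re τ(x)`.  `cs` is Cauchy-Schwarz for the positive
semidefinite form `(x, y) ↦ τ(x* y)`; `n2_star` is traciality.  (`InnerProductSpace.Core` or a
direct quadratic argument both work.)
-/

open Filter Topology

namespace SC

variable {N : Type*} [CStarAlgebra N] {τ : N →ₗ[ℂ] ℂ}

theorem n2_nonneg (x : N) : 0 ≤ n2 τ x := Real.sqrt_nonneg _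

theorem n2_sq (h : IsII1 τ) (x : N) : n2 τ x ^ 2 = (τ (star x * x)).re :=
  Real.sq_sqrt (h.nonneg x)

theorem tau_star (h : IsII1 τ) (x : N) : τ (star x) = starRingEnd ℂ (τ x) := by
  have h1 := h.real (x + 1)
  have h2 := h.real (Complex.I • x + 1)
  have hx := h.real x
  have e1 : star (x + 1) * (x + 1) = star x * x + star x + x + 1 := by
    rw [star_add, star_one]; noncomm_ring
  have e2 : star (Complex.I • x + 1) * (Complex.I • x + 1)
      = star x * x + ((-Complex.I) • star x) + Complex.I • x + 1 := by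
    rw [star_add, star_one, star_smul, mul_add, add_mul, add_mul, smul_mul_smul_comm]
    have : star Complex.I * Complex.I = 1 := by
      rw [Complex.star_def, Complex.conj_I]; simp
    rw [this, one_smul, mul_one, one_mul, mul_one, Complex.star_def, Complex.conj_I]
    abel
  rw [e1] at h1
  rw [e2] at h2
  simp only [map_add, map_smul, h.map_one, Complex.add_im, Complex.one_im, smul_eq_mul,
    Complex.mul_im, Complex.neg_re, Complex.neg_im, Complex.I_re, Complex.I_im] at h1 h2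
  apply Complex.ext
  · rw [Complex.conj_re]; linarith
  · rw [Complex.conj_im]; linarith

theorem n2_star (h : IsII1 τ) (x : N) : n2 τ (star x) = n2 τ x := by
  rw [n2, n2, star_star, h.tracial]

theorem cs (h : IsII1 τ) (x y : N) : ‖τ (star x * y)‖ ≤ n2 τ x * n2 τ y := by
  have hsq : ∀ z : N, (τ (star z * z)) = ((n2 τ z ^ 2 : ℝ) : ℂ) := by
    intro z
    apply Complex.ext
    · rw [Complex.ofReal_re, n2_sq h]
    · rw [Complex.ofReal_im, h.real]
  set b : ℂ := τ (star x * y) with hb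
  have hb' : τ (star y * x) = starRingEnd ℂ b := by
    rw [hb, ← tau_star h, star_mul, star_star]
  -- the quadratic form of `x - t • y`
  have key : ∀ t : ℂ, 0 ≤ n2 τ x ^ 2 - 2 * (t * b).re + ‖t‖ ^ 2 * n2 τ y ^ 2 := by
    intro t
    have h0 := h.nonneg (x - t • y)
    have e : star (x - t • y) * (x - t • y)
        = star x * x - t • (star x * y) - (starRingEnd ℂ t) • (star y * x)
          + (starRingEnd ℂ t * t) • (star y * y) := by
      rw [star_sub, star_smul, sub_mul, mul_sub, mul_sub, mul_smul_comm, smul_mul_assoc,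
        smul_mul_smul_comm, Complex.star_def]
      abel
    rw [e] at h0
    simp only [map_add, map_sub, map_smul, smul_eq_mul] at h0
    rw [hsq x, hsq y, hb', ← hb] at h0
    have e3 : starRingEnd ℂ t * t = ((‖t‖ ^ 2 : ℝ) : ℂ) := by
      rw [mul_comm, Complex.mul_conj, Complex.normSq_eq_norm_sq]
    rw [e3] at h0
    have e4 : (starRingEnd ℂ t * starRingEnd ℂ b).re = (t * b).re := by
      rw [← map_mul, Complex.conj_re]
    rw [Complex.add_re, Complex.sub_re, Complex.sub_re, e4, ← Complex.ofReal_mul,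
      Complex.ofReal_re, Complex.ofReal_re] at h0
    linarith
  have hnx := n2_nonneg (τ := τ) x
  have hny := n2_nonneg (τ := τ) y
  by_cases hy : n2 τ y = 0
  · -- then `b = 0`
    have hb0 : ‖b‖ ^ 2 ≤ 0 := by
      by_contra hc
      push Not at hc
      have h1 := key ((((n2 τ x ^ 2 + 1) / ‖b‖ ^ 2 : ℝ) : ℂ) * starRingEnd ℂ b)
      rw [hy] at h1
      have e5 : ((((n2 τ x ^ 2 + 1) / ‖b‖ ^ 2 : ℝ) : ℂ) * starRingEnd ℂ b * b).re
          = n2 τ x ^ 2 + 1 := by
        have : starRingEnd ℂ b * b = ((‖b‖ ^ 2 : ℝ) : ℂ) := by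
          rw [mul_comm, Complex.mul_conj, Complex.normSq_eq_norm_sq]
        rw [mul_assoc, this, ← Complex.ofReal_mul, Complex.ofReal_re]
        exact div_mul_cancel₀ _ (ne_of_gt hc)
      rw [e5] at h1
      nlinarith [sq_nonneg (n2 τ x)]
    have : ‖b‖ = 0 := by
      have := sq_nonneg ‖b‖
      exact pow_eq_zero_iff (two_ne_zero) |>.1 (le_antisymm hb0 this)
    rw [this]
    positivity
  · have hy' : 0 < n2 τ y := lt_of_le_of_ne hny (Ne.symm hy)
    have h1 := key ((((1 / n2 τ y ^ 2) : ℝ) : ℂ) * starRingEnd ℂ b)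
    have e5 : ((((1 / n2 τ y ^ 2) : ℝ) : ℂ) * starRingEnd ℂ b * b).re
        = ‖b‖ ^ 2 / n2 τ y ^ 2 := by
      have : starRingEnd ℂ b * b = ((‖b‖ ^ 2 : ℝ) : ℂ) := by
        rw [mul_comm, Complex.mul_conj, Complex.normSq_eq_norm_sq]
      rw [mul_assoc, this, ← Complex.ofReal_mul, Complex.ofReal_re]
      ring
    have e6 : ‖(((1 / n2 τ y ^ 2) : ℝ) : ℂ) * starRingEnd ℂ b‖ ^ 2 * n2 τ y ^ 2
        = ‖b‖ ^ 2 / n2 τ y ^ 2 := by
      rw [norm_mul, Complex.norm_real, RCLike.norm_conj, mul_pow, Real.norm_eq_abs, sq_abs]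
      field_simp
    rw [e5, e6] at h1
    have h2 : ‖b‖ ^ 2 / n2 τ y ^ 2 ≤ n2 τ x ^ 2 := by linarith
    rw [div_le_iff₀ (by positivity)] at h2
    have h3 : ‖b‖ ^ 2 ≤ (n2 τ x * n2 τ y) ^ 2 := by rw [mul_pow]; exact h2
    exact le_of_sq_le_sq h3 (by positivity)

theorem n2_add_le (h : IsII1 τ) (x y : N) : n2 τ (x + y) ≤ n2 τ x + n2 τ y := by
  have h1 : n2 τ (x + y) ^ 2 = n2 τ x ^ 2 + 2 * (τ (star x * y)).re + n2 τ y ^ 2 := by
    rw [n2_sq h, n2_sq h, n2_sq h]
    have e : star (x + y) * (x + y) = star x * x + star x * y + star y * x + star y * y := by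
      rw [star_add]; noncomm_ring
    have e2 : τ (star y * x) = starRingEnd ℂ (τ (star x * y)) := by
      rw [← tau_star h, star_mul, star_star]
    rw [e, map_add, map_add, map_add, e2, Complex.add_re, Complex.add_re, Complex.add_re,
      Complex.conj_re]
    ring
  have h2 : (τ (star x * y)).re ≤ n2 τ x * n2 τ y :=
    (Complex.re_le_norm _).trans (cs h x y)
  have hnx := n2_nonneg (τ := τ) x
  have hny := n2_nonneg (τ := τ) y
  have h3 : n2 τ (x + y) ^ 2 ≤ (n2 τ x + n2 τ y) ^ 2 := by rw [h1]; nlinarith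
  exact le_of_sq_le_sq h3 (by positivity)

theorem n2_smul (h : IsII1 τ) (c : ℂ) (x : N) : n2 τ (c • x) = ‖c‖ * n2 τ x := by
  have h1 : n2 τ (c • x) ^ 2 = (‖c‖ * n2 τ x) ^ 2 := by
    rw [mul_pow, n2_sq h, n2_sq h, star_smul, smul_mul_smul_comm, map_smul, smul_eq_mul,
      Complex.star_def]
    have e3 : starRingEnd ℂ c * c = ((‖c‖ ^ 2 : ℝ) : ℂ) := by
      rw [mul_comm, Complex.mul_conj, Complex.normSq_eq_norm_sq]
    rw [e3, Complex.re_ofReal_mul]
  have h2 := n2_nonneg (τ := τ) (c • x)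
  have h3 : 0 ≤ ‖c‖ * n2 τ x := mul_nonneg (norm_nonneg _) (n2_nonneg x)
  nlinarith [abs_eq_abs.1 ((sq_eq_sq_iff_abs_eq_abs _ _).1 h1)]

theorem n2_zero : n2 τ (0 : N) = 0 := by
  rw [n2, mul_zero, map_zero, Complex.zero_re, Real.sqrt_zero]

theorem n2_neg (x : N) : n2 τ (-x) = n2 τ x := by
  rw [n2, n2, star_neg, neg_mul_neg]

theorem n2_sub_comm (x y : N) : n2 τ (x - y) = n2 τ (y - x) := by
  rw [← neg_sub, n2_neg]

theorem n2_sub_le (h : IsII1 τ) (x y z : N) : n2 τ (x - z) ≤ n2 τ (x - y) + n2 τ (y - z) := by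
  have e : x - z = (x - y) + (y - z) := by abel
  rw [e]
  exact n2_add_le h _ _

theorem n2_eq_zero (h : IsII1 τ) {x : N} (hx : n2 τ x = 0) : x = 0 := by
  apply h.faithful
  have h1 := n2_sq h x
  rw [hx] at h1
  apply Complex.ext
  · rw [← h1, Complex.zero_re]; norm_num
  · rw [h.real, Complex.zero_im]

theorem parallelogram (h : IsII1 τ) (x y : N) :
    n2 τ (x + y) ^ 2 + n2 τ (x - y) ^ 2 = 2 * n2 τ x ^ 2 + 2 * n2 τ y ^ 2 := by
  rw [n2_sq h, n2_sq h, n2_sq h, n2_sq h]
  have e : star (x + y) * (x + y) + star (x - y) * (x - y)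
      = star x * x + star x * x + (star y * y + star y * y) := by
    rw [star_add, star_sub]; noncomm_ring
  have e1 : τ (star (x + y) * (x + y)) + τ (star (x - y) * (x - y))
      = τ (star x * x) + τ (star x * x) + (τ (star y * y) + τ (star y * y)) := by
    rw [← map_add, e, map_add, map_add, map_add]
  have e2 := congrArg Complex.re e1
  simp only [Complex.add_re] at e2
  linarith

end SC
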