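import Pool.Agent.H77.SC.Ba1

/-!
# Ba2: the 2-norm and the operator norm

`n2_mul_le`: `‖x‖² - x* x` is positive, so it is `z* z` for some `z` (C*-algebra, e.g.
`CStarAlgebra.star_mul_le_algebraMap_norm_sq` / `CStarAlgebra.nonneg_iff_eq_star_mul_self` with
`attribute [local instance] CStarAlgebra.spectralOrder CStarAlgebra.spectralOrderedRing`), and
`y* (‖x‖² - x* x) y = (z y)* (z y)` has trace `≥ 0`.  `n2_mul_le'` follows with `n2_star`.
`n2_le_norm` is `n2_mul_le` with `y = 1` (`n2 1 = 1`).  `tau_le_n2` is `cs` with `x = 1`.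
-/

open Filter Topology

namespace SC

variable {N : Type*} [CStarAlgebra N] {τ : N →ₗ[ℂ] ℂ}

theorem nontriv (h : IsII1 τ) : Nontrivial N := by
  rcases subsingleton_or_nontrivial N with hs | hn
  · exfalso
    have h1 := h.map_one
    rw [Subsingleton.elim (1 : N) 0, map_zero] at h1
    exact zero_ne_one h1
  · exact hn

theorem norm_unitary_le {u : N} (hu : u ∈ unitary N) : ‖u‖ ≤ 1 := by
  rcases subsingleton_or_nontrivial N with hs | hn
  · rw [Subsingleton.elim u 0, norm_zero]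
    exact zero_le_one
  · exact (CStarRing.norm_of_mem_unitary hu).le

theorem n2_one (h : IsII1 τ) : n2 τ (1 : N) = 1 := by
  rw [n2, star_one, mul_one, h.map_one, Complex.one_re, Real.sqrt_one]

theorem n2_unitary_left {u : N} (hu : u ∈ unitary N) (x : N) : n2 τ (u * x) = n2 τ x := by
  have e : star (u * x) * (u * x) = star x * x := by
    rw [star_mul, mul_assoc, ← mul_assoc (star u) u x, (Unitary.mem_iff.1 hu).1, one_mul]
  rw [n2, n2, e]

theorem n2_unitary_right (h : IsII1 τ) {u : N} (hu : u ∈ unitary N) (x : N) :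
    n2 τ (x * u) = n2 τ x := by
  have hu' : star u ∈ unitary N := by
    rw [Unitary.mem_iff, star_star]
    exact ⟨(Unitary.mem_iff.1 hu).2, (Unitary.mem_iff.1 hu).1⟩
  rw [← n2_star h (x * u), star_mul, n2_unitary_left hu', n2_star h]

section order

attribute [local instance] CStarAlgebra.spectralOrder CStarAlgebra.spectralOrderedRing

theorem exists_compl (x : N) : ∃ z : N, ((‖x‖ ^ 2 : ℝ) : ℂ) • (1 : N) - star x * x = star z * z := by
  have h1 : star x * x ≤ algebraMap ℝ N (‖x‖ ^ 2) := CStarAlgebra.star_mul_le_algebraMap_norm_sq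
  have h2 : 0 ≤ algebraMap ℝ N (‖x‖ ^ 2) - star x * x := sub_nonneg.2 h1
  obtain ⟨z, hz⟩ := CStarAlgebra.nonneg_iff_eq_star_mul_self.1 h2
  refine ⟨z, ?_⟩
  rw [← hz]
  congr 1
  rw [Algebra.algebraMap_eq_smul_one]
  exact Complex.coe_smul _ _

end order

theorem n2_mul_le (h : IsII1 τ) (x y : N) : n2 τ (x * y) ≤ ‖x‖ * n2 τ y := by
  obtain ⟨z, hz⟩ := exists_compl x
  have h1 := h.nonneg (z * y)
  have e : star (z * y) * (z * y) = ((‖x‖ ^ 2 : ℝ) : ℂ) • (star y * y) - star (x * y) * (x * y) := by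
    have e1 : star (z * y) * (z * y) = star y * (star z * z) * y := by
      rw [star_mul]; noncomm_ring
    rw [e1, ← hz, mul_sub, sub_mul, mul_smul_comm, mul_one, smul_mul_assoc, star_mul]
    noncomm_ring
  rw [e, map_sub, map_smul, smul_eq_mul, Complex.sub_re, Complex.re_ofReal_mul] at h1
  have h2 : n2 τ (x * y) ^ 2 ≤ (‖x‖ * n2 τ y) ^ 2 := by
    rw [mul_pow, n2_sq h, n2_sq h]
    linarith
  exact le_of_sq_le_sq h2 (mul_nonneg (norm_nonneg _) (n2_nonneg y))

theorem n2_mul_le' (h : IsII1 τ) (x y : N) : n2 τ (x * y) ≤ n2 τ x * ‖y‖ := by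
  rw [← n2_star h (x * y), star_mul, ← n2_star h x, ← norm_star y, mul_comm (n2 τ (star x))]
  exact n2_mul_le h _ _

theorem n2_le_norm (h : IsII1 τ) (x : N) : n2 τ x ≤ ‖x‖ := by
  have h1 := n2_mul_le h x 1
  rwa [mul_one, n2_one h, mul_one] at h1

theorem tau_le_n2 (h : IsII1 τ) (x : N) : ‖τ x‖ ≤ n2 τ x := by
  have h1 := cs h 1 x
  rwa [star_one, one_mul, n2_one h, one_mul] at h1

theorem tau_le_norm (h : IsII1 τ) (x : N) : ‖τ x‖ ≤ ‖x‖ :=
  (tau_le_n2 h x).trans (n2_le_norm h x)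

/-- `τ` of a positive element is `≥ 0`. -/
theorem tau_star_mul (h : IsII1 τ) (x : N) : 0 ≤ (τ (x * star x)).re := by
  have h1 := h.nonneg (star x)
  rwa [star_star] at h1

end SC
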