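import Pool.Agent.H77.SC.Av

/-!
# Bl2: a closed *-subalgebra containing `[N, u]` is everything

Call `c` good if `n c ∈ M` for all `n : N`.

* If `y ∈ M` then `c = y u - u y` is good:
  `n (y u - u y) = ((n y) u - u (n y)) - (n u - u n) y`, and both terms are in `M`.
* Suppose some `c ≠ 0` is good; put `a = c c*`, `τ(a) ≠ 0`.  For unitary `w` and `n : N`:
  `n (w a w*) = (n w c) (w c)*` is in `M` (`n w c ∈ M`, `w c ∈ M`, `M` is a *-algebra).  So `n b ∈ M`
  for every `b` in the convex hull of the `w a w*` (convexity: induct with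
  `convexHull_min`, the set `{b | ∀ n, n b ∈ M}` is convex).  By `avg` and closedness
  (`n2 (n (b - τ(a))) ≤ ‖n‖ n2 (b - τ(a))`), `τ(a) • n ∈ M`, so `n ∈ M`.  Hence `M = ⊤`.
* Otherwise `y u = u y` for all `y ∈ M`.  Let `x : N`, `y = x u - u x ∈ M`, `y u = u y`.  By
  induction `x u^k = u^k x + k u^{k-1} y` (k ≥ 1), so `k ‖y‖₂ = ‖x u^k - u^k x‖₂ ≤ 2 ‖x‖₂` for all
  `k` (`n2_unitary_left`, `n2_unitary_right`), so `y = 0`.  So `u` is central, `u = c • 1`,
  `0 = τ(u) = c`, `u = 0`, contradicting `u* u = 1 ≠ 0` (`τ(1) = 1`).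
-/

open Filter Topology

namespace SC

variable {N : Type*} [CStarAlgebra N] {τ : N →ₗ[ℂ] ℂ}

theorem good_top (h : IsII1 τ) (M : StarSubalgebra ℂ N) (hM : Closed2 τ (M : Set N)) {c : N}
    (hc : c ≠ 0) (hg : ∀ n : N, n * c ∈ M) : M = ⊤ := by
  have ha : τ (c * star c) ≠ 0 := by
    rw [h.tracial]
    intro h0
    exact hc (h.faithful c h0)
  have hb : ∀ b ∈ convexHull ℝ {b : N | ∃ w ∈ unitary N, b = w * (c * star c) * star w},
      ∀ n : N, n * b ∈ M := by
    have hsub : convexHull ℝ {b : N | ∃ w ∈ unitary N, b = w * (c * star c) * star w} ⊆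
        {b : N | ∀ n : N, n * b ∈ M} := by
      apply convexHull_min
      · rintro b ⟨w, _, rfl⟩ n
        have e : n * (w * (c * star c) * star w) = ((n * w) * c) * star (w * c) := by
          rw [star_mul]
          simp only [mul_assoc]
        rw [e]
        exact mul_mem (hg _) (star_mem (hg w))
      · intro b1 h1 b2 h2 α β _ _ _ n
        rw [mul_add, mul_smul_comm, mul_smul_comm, ← Complex.coe_smul, ← Complex.coe_smul]
        exact add_mem (M.smul_mem (h1 n) _) (M.smul_mem (h2 n) _)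
    exact fun b hb => hsub hb
  have key : ∀ n : N, τ (c * star c) • n ∈ M := by
    intro n
    apply hM
    intro ε hε
    have hn : 0 < ‖n‖ + 1 := by positivity
    obtain ⟨b, hbh, hbe⟩ := avg h (c * star c) (ε / (‖n‖ + 1)) (by positivity)
    refine ⟨n * b, hb b hbh n, ?_⟩
    have e : τ (c * star c) • n - n * b = n * (τ (c * star c) • (1 : N) - b) := by
      rw [mul_sub, mul_smul_comm, mul_one]
    rw [e]
    have h1 := n2_mul_le h n (τ (c * star c) • (1 : N) - b)
    rw [n2_sub_comm] at h1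
    have h2 : ‖n‖ * n2 τ (b - τ (c * star c) • (1 : N)) ≤ ‖n‖ * (ε / (‖n‖ + 1)) :=
      mul_le_mul_of_nonneg_left hbe.le (norm_nonneg n)
    have h3 : ‖n‖ * (ε / (‖n‖ + 1)) < ε := by
      rw [mul_div_assoc', div_lt_iff₀ hn]
      nlinarith
    linarith
  rw [eq_top_iff]
  intro n _
  have h1 := M.smul_mem (key n) (τ (c * star c))⁻¹
  rw [smul_smul, inv_mul_cancel₀ ha, one_smul] at h1
  exact h1

theorem comm_pow {x y u : N} (hy : x * u = u * x + y) (hyu : y * u = u * y) (k : ℕ) :
    x * u ^ (k + 1) = u ^ (k + 1) * x + ((k : ℂ) + 1) • (u ^ k * y) := by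
  induction k with
  | zero => simp [hy]
  | succ k ih =>
    have e1 : x * u ^ (k + 1 + 1) = (x * u ^ (k + 1)) * u := by rw [pow_succ u (k + 1), mul_assoc]
    rw [e1, ih, add_mul, mul_assoc, hy, smul_mul_assoc, mul_assoc (u ^ k) y u, hyu, mul_add,
      ← mul_assoc (u ^ (k + 1)) u x, ← pow_succ, ← mul_assoc (u ^ k) u y, ← pow_succ, add_assoc]
    congr 1
    push_cast
    rw [add_smul ((k : ℂ) + 1) 1, one_smul, add_comm]

theorem ball_alg (h : IsII1 τ) (M : StarSubalgebra ℂ N) (hM : Closed2 τ (M : Set N)) (u : N)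
    (hu : u ∈ unitary N) (hu0 : τ u = 0) (huM : ∀ x : N, x * u - u * x ∈ M) : M = ⊤ := by
  by_contra hne
  have hcomm : ∀ y ∈ M, y * u = u * y := by
    intro y hy
    by_contra hc
    apply hne
    apply good_top h M hM (c := y * u - u * y) (sub_ne_zero.2 hc)
    intro n
    have e : n * (y * u - u * y) = ((n * y) * u - u * (n * y)) - (n * u - u * n) * y := by
      simp only [mul_sub, sub_mul, mul_assoc]
      abel
    rw [e]
    exact sub_mem (huM _) (mul_mem (huM _) hy)
  have hcent : ∀ x : N, u * x = x * u := by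
    intro x
    obtain ⟨y, hy⟩ : ∃ y, y = x * u - u * x := ⟨_, rfl⟩
    have hyM : y ∈ M := by
      rw [hy]
      exact huM x
    have hxy : x * u = u * x + y := by
      rw [hy]
      abel
    have hk : ∀ k : ℕ, ((k : ℝ) + 1) * n2 τ y ≤ 2 * n2 τ x := by
      intro k
      have h1 := comm_pow hxy (hcomm y hyM) k
      have h2 : ((k : ℂ) + 1) • (u ^ k * y) = x * u ^ (k + 1) - u ^ (k + 1) * x := by
        rw [h1]
        abel
      have hupow : ∀ j : ℕ, u ^ j ∈ unitary N := fun j => pow_mem hu j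
      have h3 : n2 τ (((k : ℂ) + 1) • (u ^ k * y)) = ((k : ℝ) + 1) * n2 τ y := by
        rw [n2_smul h, n2_unitary_left (hupow k)]
        congr 1
        have : ((k : ℂ) + 1) = (((k + 1 : ℕ) : ℝ) : ℂ) := by push_cast; ring
        rw [this, Complex.norm_real, Real.norm_of_nonneg (by positivity)]
        push_cast
        ring
      have h4 : n2 τ (x * u ^ (k + 1) - u ^ (k + 1) * x) ≤ 2 * n2 τ x := by
        rw [sub_eq_add_neg]
        refine (n2_add_le h _ _).trans ?_
        rw [n2_neg, n2_unitary_right h (hupow _), n2_unitary_left (hupow _)]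
        linarith
      rw [← h3, h2]
      exact h4
    have hy0 : n2 τ y = 0 := by
      by_contra hpos
      have hpos' : 0 < n2 τ y := lt_of_le_of_ne (n2_nonneg y) (Ne.symm hpos)
      obtain ⟨k, hk'⟩ := exists_nat_gt (2 * n2 τ x / n2 τ y)
      rw [div_lt_iff₀ hpos'] at hk'
      have := hk k
      nlinarith
    have hy1 := n2_eq_zero h hy0
    rw [hy1] at hxy
    rw [hxy, add_zero]
  obtain ⟨c, hc⟩ := h.factor u hcent
  rw [hc, map_smul, h.map_one, smul_eq_mul, mul_one] at hu0
  rw [hu0, zero_smul] at hc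
  have h1 : star u * u = 1 := Unitary.star_mul_self_of_mem hu
  rw [hc, mul_zero] at h1
  have h2 := h.map_one
  rw [← h1, map_zero] at h2
  exact zero_ne_one h2

end SC
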