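import Pool.Agent.H77.SC.Bl1
import Pool.Agent.H77.SC.Bl2

/-!
# Bl: a somewhere dense set of Haar unitaries generates `N`

Let `M` be a 2-norm closed *-subalgebra containing `O`.  By `SomewhereDense` there are a Haar
unitary `v` and `r > 0` such that every Haar unitary `v'` with `‖v' - v‖₂ < r` is a 2-norm limit of
elements of `O ⊆ M`, hence is in `M`.  `ball_deriv` (with `M.toSubalgebra.toSubmodule`) gives
`x v - v x ∈ M` for all `x`; `ball_alg` (`τ(v) = 0`) gives `M = ⊤`.
-/

open Filter Topology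

namespace SC

variable {N : Type*} [CStarAlgebra N] {τ : N →ₗ[ℂ] ℂ}

theorem somewhere_gen (h : IsII1 τ) (O : Set N) (hs : SomewhereDense τ O) : Generates τ O := by
  obtain ⟨v, hv, r, hr, hb⟩ := hs
  intro M hM hO
  have hball : ∀ v' ∈ Haar τ, n2 τ (v' - v) < r → v' ∈ M.toSubalgebra.toSubmodule := by
    intro v' hv' hlt
    have h1 : v' ∈ (M : Set N) := hM v' fun ε hε => by
      obtain ⟨u, hu, hlt2⟩ := hb v' hv' hlt ε hε
      exact ⟨u, hO hu, hlt2⟩
    exact h1
  have hd := fun x => ball_deriv h M.toSubalgebra.toSubmodule hM v hv r hr hball x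
  have hv0 : τ v = 0 := by simpa using hv.2 1 le_rfl
  exact ball_alg h M hM v hv.1 hv0 hd

end SC
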