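import Pool.Agent.H77.SC.U1

/-!
# Bl1: a closed subspace containing a ball of Haar unitaries around `u` contains `[N, u]`

First `x` with `x* = -x`: for real `t`, `e^{tx}` is unitary and `v_t = e^{tx} u e^{-tx}` is a Haar
unitary (`haar_conj`) with `‖v_t - u‖₂ ≤ ‖v_t - u‖ → 0` as `t → 0`; so `v_t ∈ M` for small `t` and
`u ∈ M` (take `v = u`).  `(v_t - u)/t → x u - u x` in norm (derivative of `t ↦ e^{tx} u e^{-tx}` at
`0`), hence in the 2-norm (`n2_le_norm`), and `M` is closed in the 2-norm.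
General `x`: `x = (x - x*)/2 + (-i) • (i (x + x*)/2)` and `M` is a complex subspace.
-/

open Filter Topology

namespace SC

variable {N : Type*} [CStarAlgebra N] {τ : N →ₗ[ℂ] ℂ}

theorem exp_unitary_aux {x : N} (hx : star x = -x) (t : ℝ) :
    NormedSpace.exp (t • x) ∈ unitary N ∧
      star (NormedSpace.exp (t • x)) = NormedSpace.exp (-(t • x)) := by
  letI : NormedAlgebra ℚ N := NormedAlgebra.restrictScalars ℚ ℂ N
  have hs : star (t • x) = -(t • x) := by
    rw [star_smul, hx]
    simp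
  have h1 : star (NormedSpace.exp (t • x)) = NormedSpace.exp (-(t • x)) := by
    rw [NormedSpace.star_exp, hs]
  have hc : Commute (t • x) (-(t • x)) := (Commute.refl _).neg_right
  have h2 : NormedSpace.exp (t • x) * NormedSpace.exp (-(t • x)) = 1 := by
    rw [← NormedSpace.exp_add_of_commute hc, add_neg_cancel, NormedSpace.exp_zero]
  have h3 : NormedSpace.exp (-(t • x)) * NormedSpace.exp (t • x) = 1 := by
    rw [← NormedSpace.exp_add_of_commute hc.symm, neg_add_cancel, NormedSpace.exp_zero]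
  refine ⟨Unitary.mem_iff.2 ⟨?_, ?_⟩, h1⟩
  · rw [h1, h3]
  · rw [h1, h2]

theorem ball_deriv_skew (h : IsII1 τ) (M : Submodule ℂ N) (hM : Closed2 τ (M : Set N)) (u : N)
    (hu : u ∈ Haar τ) (r : ℝ) (hr : 0 < r)
    (hb : ∀ v ∈ Haar τ, n2 τ (v - u) < r → v ∈ M) (x : N) (hx : star x = -x) :
    x * u - u * x ∈ M := by
  have huM : u ∈ M := hb u hu (by rw [sub_self, n2_zero]; exact hr)
  set f : ℝ → N := fun t => NormedSpace.exp (t • x) * u * NormedSpace.exp (-(t • x)) with hf
  have hf0 : f 0 = u := by simp [hf]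
  have hfd : HasDerivAt f (x * u - u * x) 0 := by
    have h1 := hasDerivAt_exp_smul_const x (0:ℝ)
    have h2 := hasDerivAt_exp_smul_const (-x) (0:ℝ)
    simp only [zero_smul, NormedSpace.exp_zero, one_mul] at h1 h2
    have h3 := (h1.mul_const u).mul h2
    simp only [zero_smul, NormedSpace.exp_zero, one_mul, mul_one, mul_neg] at h3
    have h4 : f = fun t : ℝ => NormedSpace.exp (t • x) * u * NormedSpace.exp (t • -x) := by
      funext t; simp only [hf, smul_neg]
    rw [h4, sub_eq_add_neg]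
    exact h3
  have hft : ∀ t : ℝ, f t ∈ Haar τ := by
    intro t
    obtain ⟨hw, hs⟩ := exp_unitary_aux hx t
    have := haar_conj h hu hw
    rw [hs] at this
    exact this
  have hsl := hasDerivAt_iff_tendsto_slope_zero.1 hfd
  have hcont : Tendsto f (𝓝[≠] 0) (𝓝 u) := by
    have := hfd.continuousAt.tendsto
    rw [hf0] at this
    exact this.mono_left nhdsWithin_le_nhds
  apply hM
  intro ε hε
  have e1 : ∀ᶠ t in 𝓝[≠] (0:ℝ), ‖f t - u‖ < r := by
    have := (tendsto_iff_norm_sub_tendsto_zero.1 hcont).eventually (gt_mem_nhds hr)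
    exact this
  have e2 : ∀ᶠ t in 𝓝[≠] (0:ℝ), ‖t⁻¹ • (f (0 + t) - f 0) - (x * u - u * x)‖ < ε :=
    (tendsto_iff_norm_sub_tendsto_zero.1 hsl).eventually (gt_mem_nhds hε)
  obtain ⟨t, h1, h2⟩ := (e1.and e2).exists
  refine ⟨t⁻¹ • (f (0 + t) - f 0), ?_, ?_⟩
  · have hm : f t - u ∈ M := M.sub_mem (hb _ (hft t) (lt_of_le_of_lt (n2_le_norm h _) h1)) huM
    have := M.smul_mem ((t⁻¹ : ℝ) : ℂ) hm
    rw [zero_add, hf0]
    have hcast : ((t⁻¹ : ℝ) : ℂ) • (f t - u) = t⁻¹ • (f t - u) := Complex.coe_smul _ _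
    rw [hcast] at this
    exact this
  · refine lt_of_le_of_lt ?_ h2
    rw [n2_sub_comm]
    exact n2_le_norm h _

theorem ball_deriv (h : IsII1 τ) (M : Submodule ℂ N) (hM : Closed2 τ (M : Set N)) (u : N)
    (hu : u ∈ Haar τ) (r : ℝ) (hr : 0 < r)
    (hb : ∀ v ∈ Haar τ, n2 τ (v - u) < r → v ∈ M) (x : N) : x * u - u * x ∈ M := by
  have ha := ball_deriv_skew h M hM u hu r hr hb (x - star x) (by
    rw [star_sub, star_star, neg_sub])
  have hb' := ball_deriv_skew h M hM u hu r hr hb (Complex.I • (x + star x)) (by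
    rw [star_smul, star_add, star_star, Complex.star_def, Complex.conj_I, neg_smul, add_comm])
  have e : x * u - u * x = (1 / 2 : ℂ) • ((x - star x) * u - u * (x - star x)) +
      (-(Complex.I / 2)) • ((Complex.I • (x + star x)) * u - u * (Complex.I • (x + star x))) := by
    have hI : -(Complex.I / 2) * Complex.I = 1 / 2 := by
      have := Complex.I_mul_I
      linear_combination (-1 / 2 : ℂ) * this
    rw [smul_mul_assoc, mul_smul_comm, ← smul_sub, smul_smul, hI, ← smul_add]
    have e2 : (x - star x) * u - u * (x - star x) + ((x + star x) * u - u * (x + star x)) =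
        (2 : ℂ) • (x * u - u * x) := by
      rw [two_smul]
      noncomm_ring
    rw [e2, smul_smul]
    norm_num
  rw [e]
  exact M.add_mem (M.smul_mem _ ha) (M.smul_mem _ hb')

end SC
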