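import Pool.Agent.H77.SC.Ba2

/-!
# Cp1: a partial isometry under a nonzero element

Let `a = y* y ≥ 0`, `a ≠ 0`, and for `k : ℕ`, `s_k = 1/(k+1)`,
`f_k(t) = (t + s_k)^{-1/2}`, `g_k(t) = t/(t + s_k)` (continuous on `[0, ∞)`; real `cfc` of the
positive element `a`), `v_k = y f_k(a)`.  Then `v_k* v_k = g_k(a)`, `‖v_k‖ ≤ 1`.
For `k ≤ l`: `f_k ≤ f_l`, and `t (f_l(t) - f_k(t))² ≤ t f_l(t)² - t f_k(t)² = g_l(t) - g_k(t)`, so
`‖v_l - v_k‖₂² ≤ τ(g_l(a)) - τ(g_k(a))`; the sequence `τ(g_k(a))` is nondecreasing and `≤ 1`, so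
`(v_k)` is Cauchy in the 2-norm; let `v` be its limit (`IsII1.complete`), `‖v‖ ≤ 1`.
`P = v* v` is the 2-norm limit of `g_k(a)` (bounded, `n2_mul_le`).
`‖a - a g_k(a)‖ ≤ s_k`, so `a P = a`; so `v ≠ 0`.  `g_k(a) = (a + s_k)^{-1} a`, so
`g_k(a) P = g_k(a)` and in the limit `P P = P`.
If `f y = y` then `f v_k = v_k`, so `f v = v`.  If `e* = e` and `y e = y`, then `a e = a = e a`, so
`e` commutes with `f_k(a)` (`Commute.cfc_real` or similar), and
`v_k e = y f_k(a) e = y e f_k(a) = v_k`; so `v e = v`.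
-/

open Filter Topology

namespace SC

variable {N : Type*} [CStarAlgebra N] {τ : N →ₗ[ℂ] ℂ}

section order

attribute [local instance] CStarAlgebra.spectralOrder CStarAlgebra.spectralOrderedRing

private theorem spec_nonneg_Cp1 (y : N) : ∀ t ∈ spectrum ℝ (star y * y), 0 ≤ t := by
  intro t ht
  exact spectrum_nonneg_of_nonneg (star_mul_self_nonneg y) ht

private theorem tau_cfc_nonneg (h : IsII1 τ) (a : N) (f : ℝ → ℝ) (hf : ∀ t ∈ spectrum ℝ a, 0 ≤ f t) :
    0 ≤ (τ (cfc f a)).re := by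
  have h1 : 0 ≤ cfc f a := cfc_nonneg hf
  obtain ⟨z, hz⟩ := CStarAlgebra.nonneg_iff_eq_star_mul_self.1 h1
  rw [hz]
  exact h.nonneg z

end order

private theorem tau_cfc_mono (h : IsII1 τ) (a : N) (f g : ℝ → ℝ) (hf : ContinuousOn f (spectrum ℝ a))
    (hg : ContinuousOn g (spectrum ℝ a)) (hfg : ∀ t ∈ spectrum ℝ a, f t ≤ g t) :
    (τ (cfc f a)).re ≤ (τ (cfc g a)).re := by
  have h1 := tau_cfc_nonneg h a (fun t => g t - f t) (fun t ht => sub_nonneg.2 (hfg t ht))
  rw [cfc_sub g f a, map_sub, Complex.sub_re] at h1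
  linarith

private theorem star_mul_cfc (y : N) (p q : ℝ → ℝ) (hp : ContinuousOn p (spectrum ℝ (star y * y)))
    (hq : ContinuousOn q (spectrum ℝ (star y * y))) :
    star (y * cfc p (star y * y)) * (y * cfc q (star y * y)) =
      cfc (fun t => p t * t * q t) (star y * y) := by
  have ha : IsSelfAdjoint (star y * y) := IsSelfAdjoint.star_mul_self y
  have hps : star (cfc p (star y * y)) = cfc p (star y * y) :=
    (cfc_predicate (R := ℝ) p (star y * y) : IsSelfAdjoint _).star_eq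
  have e1 : cfc (fun t => p t * t * q t) (star y * y) =
      cfc p (star y * y) * (star y * y) * cfc q (star y * y) := by
    rw [cfc_mul (fun t => p t * t) q (star y * y) (hp.mul continuousOn_id) hq,
      cfc_mul p (fun t => t) (star y * y) hp continuousOn_id, cfc_id' ℝ (star y * y) ha]
  rw [e1, star_mul, hps]
  noncomm_ring

private theorem eq_zero_of_le (h : IsII1 τ) (x : N) (C : ℝ) (d : ℕ → ℝ)
    (hd : Tendsto d atTop (𝓝 0)) (hx : ∀ k, n2 τ x ≤ C * d k) : x = 0 := by
  apply n2_eq_zero h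
  have h1 : Tendsto (fun k => C * d k) atTop (𝓝 (C * 0)) := hd.const_mul C
  rw [mul_zero] at h1
  exact le_antisymm (ge_of_tendsto' h1 hx) (n2_nonneg x)

theorem polar (h : IsII1 τ) (y : N) (hy : y ≠ 0) :
    ∃ v : N, v ≠ 0 ∧ star v * v * (star v * v) = star v * v ∧ (∀ f : N, f * y = y → f * v = v) ∧
      ∀ e : N, star e = e → y * e = y → v * e = v := by
  set a := star y * y with ha_def
  have ha : IsSelfAdjoint a := IsSelfAdjoint.star_mul_self y
  have hsp : ∀ t ∈ spectrum ℝ a, 0 ≤ t := spec_nonneg_Cp1 y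
  obtain ⟨s, hs⟩ : ∃ s : ℕ → ℝ, s = fun k : ℕ => 1 / ((k : ℝ) + 1) := ⟨_, rfl⟩
  have hs0 : ∀ k, 0 < s k := by
    intro k
    rw [hs]
    positivity
  have hsanti : ∀ k l, k ≤ l → s l ≤ s k := by
    intro k l hkl
    rw [hs]
    exact one_div_le_one_div_of_le (by positivity) (by exact_mod_cast Nat.succ_le_succ hkl)
  have hslim : Tendsto s atTop (𝓝 0) := by
    rw [hs]
    exact tendsto_one_div_add_atTop_nhds_zero_nat
  obtain ⟨F, hF⟩ : ∃ F : ℕ → ℝ → ℝ, F = fun k t => (Real.sqrt (t + s k))⁻¹ := ⟨_, rfl⟩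
  obtain ⟨G, hG⟩ : ∃ G : ℕ → ℝ → ℝ, G = fun k t => t * (t + s k)⁻¹ := ⟨_, rfl⟩
  have hFc : ∀ k, ContinuousOn (F k) (spectrum ℝ a) := by
    intro k
    rw [hF]
    refine ContinuousOn.inv₀ (by fun_prop) ?_
    intro t ht
    exact (Real.sqrt_pos.2 (add_pos_of_nonneg_of_pos (hsp t ht) (hs0 k))).ne'
  have hGi : ∀ k, ContinuousOn (fun t => (t + s k)⁻¹) (spectrum ℝ a) := by
    intro k
    refine ContinuousOn.inv₀ (by fun_prop) ?_
    intro t ht
    exact (add_pos_of_nonneg_of_pos (hsp t ht) (hs0 k)).ne'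
  have hGc : ∀ k, ContinuousOn (G k) (spectrum ℝ a) := by
    intro k
    rw [hG]
    exact continuousOn_id.mul (hGi k)
  have hF0 : ∀ k, ∀ t ∈ spectrum ℝ a, 0 ≤ F k t := by
    intro k t ht
    rw [hF]
    positivity
  have hFG : ∀ k, ∀ t ∈ spectrum ℝ a, F k t * t * F k t = G k t := by
    intro k t ht
    have h1 : 0 ≤ t + s k := (add_pos_of_nonneg_of_pos (hsp t ht) (hs0 k)).le
    rw [hF, hG]
    show (Real.sqrt (t + s k))⁻¹ * t * (Real.sqrt (t + s k))⁻¹ = t * (t + s k)⁻¹
    have h2 : (Real.sqrt (t + s k))⁻¹ * (Real.sqrt (t + s k))⁻¹ = (t + s k)⁻¹ := by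
      rw [← mul_inv, Real.mul_self_sqrt h1]
    rw [← h2]
    ring
  have hFmono : ∀ k l, k ≤ l → ∀ t ∈ spectrum ℝ a, F k t ≤ F l t := by
    intro k l hkl t ht
    rw [hF]
    have h1 : 0 < t + s l := add_pos_of_nonneg_of_pos (hsp t ht) (hs0 l)
    exact inv_anti₀ (Real.sqrt_pos.2 h1) (Real.sqrt_le_sqrt (by linarith [hsanti k l hkl]))
  have hG1 : ∀ k, ∀ t ∈ spectrum ℝ a, 0 ≤ G k t ∧ G k t ≤ 1 := by
    intro k t ht
    have h0 := hsp t ht
    have h1 : 0 < t + s k := add_pos_of_nonneg_of_pos h0 (hs0 k)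
    rw [hG]
    refine ⟨by positivity, ?_⟩
    show t * (t + s k)⁻¹ ≤ 1
    rw [← div_eq_mul_inv, div_le_one h1]
    linarith [hs0 k]
  have hGmono : ∀ k l, k ≤ l → ∀ t ∈ spectrum ℝ a, G k t ≤ G l t := by
    intro k l hkl t ht
    rw [← hFG k t ht, ← hFG l t ht]
    have h1 := hFmono k l hkl t ht
    have h2 := hF0 k t ht
    have h3 := hsp t ht
    have h4 : F k t * F k t ≤ F l t * F l t := mul_le_mul h1 h1 h2 (h2.trans h1)
    nlinarith
  obtain ⟨v, hv⟩ : ∃ v : ℕ → N, v = fun k => y * cfc (F k) a := ⟨_, rfl⟩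
  have hvv : ∀ k, star (v k) * v k = cfc (G k) a := by
    intro k
    rw [hv]
    show star (y * cfc (F k) a) * (y * cfc (F k) a) = cfc (G k) a
    rw [star_mul_cfc y (F k) (F k) (hFc k) (hFc k)]
    exact cfc_congr (fun t ht => hFG k t ht)
  have hvn : ∀ k, ‖v k‖ ≤ 1 := by
    intro k
    have h1 : ‖star (v k) * v k‖ ≤ 1 := by
      rw [hvv k]
      refine norm_cfc_le zero_le_one ?_
      intro t ht
      rw [Real.norm_eq_abs, abs_of_nonneg (hG1 k t ht).1]
      exact (hG1 k t ht).2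
    rw [CStarRing.norm_star_mul_self] at h1
    nlinarith [norm_nonneg (v k)]
  obtain ⟨T, hT⟩ : ∃ T : ℕ → ℝ, T = fun k => (τ (cfc (G k) a)).re := ⟨_, rfl⟩
  have hTmono : Monotone T := by
    intro k l hkl
    rw [hT]
    exact tau_cfc_mono h a _ _ (hGc k) (hGc l) (hGmono k l hkl)
  have hT1 : ∀ k, T k ≤ 1 := by
    intro k
    have h1 := tau_cfc_mono h a (G k) (fun _ => 1) (hGc k) continuousOn_const
      (fun t ht => (hG1 k t ht).2)
    rw [cfc_const_one ℝ a, h.map_one, Complex.one_re] at h1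
    rw [hT]
    exact h1
  have hdiff : ∀ k l, k ≤ l → n2 τ (v l - v k) ^ 2 ≤ T l - T k := by
    intro k l hkl
    rw [n2_sq h]
    have e1 : v l - v k = y * cfc (fun t => F l t - F k t) a := by
      rw [hv, cfc_sub (F l) (F k) a (hFc l) (hFc k)]
      show y * cfc (F l) a - y * cfc (F k) a = _
      rw [mul_sub]
    have hc : ContinuousOn (fun t => F l t - F k t) (spectrum ℝ a) := (hFc l).sub (hFc k)
    rw [e1, star_mul_cfc y _ _ hc hc]
    have e2 : T l - T k = (τ (cfc (fun t => G l t - G k t) a)).re := by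
      rw [cfc_sub (G l) (G k) a (hGc l) (hGc k), map_sub, Complex.sub_re, hT]
    rw [e2]
    refine tau_cfc_mono h a _ _ ((hc.mul continuousOn_id).mul hc) ((hGc l).sub (hGc k)) ?_
    intro t ht
    rw [← hFG k t ht, ← hFG l t ht]
    have h1 := hFmono k l hkl t ht
    have h2 := hF0 k t ht
    have h3 := hsp t ht
    have h4 : 0 ≤ F k t * (F l t - F k t) := mul_nonneg h2 (by linarith)
    show (F l t - F k t) * t * (F l t - F k t) ≤ F l t * t * F l t - F k t * t * F k t
    nlinarith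
  have hTlim : ∃ L, Tendsto T atTop (𝓝 L) :=
    ⟨_, tendsto_atTop_ciSup hTmono ⟨1, by rintro _ ⟨k, rfl⟩; exact hT1 k⟩⟩
  obtain ⟨L, hL⟩ := hTlim
  have hTL : ∀ k, T k ≤ L := fun k => hTmono.ge_of_tendsto hL k
  obtain ⟨w, hw1, hw2⟩ := h.complete v hvn (by
    intro ε hε
    have h1 : ∀ᶠ k in atTop, L - ε ^ 2 < T k :=
      hL.eventually (lt_mem_nhds (by linarith [pow_pos hε 2]))
    obtain ⟨K, hK⟩ := eventually_atTop.1 h1
    have h2 : ∀ k ≥ K, ∀ l, k ≤ l → n2 τ (v l - v k) < ε := by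
      intro k hk l hkl
      have h3 := hdiff k l hkl
      have h4 := hK k hk
      have h5 := hTL l
      have h6 : n2 τ (v l - v k) ^ 2 < ε ^ 2 := by linarith
      exact lt_of_pow_lt_pow_left₀ 2 hε.le h6
    refine ⟨K, fun k hk l hl => ?_⟩
    rcases le_total k l with hkl | hkl
    · rw [n2_sub_comm]
      exact h2 k hk l hkl
    · exact h2 l hl k hkl)
  obtain ⟨d, hd⟩ : ∃ d : ℕ → ℝ, d = fun k => n2 τ (v k - w) := ⟨_, rfl⟩
  have hd0 : Tendsto d atTop (𝓝 0) := by rw [hd]; exact hw2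
  have hdk : ∀ k, n2 τ (v k - w) = d k := fun k => by rw [hd]
  have hdn : ∀ k, 0 ≤ d k := fun k => by rw [← hdk]; exact n2_nonneg _
  obtain ⟨P, hP⟩ : ∃ P : N, P = star w * w := ⟨_, rfl⟩
  have hGP : ∀ k, n2 τ (cfc (G k) a - P) ≤ 2 * d k := by
    intro k
    have e : cfc (G k) a - P = star (v k) * (v k - w) + star (v k - w) * w := by
      rw [← hvv k, hP, star_sub]
      noncomm_ring
    rw [e]
    refine (n2_add_le h _ _).trans ?_
    have h1 : n2 τ (star (v k) * (v k - w)) ≤ 1 * d k := by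
      rw [← hdk]
      refine (n2_mul_le h _ _).trans ?_
      rw [norm_star]
      exact mul_le_mul_of_nonneg_right (hvn k) (n2_nonneg _)
    have h2 : n2 τ (star (v k - w) * w) ≤ d k * 1 := by
      rw [← hdk]
      refine (n2_mul_le' h _ _).trans ?_
      rw [n2_star h]
      exact mul_le_mul_of_nonneg_left hw1 (n2_nonneg _)
    linarith
  have haP : a - a * P = 0 := by
    have hlim : Tendsto (fun k => s k + ‖a‖ * (2 * d k)) atTop (𝓝 0) := by
      have := hslim.add ((hd0.const_mul 2).const_mul ‖a‖)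
      simpa using this
    refine eq_zero_of_le h _ 1 _ hlim ?_
    intro k
    rw [one_mul]
    have e : a - a * P = (a - a * cfc (G k) a) + a * (cfc (G k) a - P) := by noncomm_ring
    rw [e]
    refine (n2_add_le h _ _).trans (add_le_add ?_ ?_)
    · refine (n2_le_norm h _).trans ?_
      have e1 : a - a * cfc (G k) a = cfc (fun t => t - t * G k t) a := by
        rw [cfc_sub (fun t => t) (fun t => t * G k t) a continuousOn_id (continuousOn_id.mul (hGc k)),
          cfc_mul (fun t => t) (G k) a continuousOn_id (hGc k), cfc_id' ℝ a ha]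
      rw [e1]
      refine norm_cfc_le (hs0 k).le ?_
      intro t ht
      have h0 := hsp t ht
      have h1 : 0 < t + s k := add_pos_of_nonneg_of_pos h0 (hs0 k)
      have e2 : t - t * G k t = s k * (t * (t + s k)⁻¹) := by
        rw [hG]
        field_simp
        ring
      have e3 : t * (t + s k)⁻¹ = G k t := by rw [hG]
      rw [e2, e3, Real.norm_eq_abs, abs_of_nonneg (mul_nonneg (hs0 k).le (hG1 k t ht).1)]
      nlinarith [(hG1 k t ht).2, hs0 k]
    · refine (n2_mul_le h _ _).trans ?_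
      exact mul_le_mul_of_nonneg_left (hGP k) (norm_nonneg _)
  have haP' : a * P = a := (sub_eq_zero.1 haP).symm
  have hGkP : ∀ k, cfc (G k) a * P = cfc (G k) a := by
    intro k
    have e1 : cfc (G k) a = cfc (fun t => (t + s k)⁻¹) a * a := by
      have e2 : cfc (G k) a = cfc (fun t => (t + s k)⁻¹ * t) a :=
        cfc_congr (fun t _ => by rw [hG]; exact mul_comm _ _)
      rw [e2, cfc_mul (fun t => (t + s k)⁻¹) (fun t => t) a (hGi k) continuousOn_id, cfc_id' ℝ a ha]
    rw [e1, mul_assoc, haP']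
  have hPP : P * P = P := by
    rw [← sub_eq_zero]
    refine eq_zero_of_le h _ (2 * ‖P‖ + 2) d hd0 ?_
    intro k
    have e : P * P - P = -((cfc (G k) a - P) * P) + (cfc (G k) a - P) := by
      rw [sub_mul, hGkP k]
      noncomm_ring
    rw [e]
    refine (n2_add_le h _ _).trans ?_
    rw [n2_neg]
    have h1 : n2 τ ((cfc (G k) a - P) * P) ≤ (2 * d k) * ‖P‖ :=
      (n2_mul_le' h _ _).trans (mul_le_mul_of_nonneg_right (hGP k) (norm_nonneg _))
    have h2 := hGP k
    nlinarith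
  refine ⟨w, ?_, ?_, ?_, ?_⟩
  · rintro hw
    have hP0 : P = 0 := by rw [hP, hw, mul_zero]
    rw [hP0, mul_zero] at haP'
    exact hy ((CStarRing.star_mul_self_eq_zero_iff y).1 haP'.symm)
  · rw [← hP]
    exact hPP
  · intro f hf
    have h1 : ∀ k, f * v k = v k := by
      intro k
      rw [hv]
      show f * (y * cfc (F k) a) = y * cfc (F k) a
      rw [← mul_assoc, hf]
    rw [← sub_eq_zero]
    refine eq_zero_of_le h _ (‖f‖ + 1) d hd0 ?_
    intro k
    have e : f * w - w = -(f * (v k - w)) + (v k - w) := by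
      rw [mul_sub, h1 k]
      abel
    rw [e]
    refine (n2_add_le h _ _).trans ?_
    rw [n2_neg, hdk]
    have h2 := n2_mul_le h f (v k - w)
    rw [hdk] at h2
    linarith
  · intro e he hye
    have hae : a * e = a := by
      rw [ha_def, mul_assoc, hye]
    have hea : e * a = a := by
      have := congrArg star hae
      rwa [star_mul, he, ha.star_eq] at this
    have hcom : Commute a e := by
      rw [commute_iff_eq, hae, hea]
    have h1 : ∀ k, v k * e = v k := by
      intro k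
      rw [hv]
      show y * cfc (F k) a * e = y * cfc (F k) a
      have := (hcom.cfc_real (F k)).eq
      rw [mul_assoc, this, ← mul_assoc, hye]
    rw [← sub_eq_zero]
    refine eq_zero_of_le h _ (‖e‖ + 1) d hd0 ?_
    intro k
    have e' : w * e - w = -((v k - w) * e) + (v k - w) := by
      rw [sub_mul, h1 k]
      abel
    rw [e']
    refine (n2_add_le h _ _).trans ?_
    rw [n2_neg, hdk]
    have h2 := n2_mul_le' h (v k - w) e
    rw [hdk] at h2
    linarith

end SC
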