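import Pool.Agent.H77.SC.Cp2

/-!
# Cp3: unitaries of order `n` with the same (vanishing) moments are unitarily conjugate

Let `ζ = exp (2π i/n)` and `p_j = (1/n) Σ_{k<n} ζ^{-jk} u^k` (`j < n`): selfadjoint projections
(`u* = u^{n-1}`), pairwise orthogonal, `Σ_j p_j = 1`, `u = Σ_j ζ^j p_j`, `u p_j = ζ^j p_j`,
`τ(p_j) = 1/n`.  The same for `v` with `q_j`.  By `proj_equiv` there are `w_j` with
`w_j* w_j = p_j`, `w_j w_j* = q_j`; then `w_j = w_j p_j = q_j w_j`
(`‖w_j - w_j p_j‖² = ‖(1-p_j) p_j (1-p_j)‖ = 0`).  `w = Σ_j w_j` is unitary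
(`w_i* w_j = w_i* q_i q_j w_j = 0` for `i ≠ j`) and
`w u = Σ ζ^j w_j p_j = Σ ζ^j q_j w_j = v w`.
-/

open Filter Topology

namespace SC

variable {N : Type*} [CStarAlgebra N] {τ : N →ₗ[ℂ] ℂ}

theorem geo0 {n : ℕ} {x : ℂ} (hx : x ^ n = 1) (h1 : x ≠ 1) : ∑ k ∈ Finset.range n, x ^ k = 0 := by
  have h := mul_geom_sum x n
  rw [hx, sub_self] at h
  rcases mul_eq_zero.1 h with h2 | h2
  · exact (h1 (sub_eq_zero.1 h2)).elim
  · exact h2

/-- the spectral projections of a unitary of order `n` -/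
theorem spec_proj (n : ℕ) (hn : 1 ≤ n) {ω : ℂ} (hω : IsPrimitiveRoot ω n) {u : N} (hu : u ∈ unitary N)
    (hun : u ^ n = 1) : ∃ P : ℕ → N, (∀ j < n, star (P j) = P j) ∧ (∀ j < n, P j * P j = P j) ∧
      (∀ i < n, ∀ j < n, i ≠ j → P i * P j = 0) ∧ (∑ j ∈ Finset.range n, P j = 1) ∧
      (∀ j < n, u * P j = ω ^ j • P j) ∧ (∀ j < n, P j * u = ω ^ j • P j) ∧
      ∀ j < n, ∀ σ : N →ₗ[ℂ] ℂ, (∀ k : ℕ, 0 < k → k < n → σ (u ^ k) = 0) → σ (P j) = (n : ℂ)⁻¹ * σ 1 := by
  have hn0 : (n : ℂ) ≠ 0 := by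
    have : n ≠ 0 := by omega
    exact_mod_cast this
  have hω0 : ω ≠ 0 := hω.ne_zero (by omega)
  have hωn : ω ^ n = 1 := hω.pow_eq_one
  have hcj : star ω = ω⁻¹ := by
    have h1 : ‖ω‖ = 1 := hω.norm'_eq_one (by omega)
    rw [Complex.inv_eq_conj h1]
    rfl
  let P : ℕ → N := fun j => (n : ℂ)⁻¹ • ∑ k ∈ Finset.range n, (ω⁻¹ ^ j) ^ k • u ^ k
  have hP : ∀ j, P j = (n : ℂ)⁻¹ • ∑ k ∈ Finset.range n, (ω⁻¹ ^ j) ^ k • u ^ k := fun j => rfl
  have hjn : ∀ j, (ω⁻¹ ^ j) ^ n = 1 := by
    intro j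
    rw [← pow_mul, mul_comm, pow_mul, inv_pow, hωn, inv_one, one_pow]
  have hcancel : ∀ j, ω ^ j * ω⁻¹ ^ j = 1 := by
    intro j
    rw [← mul_pow, mul_inv_cancel₀ hω0, one_pow]
  -- the shifted sum
  have hshift : ∀ j, ∑ k ∈ Finset.range n, (ω⁻¹ ^ j) ^ (k + 1) • u ^ (k + 1) =
      ∑ k ∈ Finset.range n, (ω⁻¹ ^ j) ^ k • u ^ k := by
    intro j
    have h1 := Finset.sum_range_succ (fun k => (ω⁻¹ ^ j) ^ k • u ^ k) n
    have h2 := Finset.sum_range_succ' (fun k => (ω⁻¹ ^ j) ^ k • u ^ k) n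
    rw [h1] at h2
    rw [hjn, hun, pow_zero, pow_zero] at h2
    exact (add_right_cancel h2).symm
  have huP : ∀ j, u * P j = ω ^ j • P j := by
    intro j
    have h1 : u * ∑ k ∈ Finset.range n, (ω⁻¹ ^ j) ^ k • u ^ k =
        ω ^ j • ∑ k ∈ Finset.range n, (ω⁻¹ ^ j) ^ k • u ^ k := by
      conv_rhs => rw [← hshift j]
      rw [Finset.smul_sum, Finset.mul_sum]
      refine Finset.sum_congr rfl fun k _ => ?_
      rw [mul_smul_comm, ← pow_succ', smul_smul, pow_succ (ω⁻¹ ^ j) k, mul_comm ((ω⁻¹ ^ j) ^ k),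
        ← mul_assoc, hcancel, one_mul]
    rw [hP, mul_smul_comm, h1, smul_comm]
  have hPu : ∀ j, P j * u = u * P j := by
    intro j
    rw [hP, mul_smul_comm, smul_mul_assoc, Finset.mul_sum, Finset.sum_mul]
    congr 1
    refine Finset.sum_congr rfl fun k _ => ?_
    rw [mul_smul_comm, smul_mul_assoc, ← pow_succ, ← pow_succ']
  have hukP : ∀ j k, u ^ k * P j = (ω ^ j) ^ k • P j := by
    intro j k
    induction k with
    | zero => rw [pow_zero, pow_zero, one_mul, one_smul]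
    | succ k ih =>
      rw [pow_succ, mul_assoc, huP, mul_smul_comm, ih, smul_smul, pow_succ, mul_comm]
  have hsu : star u * u = 1 := Unitary.star_mul_self_of_mem hu
  have hsP : ∀ j, star u * P j = ω⁻¹ ^ j • P j := by
    intro j
    have h1 : star u * (u * P j) = P j := by rw [← mul_assoc, hsu, one_mul]
    rw [huP, mul_smul_comm] at h1
    have h2 := congrArg (fun z => ω⁻¹ ^ j • z) h1
    simp only [smul_smul] at h2
    rw [mul_comm, hcancel, one_smul] at h2
    exact h2
  have hskP : ∀ j k, star u ^ k * P j = (ω⁻¹ ^ j) ^ k • P j := by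
    intro j k
    induction k with
    | zero => rw [pow_zero, pow_zero, one_mul, one_smul]
    | succ k ih =>
      rw [pow_succ, mul_assoc, hsP, mul_smul_comm, ih, smul_smul, pow_succ, mul_comm]
  -- the geometric sums
  have hgeo : ∀ i < n, ∀ j < n, i ≠ j → ∑ k ∈ Finset.range n, (ω⁻¹ ^ i * ω ^ j) ^ k = 0 := by
    intro i hi j hj hij
    apply geo0
    · rw [mul_pow, hjn, one_mul, ← pow_mul, mul_comm, pow_mul, hωn, one_pow]
    · intro h1
      apply hij
      have h2 : ω ^ j = ω ^ i := by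
        have h3 := congrArg (fun z => ω ^ i * z) h1
        simp only [mul_one] at h3
        rw [← mul_assoc, hcancel, one_mul] at h3
        exact h3
      exact (hω.pow_inj hj hi h2).symm
  have hmul : ∀ i < n, ∀ j < n, i ≠ j → P i * P j = 0 := by
    intro i hi j hj hij
    rw [hP i, smul_mul_assoc, Finset.sum_mul]
    have h1 : ∀ k ∈ Finset.range n, (ω⁻¹ ^ i) ^ k • u ^ k * P j = (ω⁻¹ ^ i * ω ^ j) ^ k • P j := by
      intro k _
      rw [smul_mul_assoc, hukP, smul_smul, ← mul_pow]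
    rw [Finset.sum_congr rfl h1, ← Finset.sum_smul, hgeo i hi j hj hij, zero_smul, smul_zero]
  have hidem : ∀ j, P j * P j = P j := by
    intro j
    conv_lhs => rw [hP j, smul_mul_assoc, Finset.sum_mul]
    rw [← hP j]
    have h1 : ∀ k ∈ Finset.range n, (ω⁻¹ ^ j) ^ k • u ^ k * P j = (1 : ℂ) • P j := by
      intro k _
      rw [smul_mul_assoc, hukP, smul_smul, ← mul_pow, mul_comm (ω⁻¹ ^ j), hcancel, one_pow]
    rw [Finset.sum_congr rfl h1, ← Finset.sum_smul, Finset.sum_const, Finset.card_range, nsmul_eq_mul,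
      mul_one, smul_smul, inv_mul_cancel₀ hn0, one_smul]
  have hstar : ∀ j, star (P j) = (n : ℂ)⁻¹ • ∑ k ∈ Finset.range n, (ω ^ j) ^ k • star u ^ k := by
    intro j
    rw [hP, star_smul, star_sum, star_inv₀, star_natCast]
    congr 1
    refine Finset.sum_congr rfl fun k _ => ?_
    rw [star_smul, star_pow, star_pow, star_pow, star_inv₀, hcj, inv_inv]
  have hsmul : ∀ i < n, ∀ j < n, i ≠ j → star (P i) * P j = 0 := by
    intro i hi j hj hij
    rw [hstar i, smul_mul_assoc, Finset.sum_mul]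
    have h1 : ∀ k ∈ Finset.range n, (ω ^ i) ^ k • star u ^ k * P j = (ω⁻¹ ^ j * ω ^ i) ^ k • P j := by
      intro k _
      rw [smul_mul_assoc, hskP, smul_smul, ← mul_pow, mul_comm]
    rw [Finset.sum_congr rfl h1, ← Finset.sum_smul, hgeo j hj i hi hij.symm, zero_smul, smul_zero]
  have hsidem : ∀ j, star (P j) * P j = P j := by
    intro j
    rw [hstar j, smul_mul_assoc, Finset.sum_mul]
    have h1 : ∀ k ∈ Finset.range n, (ω ^ j) ^ k • star u ^ k * P j = (1 : ℂ) • P j := by
      intro k _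
      rw [smul_mul_assoc, hskP, smul_smul, ← mul_pow, hcancel, one_pow]
    rw [Finset.sum_congr rfl h1, ← Finset.sum_smul, Finset.sum_const, Finset.card_range, nsmul_eq_mul,
      mul_one, smul_smul, inv_mul_cancel₀ hn0, one_smul]
  have hsum : ∑ j ∈ Finset.range n, P j = 1 := by
    have h1 : ∑ j ∈ Finset.range n, P j =
        (n : ℂ)⁻¹ • ∑ k ∈ Finset.range n, (∑ j ∈ Finset.range n, (ω⁻¹ ^ k) ^ j) • u ^ k := by
      have h2 : ∀ j ∈ Finset.range n, P j = (n : ℂ)⁻¹ • ∑ k ∈ Finset.range n, (ω⁻¹ ^ k) ^ j • u ^ k := by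
        intro j _
        rw [hP]
        congr 1
        refine Finset.sum_congr rfl fun k _ => ?_
        rw [← pow_mul, mul_comm, pow_mul]
      rw [Finset.sum_congr rfl h2, ← Finset.smul_sum, Finset.sum_comm]
      congr 1
      refine Finset.sum_congr rfl fun k _ => ?_
      rw [Finset.sum_smul]
    rw [h1, Finset.sum_eq_single 0]
    · rw [pow_zero, pow_zero]
      simp only [one_pow, Finset.sum_const, Finset.card_range, nsmul_eq_mul, mul_one]
      rw [smul_smul, inv_mul_cancel₀ hn0, one_smul]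
    · intro k hk hk0
      have h3 := hgeo k (Finset.mem_range.1 hk) 0 (by omega) hk0
      rw [pow_zero, mul_one] at h3
      rw [h3, zero_smul]
    · intro h3
      exact (h3 (Finset.mem_range.2 (by omega))).elim
  have hsa : ∀ j < n, star (P j) = P j := by
    intro j hj
    calc star (P j) = star (P j) * ∑ i ∈ Finset.range n, P i := by rw [hsum, mul_one]
      _ = ∑ i ∈ Finset.range n, star (P j) * P i := by rw [Finset.mul_sum]
      _ = star (P j) * P j := by
        refine Finset.sum_eq_single j (fun i hi hij => ?_) (fun h1 => (h1 (Finset.mem_range.2 hj)).elim)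
        exact hsmul j hj i (Finset.mem_range.1 hi) hij.symm
      _ = P j := hsidem j
  refine ⟨P, hsa, fun j _ => hidem j, hmul, hsum, fun j _ => huP j, fun j _ => by rw [hPu, huP], ?_⟩
  intro j _ σ hσ
  rw [hP, map_smul, map_sum, smul_eq_mul]
  congr 1
  rw [Finset.sum_eq_single 0]
  · rw [map_smul, pow_zero, pow_zero, one_smul]
  · intro k hk hk0
    rw [map_smul, hσ k (by omega) (Finset.mem_range.1 hk), smul_zero]
  · intro h3
    exact (h3 (Finset.mem_range.2 (by omega))).elim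

theorem conj_fin (h : IsII1 τ) (n : ℕ) (hn : 1 ≤ n) {u v : N} (hu : u ∈ unitary N)
    (hv : v ∈ unitary N) (hun : u ^ n = 1) (hvn : v ^ n = 1)
    (hu0 : ∀ k : ℕ, 0 < k → k < n → τ (u ^ k) = 0)
    (hv0 : ∀ k : ℕ, 0 < k → k < n → τ (v ^ k) = 0) :
    ∃ w ∈ unitary N, w * u * star w = v := by
  have hω := Complex.isPrimitiveRoot_exp n (by omega)
  set ω := Complex.exp (2 * Real.pi * Complex.I / n) with hωd
  obtain ⟨P, p1, p2, p3, p4, p5, p6, p7⟩ := spec_proj n hn hω hu hun
  obtain ⟨Q, q1, q2, q3, q4, q5, q6, q7⟩ := spec_proj n hn hω hv hvn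
  have hw : ∀ j, ∃ w : N, j < n → star w * w = P j ∧ w * star w = Q j := by
    intro j
    by_cases hj : j < n
    · obtain ⟨w, hw⟩ := proj_equiv h (p1 j hj) (p2 j hj) (q1 j hj) (q2 j hj)
        (by rw [p7 j hj τ hu0, q7 j hj τ hv0])
      exact ⟨w, fun _ => hw⟩
    · exact ⟨0, fun h1 => (hj h1).elim⟩
  choose w hw using hw
  have hwp : ∀ j < n, w j * P j = w j := by
    intro j hj
    obtain ⟨h1, h2⟩ := hw j hj
    have h3 : star (w j - w j * P j) * (w j - w j * P j) = 0 := by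
      rw [star_sub, star_mul, p1 j hj]
      have e1 : (star (w j) - P j * star (w j)) * (w j - w j * P j) =
          star (w j) * w j - star (w j) * w j * P j - P j * (star (w j) * w j) +
            P j * (star (w j) * w j) * P j := by noncomm_ring
      rw [e1, h1, p2 j hj, p2 j hj]
      noncomm_ring
    have h4 := (CStarRing.star_mul_self_eq_zero_iff _).1 h3
    exact (sub_eq_zero.1 h4).symm
  have hqw : ∀ j < n, Q j * w j = w j := by
    intro j hj
    obtain ⟨h1, h2⟩ := hw j hj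
    rw [← h2, mul_assoc, h1, hwp j hj]
  have hwq : ∀ j < n, star (w j) * Q j = star (w j) := by
    intro j hj
    have h1 := congrArg star (hqw j hj)
    rwa [star_mul, q1 j hj] at h1
  have hpw : ∀ j < n, P j * star (w j) = star (w j) := by
    intro j hj
    have h1 := congrArg star (hwp j hj)
    rwa [star_mul, p1 j hj] at h1
  set W := ∑ j ∈ Finset.range n, w j with hW
  have hWW : star W * W = 1 := by
    rw [hW, star_sum, Finset.sum_mul, ← p4]
    refine Finset.sum_congr rfl fun i hi => ?_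
    have hi' := Finset.mem_range.1 hi
    rw [Finset.mul_sum, Finset.sum_eq_single i]
    · exact (hw i hi').1
    · intro j hj hji
      have hj' := Finset.mem_range.1 hj
      rw [← hwq i hi', ← hqw j hj', mul_assoc, ← mul_assoc (Q i), q3 i hi' j hj' hji.symm, zero_mul,
        mul_zero]
    · intro h3
      exact (h3 hi).elim
  have hWW' : W * star W = 1 := by
    rw [hW, star_sum, Finset.sum_mul, ← q4]
    refine Finset.sum_congr rfl fun i hi => ?_
    have hi' := Finset.mem_range.1 hi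
    rw [Finset.mul_sum, Finset.sum_eq_single i]
    · exact (hw i hi').2
    · intro j hj hji
      have hj' := Finset.mem_range.1 hj
      rw [← hwp i hi', ← hpw j hj', mul_assoc, ← mul_assoc (P i), p3 i hi' j hj' hji.symm, zero_mul,
        mul_zero]
    · intro h3
      exact (h3 hi).elim
  have hcomm : W * u = v * W := by
    rw [hW, Finset.sum_mul, Finset.mul_sum]
    refine Finset.sum_congr rfl fun j hj => ?_
    have hj' := Finset.mem_range.1 hj
    calc w j * u = w j * (P j * u) := by rw [← mul_assoc, hwp j hj']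
      _ = ω ^ j • w j := by rw [p6 j hj', mul_smul_comm, hwp j hj']
      _ = (v * Q j) * w j := by rw [q5 j hj', smul_mul_assoc, hqw j hj']
      _ = v * w j := by rw [mul_assoc, hqw j hj']
  refine ⟨W, Unitary.mem_iff.2 ⟨hWW, hWW'⟩, ?_⟩
  rw [hcomm, mul_assoc, hWW', mul_one]

end SC
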