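import Mathlib

/-!
# Sequential commutation in II₁ factors: definitions

`N` is a unital C*-algebra with a linear functional `τ`.  `IsII1 τ` says that `(N, τ)` is a II₁
factor: `τ` is a faithful tracial state for which the unit ball of `N` is complete in the
2-norm (so `N` is a tracial von Neumann algebra), the centre of `N` is trivial, and `N` is
infinite-dimensional.
-/

open Filter Topology

namespace SC

variable {N : Type*} [CStarAlgebra N]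

/-- The 2-norm `‖x‖₂ = τ(x* x)^{1/2}`. -/
noncomputable def n2 (τ : N →ₗ[ℂ] ℂ) (x : N) : ℝ := Real.sqrt (τ (star x * x)).re

/-- `(N, τ)` is a II₁ factor with its faithful normal tracial state. -/
structure IsII1 (τ : N →ₗ[ℂ] ℂ) : Prop where
  map_one : τ 1 = 1
  tracial : ∀ x y : N, τ (x * y) = τ (y * x)
  nonneg : ∀ x : N, 0 ≤ (τ (star x * x)).re
  real : ∀ x : N, (τ (star x * x)).im = 0
  faithful : ∀ x : N, τ (star x * x) = 0 → x = 0
  complete : ∀ x : ℕ → N, (∀ k, ‖x k‖ ≤ 1) →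
    (∀ ε : ℝ, 0 < ε → ∃ K, ∀ k ≥ K, ∀ l ≥ K, n2 τ (x k - x l) < ε) →
    ∃ y : N, ‖y‖ ≤ 1 ∧ Tendsto (fun k => n2 τ (x k - y)) atTop (𝓝 0)
  factor : ∀ z : N, (∀ x : N, z * x = x * z) → ∃ c : ℂ, z = c • (1 : N)
  infinite : ¬ FiniteDimensional ℂ N

/-- The Haar unitaries of `N`. -/
def Haar (τ : N →ₗ[ℂ] ℂ) : Set N := {u | u ∈ unitary N ∧ ∀ m : ℕ, 1 ≤ m → τ (u ^ m) = 0}

/-- The sequence of unitaries `w` represents a Haar unitary of the ultrapower `N^U`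
(every unitary of `N^U` is represented by a sequence of unitaries of `N`). -/
def HaarSeq (τ : N →ₗ[ℂ] ℂ) (U : Ultrafilter ℕ) (w : ℕ → N) : Prop :=
  (∀ k, w k ∈ unitary N) ∧ ∀ m : ℕ, 1 ≤ m → Tendsto (fun k => τ (w k ^ m)) U (𝓝 0)

/-- The sequences `a` and `b` represent commuting elements of the ultrapower `N^U`. -/
def CommSeq (τ : N →ₗ[ℂ] ℂ) (U : Ultrafilter ℕ) (a b : ℕ → N) : Prop :=
  Tendsto (fun k => n2 τ (a k * b k - b k * a k)) U (𝓝 0)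

/-- `u` and `v` are joined by a sequentially commuting path with `n` intermediate Haar
unitaries `w 1, …, w n` of the ultrapower `N^U` (`w 0 = u` and `w (n + 1) = v` are constant). -/
def Path (τ : N →ₗ[ℂ] ℂ) (U : Ultrafilter ℕ) (n : ℕ) (u v : N) : Prop :=
  ∃ w : ℕ → ℕ → N, w 0 = (fun _ => u) ∧ w (n + 1) = (fun _ => v) ∧
    (∀ i ≤ n + 1, HaarSeq τ U (w i)) ∧ ∀ i ≤ n, CommSeq τ U (w i) (w (i + 1))

/-- The sequential commutation orbit of `u`. -/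
def Orb (τ : N →ₗ[ℂ] ℂ) (U : Ultrafilter ℕ) (u : N) : Set N :=
  {v | v ∈ Haar τ ∧ ∃ n, Path τ U n u v}

/-- `O` is a sequential commutation orbit of `N`. -/
def IsOrb (τ : N →ₗ[ℂ] ℂ) (U : Ultrafilter ℕ) (O : Set N) : Prop :=
  ∃ u ∈ Haar τ, O = Orb τ U u

/-- `S` is closed in `N` in the 2-norm. -/
def Closed2 (τ : N →ₗ[ℂ] ℂ) (S : Set N) : Prop :=
  ∀ x : N, (∀ ε : ℝ, 0 < ε → ∃ y ∈ S, n2 τ (x - y) < ε) → x ∈ S

/-- `W*(O) = N`: the only *-subalgebra of `N` that contains `O` and is closed in the 2-norm is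
`N` itself.  (The von Neumann subalgebras of `N` are exactly its 2-norm closed unital
*-subalgebras.) -/
def Generates (τ : N →ₗ[ℂ] ℂ) (O : Set N) : Prop :=
  ∀ M : StarSubalgebra ℂ N, Closed2 τ (M : Set N) → O ⊆ (M : Set N) → M = ⊤

/-- `O` is 2-norm dense in the set of Haar unitaries. -/
def Dense2 (τ : N →ₗ[ℂ] ℂ) (O : Set N) : Prop :=
  ∀ v ∈ Haar τ, ∀ ε : ℝ, 0 < ε → ∃ u ∈ O, n2 τ (v - u) < ε

/-- `O` is somewhere dense: its 2-norm closure contains a ball of the set of Haar unitaries. -/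
def SomewhereDense (τ : N →ₗ[ℂ] ℂ) (O : Set N) : Prop :=
  ∃ v ∈ Haar τ, ∃ r : ℝ, 0 < r ∧ ∀ v' ∈ Haar τ, n2 τ (v' - v) < r →
    ∀ ε : ℝ, 0 < ε → ∃ u ∈ O, n2 τ (v' - u) < ε

/-- The set `w O w*`. -/
def conjSet (w : N) (O : Set N) : Set N := {x | ∃ y ∈ O, x = w * y * star w}

/-- The normaliser of a set `O` in the unitary group of `N`. -/
def Nz (O : Set N) : Set N := {w | w ∈ unitary N ∧ ∀ x : N, x ∈ O ↔ w * x * star w ∈ O}

/-- A subgroup of the unitary group of `N` that is closed in the 2-norm. -/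
structure ClGroup (τ : N →ₗ[ℂ] ℂ) (Γ : Set N) : Prop where
  sub : ∀ w ∈ Γ, w ∈ unitary N
  one : (1 : N) ∈ Γ
  mul : ∀ w ∈ Γ, ∀ w' ∈ Γ, w * w' ∈ Γ
  star : ∀ w ∈ Γ, star w ∈ Γ
  closed : Closed2 τ Γ

/-- The Lie algebra of a set `Γ` of unitaries. -/
def Lie (Γ : Set N) : Set N :=
  {y | star y = -y ∧ ∀ t : ℝ, NormedSpace.exp ((t : ℂ) • y) ∈ Γ}

/-- The complexified Lie algebra. -/
def LieC (Γ : Set N) : Set N :=
  {x | x - star x ∈ Lie Γ ∧ Complex.I • (x + star x) ∈ Lie Γ}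

/-- `u` and `v` are approximately joined by paths of length `n` in `N`. -/
def App (τ : N →ₗ[ℂ] ℂ) (n : ℕ) (u v : N) : Prop :=
  ∀ ε : ℝ, 0 < ε → ∀ M : ℕ, ∃ x : ℕ → N, x 0 = u ∧ x (n + 1) = v ∧
    (∀ i ≤ n + 1, x i ∈ unitary N ∧ ∀ m : ℕ, 1 ≤ m → m ≤ M → ‖τ (x i ^ m)‖ < ε) ∧
    ∀ i ≤ n, n2 τ (x i * x (i + 1) - x (i + 1) * x i) < ε

end SC
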