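import Pool.Agent.H77.SC.O2
import Pool.Agent.H77.SC.MU

/-!
# O5: a generating orbit that is not conjugation invariant has continuum many conjugates

Fix `u ∈ O`.  Apply `myc2` with `S = unitary N` (`unitary_closed`) and
`R n w w' = Path n (w u w*) (w' u w'*)`.  `hR`: `path_closed` with `n2_conj_sub`
(`haar_conj`).  `hno`: suppose not: some `n`, `w₀`, `w₀'`, `r > 0` such that for all unitary `w`,
`w'` with `‖w - w₀‖₂ < r`, `‖w' - w₀'‖₂ < r`: `Path n (w u w*) (w' u w'*)`.  Let `w` be unitary with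
`‖w - 1‖₂ < r`.  Then `w₀ w` is in the ball of `w₀` (`n2_unitary_left`), so
`Path n (w₀ w u w* w₀*) (w₀' u w₀'*)` and `Path n (w₀ u w₀*) (w₀' u w₀'*)` (`n2 0 = 0 < r`), so
`Path (2n+1) (w₀ u w₀*) (w₀ w u w* w₀*)`, and (`path_conj` with `w₀*`)
`Path (2n+1) u (w u w*)`: so `w u w* ∈ O` and `w ∈ Nz O` (`nz_of`).  So every unitary within `r`
of `1` is in `Nz O`.  For an arbitrary unitary `w`, `nz_dense` gives `w' ∈ Nz O` with
`‖w - w'‖₂ < r`, `w'* w` is within `r` of `1`, so `w = w' (w'* w) ∈ Nz O`: contradiction with `hn`.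
So there is `f` with `f s` unitary and `¬ Path n (f s u (f s)*) (f t u (f t)*)` for all `n` and
`s ≠ t`.  Then `conjSet (f s) O ≠ conjSet (f t) O`: otherwise `f s u (f s)* ∈ conjSet (f t) O`,
i.e. `f s u (f s)* = f t y (f t)*` with `y ∈ O`, and `orb_path`, `path_conj` give a path
from `f t y (f t)*` to `f t u (f t)*`.

-/

open Filter Topology

namespace SC

variable {N : Type*} [CStarAlgebra N] {τ : N →ₗ[ℂ] ℂ} {U : Ultrafilter ℕ} {O : Set N}

private theorem O5_zero : n2 τ (0 : N) = 0 := by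
  unfold n2
  rw [star_zero, zero_mul, map_zero, Complex.zero_re, Real.sqrt_zero]

private theorem O5_conj {w x : N} (hw : w ∈ unitary N) :
    star w * (w * x * star w) * star (star w) = x := by
  have h1 : star w * w = 1 := Unitary.star_mul_self_of_mem hw
  rw [star_star]
  calc star w * (w * x * star w) * w = (star w * w) * x * (star w * w) := by noncomm_ring
    _ = x := by rw [h1, one_mul, mul_one]

private theorem O5_one {w w' : N} (hw' : w' ∈ unitary N) :
    n2 τ (star w' * w - 1) = n2 τ (w - w') := by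
  have h1 : star w' * w' = 1 := Unitary.star_mul_self_of_mem hw'
  have h2 : star w' * w - 1 = star w' * (w - w') := by
    rw [mul_sub, h1]
  rw [h2, n2_unitary_left (star_mem' hw')]

private theorem O5_loc (h : IsII1 τ) (hO : IsOrb τ U O) {u w₀ w₀' : N} (hu : u ∈ O) (n : ℕ)
    (hw₀ : w₀ ∈ unitary N) (hw₀' : w₀' ∈ unitary N) {r : ℝ} (hr : 0 < r)
    (hall : ∀ x ∈ unitary N, ∀ y ∈ unitary N, n2 τ (x - w₀) < r → n2 τ (y - w₀') < r →
      Path τ U n (x * u * star x) (y * u * star y)) {w : N} (hw : w ∈ unitary N)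
    (hwr : n2 τ (w - 1) < r) : w ∈ Nz O := by
  have hz : n2 τ (w₀ - w₀) < r := by
    rw [sub_self, O5_zero]
    exact hr
  have hz' : n2 τ (w₀' - w₀') < r := by
    rw [sub_self, O5_zero]
    exact hr
  have h1 : Path τ U n ((w₀ * w) * u * star (w₀ * w)) (w₀' * u * star w₀') := by
    refine hall (w₀ * w) (mul_mem hw₀ hw) w₀' hw₀' ?_ hz'
    have h2 : w₀ * w - w₀ = w₀ * (w - 1) := by
      rw [mul_sub, mul_one]
    rw [h2, n2_unitary_left hw₀]
    exact hwr
  have h2 : Path τ U n (w₀ * u * star w₀) (w₀' * u * star w₀') := hall w₀ hw₀ w₀' hw₀' hz hz'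
  have h3 := path_conj h (star_mem' hw₀) (path_trans h2 (path_symm h1))
  rw [O5_conj hw₀] at h3
  have h4 : (w₀ * w) * u * star (w₀ * w) = w₀ * (w * u * star w) * star w₀ := by
    rw [star_mul]
    noncomm_ring
  rw [h4, O5_conj hw₀] at h3
  exact nz_of h hO hw hu (orb_of_path hO hu h3)

theorem many_conj (h : IsII1 τ) (hU : (U : Filter ℕ) ≤ cofinite) (hO : IsOrb τ U O)
    (hg : Generates τ O) (hn : ¬ ∀ w ∈ unitary N, w ∈ Nz O) :
    ∃ w : (ℕ → Bool) → N, (∀ s, w s ∈ unitary N) ∧
      ∀ s t, s ≠ t → conjSet (w s) O ≠ conjSet (w t) O := by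
  obtain ⟨u, hu⟩ := orb_nonempty hO
  have huH : u ∈ Haar τ := orb_haar hO hu
  obtain ⟨f, hfS, hf⟩ := myc2 h (unitary N : Set N) (fun x hx => hx) ⟨1, one_mem _⟩
    (unitary_closed h) (fun n w w' => Path τ U n (w * u * star w) (w' * u * star w'))
    (by
      intro n x hx y hy hc
      refine path_closed h hU n (haar_conj h huH hx) (haar_conj h huH hy) ?_
      intro ε hε
      obtain ⟨x', hx', y', hy', hp, h1, h2⟩ := hc (ε / 2) (by linarith)
      have h3 := n2_conj_sub h huH.1 hx hx'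
      have h4 := n2_conj_sub h huH.1 hy hy'
      exact ⟨_, _, hp, by linarith, by linarith⟩)
    (by
      intro n x hx y hy r hr
      by_contra hcon
      push Not at hcon
      refine hn fun w hw => ?_
      obtain ⟨w', hw', hww'⟩ := nz_dense h hO hg w hw r hr
      have hw'u : w' ∈ unitary N := hw'.1
      have h1 : star w' * w ∈ Nz O := by
        refine O5_loc h hO hu n hx hy hr ?_ (mul_mem (star_mem' hw'u) hw) ?_
        · intro x' hx' y' hy' h2 h3
          exact hcon x' hx' y' hy' h2 h3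
        · rw [O5_one hw'u]
          exact hww'
      have h2 : w' * (star w' * w) = w := by
        rw [← mul_assoc, Unitary.mul_star_self_of_mem hw'u, one_mul]
      rw [← h2]
      exact nz_mul hw' h1)
  refine ⟨f, hfS, fun s t hst heq => ?_⟩
  have h1 : f s * u * star (f s) ∈ conjSet (f t) O := by
    rw [← heq]
    exact ⟨u, hu, rfl⟩
  obtain ⟨y, hy, hye⟩ := h1
  obtain ⟨n, hp⟩ := orb_path hO hy hu
  refine hf s t hst n ?_
  show Path τ U n (f s * u * star (f s)) (f t * u * star (f t))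
  rw [hye]
  exact path_conj h (hfS t) hp

end SC
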