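import Pool.Agent.H77.SC.O1
import Pool.Agent.H77.SC.Bl
import Pool.Agent.H77.SC.MU

/-!
# O6: if no orbit generates, there are continuum many orbits

`myc2` with `S = Haar τ` (`haar_closed`) and `R n u v = Path n u v`; `hR` is `path_closed`.  `hno`:
suppose not: some `n`, Haar `u₀`, `v₀`, `r > 0` with `Path n u v` for all Haar `u`, `v` within `r` of
`u₀`, `v₀`.  So all Haar `u` within `r` of `u₀` are in the orbit `O` of `v₀` (`path_symm`,
`orb_isOrb`, `orb_of_path`), so `O` is somewhere dense and `somewhere_gen` contradicts `hno`.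
-/

open Filter Topology

namespace SC

variable {N : Type*} [CStarAlgebra N] {τ : N →ₗ[ℂ] ℂ} {U : Ultrafilter ℕ}

theorem many_orb (h : IsII1 τ) (hU : (U : Filter ℕ) ≤ cofinite) (hne : (Haar τ).Nonempty)
    (hno : ∀ O : Set N, IsOrb τ U O → ¬ Generates τ O) :
    ∃ f : (ℕ → Bool) → N, (∀ s, f s ∈ Haar τ) ∧
      ∀ s t, s ≠ t → ∀ n, ¬ Path τ U n (f s) (f t) := by
  refine myc2 h (Haar τ) (fun x hx => hx.1) hne (haar_closed h) (fun n u v => Path τ U n u v) ?_ ?_
  · intro n x hx y hy hc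
    refine path_closed h hU n hx hy fun ε hε => ?_
    obtain ⟨x', _, y', _, hp, h1, h2⟩ := hc ε hε
    exact ⟨x', y', hp, h1, h2⟩
  · intro n x hx y hy r hr
    by_contra hcon
    push Not at hcon
    have hO := orb_isOrb (U := U) hy
    refine hno _ hO.1 (somewhere_gen h _ ⟨x, hx, r, hr, fun v' hv' hlt ε hε => ⟨v', ?_, ?_⟩⟩)
    · have hp := hcon v' hv' y hy hlt (by rw [sub_self, n2_zero]; exact hr)
      exact orb_of_path hO.1 hO.2 (path_symm hp)
    · rw [sub_self, n2_zero]
      exact hε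

end SC
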