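import Pool.Agent.H77.SC.O3
import Pool.Agent.H77.SC.O4
import Pool.Agent.H77.SC.O5
import Pool.Agent.H77.SC.O6

/-!
# F: the trichotomy
-/

open Filter Topology

namespace SC

variable {N : Type*} [CStarAlgebra N] {τ : N →ₗ[ℂ] ℂ} {U : Ultrafilter ℕ}

theorem trichotomy (h : IsII1 τ) (hU : (U : Filter ℕ) ≤ cofinite) :
    (∀ O : Set N, IsOrb τ U O →
      (Generates τ O ↔ Dense2 τ O) ∧ (Generates τ O ↔ SomewhereDense τ O)) ∧
    (∀ O : Set N, IsOrb τ U O → Generates τ O →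
      (O = Haar τ ∧ ∃ n, ∀ u ∈ Haar τ, ∀ v ∈ Haar τ, Path τ U n u v) ∨
      (O ≠ Haar τ ∧ ∃ w : (ℕ → Bool) → N, (∀ s, w s ∈ unitary N) ∧
        (∀ s, IsOrb τ U (conjSet (w s) O) ∧ Generates τ (conjSet (w s) O)) ∧
        ∀ s t, s ≠ t → conjSet (w s) O ≠ conjSet (w t) O)) ∧
    ((Haar τ).Nonempty → (∀ O : Set N, IsOrb τ U O → ¬ Generates τ O) →
      ∃ f : (ℕ → Bool) → N, (∀ s, f s ∈ Haar τ) ∧
        ∀ s t, s ≠ t → ∀ n, ¬ Path τ U n (f s) (f t)) := by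
  refine ⟨fun O hO => ⟨gen_iff_dense h hO, gen_iff_somewhere h hO⟩, fun O hO hg => ?_,
    fun hne hno => many_orb h hU hne hno⟩
  by_cases hn : ∀ w ∈ unitary N, w ∈ Nz O
  · left
    obtain ⟨n, hnn⟩ := uniform_length h hU hO hn
    obtain ⟨u, hu⟩ := orb_nonempty hO
    refine ⟨Set.Subset.antisymm (fun x hx => orb_haar hO hx) (fun x hx => ?_), n, hnn⟩
    exact orb_of_path hO hu (hnn u (orb_haar hO hu) x hx)
  · right
    obtain ⟨w, hw, hd⟩ := many_conj h hU hO hg hn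
    refine ⟨fun hOe => hn fun w hw => ?_, w, hw, fun s => ⟨conj_orb h hO (hw s),
      conj_gen h (hw s) hg⟩, hd⟩
    obtain ⟨u, hu⟩ := orb_nonempty hO
    refine nz_of h hO hw hu ?_
    rw [hOe]
    exact haar_conj h (orb_haar hO hu) hw

end SC
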