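import Pool.Agent.H77.SC.S1

/-!
# S2: an orbit generating a factor `M` is dense in the Haar unitaries of `M`

Let `v ∈ M` be a Haar unitary, `ε > 0`, `u ∈ O` (`orb_nonempty`).  `sub_conj_dense`: a unitary
`w ∈ M` with `‖w u w* - v‖₂ < ε/2`; `sub_nz_dense`: `w' ∈ Nz O`, `‖w - w'‖₂ < ε/4`; by
`n2_conj_sub`, `‖w u w* - w' u w'*‖₂ < ε/2`, and `w' u w'* ∈ O`.
`orb_central`: if a Haar unitary `z ∈ M` commutes with `M`, then `z` commutes with some `u ∈ O`, so
`z ∈ O`; every Haar unitary `v ∈ M` commutes with `z`, so `v ∈ O` (`path_comm`, `orb_of_path`).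
`genBy_conj`: `M` is generated by `w O w*` if `w ∈ M` is unitary and `M = W*(O)`
(if `M'` is closed and contains `w O w*`, then `{x | w x w* ∈ M'}` is a closed *-subalgebra
containing `O`, so it contains `M`, and `x = w (w* x w) w*`).
-/

set_option linter.unusedVariables false

open Filter Topology

namespace SC

variable {N : Type*} [CStarAlgebra N] {τ : N →ₗ[ℂ] ℂ} {U : Ultrafilter ℕ} {O : Set N}
  {M : StarSubalgebra ℂ N}

theorem orb_dense_sub (h : IsII1 τ) (hO : IsOrb τ U O) (hM : IsGenBy τ O M) (hf : IsFac M)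
    {v : N} (hv : v ∈ Haar τ) (hvM : v ∈ M) (ε : ℝ) (hε : 0 < ε) :
    ∃ u ∈ O, n2 τ (v - u) < ε := by
  obtain ⟨u, hu⟩ := orb_nonempty hO
  have huH := orb_haar hO hu
  have huM : u ∈ M := hM.2.1 hu
  obtain ⟨w, hw, hwM, hlt⟩ := sub_conj_dense h hM.1 hf huH huM hv hvM (ε / 2) (by linarith)
  obtain ⟨w', hw', hw'M, hlt'⟩ := sub_nz_dense h hO hM hf hw hwM (ε / 4) (by linarith)
  refine ⟨w' * u * star w', (hw'.2 u).1 hu, ?_⟩
  have h1 := n2_sub_le h v (w * u * star w) (w' * u * star w')
  have h2 := n2_conj_sub h huH.1 hw hw'.1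
  rw [n2_sub_comm v (w * u * star w)] at h1
  linarith

theorem orb_central (h : IsII1 τ) (hO : IsOrb τ U O) (hM : IsGenBy τ O M) {z : N}
    (hz : z ∈ Haar τ) (hzM : z ∈ M) (hzc : ∀ x ∈ M, z * x = x * z) :
    O = {v : N | v ∈ Haar τ ∧ v ∈ M} := by
  obtain ⟨u, hu⟩ := orb_nonempty hO
  have hzO : z ∈ O := orb_of_path hO hu (path_comm (orb_haar hO hu) hz (hzc u (hM.2.1 hu)).symm)
  ext v
  constructor
  · intro hv
    exact ⟨orb_haar hO hv, hM.2.1 hv⟩
  · rintro ⟨hv, hvM⟩
    exact orb_of_path hO hzO (path_comm hz hv (hzc v hvM))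

/-- the *-subalgebra `{x | w x w* ∈ M}` -/
private def pull2 (w : N) (hw : w ∈ unitary N) (M : StarSubalgebra ℂ N) : StarSubalgebra ℂ N where
  carrier := {x | w * x * star w ∈ M}
  mul_mem' := by
    intro a b ha hb
    have e : w * (a * b) * star w = (w * a * star w) * (w * b * star w) := by
      calc w * (a * b) * star w = w * a * 1 * b * star w := by noncomm_ring
        _ = w * a * (star w * w) * b * star w := by rw [Unitary.star_mul_self_of_mem hw]
        _ = _ := by noncomm_ring
    show w * (a * b) * star w ∈ M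
    rw [e]
    exact mul_mem ha hb
  add_mem' := by
    intro a b ha hb
    show w * (a + b) * star w ∈ M
    rw [mul_add, add_mul]
    exact add_mem ha hb
  algebraMap_mem' := by
    intro r
    show w * algebraMap ℂ N r * star w ∈ M
    rw [← Algebra.commutes, mul_assoc, Unitary.mul_star_self_of_mem hw, mul_one]
    exact algebraMap_mem M r
  star_mem' := by
    intro a ha
    show w * star a * star w ∈ M
    have e : w * star a * star w = star (w * a * star w) := by
      rw [star_mul, star_mul, star_star, mul_assoc]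
    rw [e]
    exact star_mem ha

theorem genBy_conj (h : IsII1 τ) (hM : IsGenBy τ O M) {w : N} (hw : w ∈ unitary N)
    (hwM : w ∈ M) : IsGenBy τ (conjSet w O) M := by
  refine ⟨hM.1, ?_, fun M' hM' hOM' => ?_⟩
  · rintro x ⟨y, hy, rfl⟩
    exact mul_mem (mul_mem hwM (hM.2.1 hy)) (star_mem hwM)
  · have h1 : M ≤ pull2 w hw M' := by
      apply hM.2.2
      · intro x hx
        show w * x * star w ∈ M'
        apply hM'
        intro ε hε
        obtain ⟨y, hy, hlt⟩ := hx ε hε
        refine ⟨w * y * star w, hy, ?_⟩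
        have e : w * x * star w - w * y * star w = w * (x - y) * star w := by noncomm_ring
        rw [e, n2_unitary_right h (star_mem' hw), n2_unitary_left hw]
        exact hlt
      · intro x hx
        exact hOM' ⟨x, hx, rfl⟩
    intro x hx
    have h2 : star w * x * w ∈ pull2 w hw M' := h1 (mul_mem (mul_mem (star_mem hwM) hx) hwM)
    have h3 : w * (star w * x * w) * star w ∈ M' := h2
    have e : w * (star w * x * w) * star w = x := by
      calc w * (star w * x * w) * star w = (w * star w) * x * (w * star w) := by noncomm_ring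
        _ = x := by rw [Unitary.mul_star_self_of_mem hw, one_mul, mul_one]
    rwa [e] at h3

end SC
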