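import Pool.Agent.H77.SC.O3
import Pool.Agent.H77.SC.O6
import Pool.Agent.H77.SC.S2
import Pool.Agent.H77.SC.S3
import Pool.Agent.H77.SC.S4

/-!
# G: the structure of sequential commutation orbits
-/

open Filter Topology

namespace SC

variable {N : Type*} [CStarAlgebra N] {τ : N →ₗ[ℂ] ℂ} {U : Ultrafilter ℕ}

theorem structure_orbits (h : IsII1 τ) (hU : (U : Filter ℕ) ≤ cofinite) :
    (∀ O : Set N, IsOrb τ U O → ∀ M : StarSubalgebra ℂ N, IsGenBy τ O M →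
      (IsFac M →
        (∀ v ∈ Haar τ, v ∈ M → ∀ ε : ℝ, 0 < ε → ∃ u ∈ O, n2 τ (v - u) < ε) ∧
        ((O = {v : N | v ∈ Haar τ ∧ v ∈ M} ∧ ∃ n, ∀ u ∈ O, ∀ v ∈ O, Path τ U n u v) ∨
          (O ≠ {v : N | v ∈ Haar τ ∧ v ∈ M} ∧
            ∃ w : (ℕ → Bool) → N, (∀ s, w s ∈ unitary N ∧ w s ∈ M ∧
              IsOrb τ U (conjSet (w s) O) ∧ IsGenBy τ (conjSet (w s) O) M) ∧
              ∀ s t, s ≠ t → conjSet (w s) O ≠ conjSet (w t) O))) ∧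
      ((∃ z ∈ Haar τ, z ∈ M ∧ ∀ x ∈ M, z * x = x * z) →
        O = {v : N | v ∈ Haar τ ∧ v ∈ M})) ∧
    (∀ O : Set N, IsOrb τ U O →
      (Generates τ O ↔ Dense2 τ O) ∧ (Generates τ O ↔ SomewhereDense τ O)) ∧
    ((Haar τ).Nonempty → (∀ O : Set N, IsOrb τ U O → ¬ Generates τ O) →
      ∃ f : (ℕ → Bool) → N, (∀ s, f s ∈ Haar τ) ∧
        ∀ s t, s ≠ t → ∀ n, ¬ Path τ U n (f s) (f t)) := by
  refine ⟨fun O hO M hM => ⟨fun hf => ⟨fun v hv hvM ε hε => orb_dense_sub h hO hM hf hv hvM ε hε,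
    ?_⟩, fun ⟨z, hz, hzM, hzc⟩ => orb_central h hO hM hz hzM hzc⟩,
    fun O hO => ⟨gen_iff_dense h hO, gen_iff_somewhere h hO⟩, fun hne hno => many_orb h hU hne hno⟩
  have hOM : ∀ x ∈ O, x ∈ M := fun x hx => hM.2.1 hx
  by_cases hn : ∀ w ∈ unitary N, w ∈ M → w ∈ Nz O
  · left
    obtain ⟨n, hnn⟩ := uniform_sub h hU hO hM hf hn
    obtain ⟨u, hu⟩ := orb_nonempty hO
    refine ⟨Set.Subset.antisymm (fun x hx => ⟨orb_haar hO hx, hOM x hx⟩)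
      (fun x hx => ?_), n, fun x hx y hy => hnn x (orb_haar hO hx) (hOM x hx) y
        (orb_haar hO hy) (hOM y hy)⟩
    exact orb_of_path hO hu (hnn u (orb_haar hO hu) (hOM u hu) x hx.1 hx.2)
  · right
    obtain ⟨w, hw, hd⟩ := many_sub h hU hO hM hf hn
    refine ⟨fun hOe => hn fun w hw hwM => ?_, w, fun s => ⟨(hw s).1, (hw s).2,
      conj_orb h hO (hw s).1, genBy_conj h hM (hw s).1 (hw s).2⟩, hd⟩
    obtain ⟨u, hu⟩ := orb_nonempty hO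
    refine nz_of h hO hw hu ?_
    rw [hOe]
    exact ⟨haar_conj h (orb_haar hO hu) hw,
      mul_mem (mul_mem hwM (hOM u hu)) (star_mem hwM)⟩

end SC
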