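import Pool.Agent.H77.SC.L1

/-!
# L2: the complexified Lie algebra

`x ∈ LieC Γ` iff `x = y + I • z` with `y, z ∈ Lie Γ`: `y = (x - x*)/2`,
`z = -(1/2) • (I • (x + x*))`; conversely for `x = y + I • z`: `x* = -y + I • z`
(`z* = -z`, `(I • z)* = -I • (-z) = I • z`), so `x - x* = 2y` and
`I • (x + x*) = I • (2 I • z) = -2 z`.
From this all closure properties follow from those of `Lie Γ` (`L1.lean`):
`lieC_smul` for complex `c = a + b I`: `c • (y + I z) = (a y - b z) + I (b y + a z)`.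
`lieC_closed`: `x ↦ x - x*` and `x ↦ I • (x + x*)` are 2-norm Lipschitz (`n2_star`).
`lieC_bracket`: `[y + I z, y' + I z'] = [y,y'] - [z,z'] + I ([y,z'] + [z,y'])`.
-/

open Filter Topology

namespace SC

variable {N : Type*} [CStarAlgebra N] {τ : N →ₗ[ℂ] ℂ} {Γ : Set N}

theorem mem_lieC_iff (x : N) :
    x ∈ LieC Γ ↔ ∃ y ∈ Lie Γ, ∃ z ∈ Lie Γ, x = y + Complex.I • z := by
  constructor
  · rintro ⟨h1, h2⟩
    refine ⟨_, lie_smul (1 / 2) h1, _, lie_smul (-1 / 2) h2, ?_⟩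
    rw [smul_smul, smul_smul, smul_sub, smul_add]
    have e1 : Complex.I * ((-1 / 2 : ℝ) : ℂ) * Complex.I = ((1 / 2 : ℝ) : ℂ) := by
      push_cast
      linear_combination (-1 / 2 : ℂ) * Complex.I_mul_I
    rw [e1]
    have e2 : ((1 / 2 : ℝ) : ℂ) • x + ((1 / 2 : ℝ) : ℂ) • x = x := by
      rw [← add_smul]
      have : ((1 / 2 : ℝ) : ℂ) + ((1 / 2 : ℝ) : ℂ) = 1 := by push_cast; norm_num
      rw [this, one_smul]
    nth_rewrite 1 [← e2]
    abel
  · rintro ⟨y, hy, z, hz, rfl⟩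
    have hs : star (y + Complex.I • z) = -y + Complex.I • z := by
      rw [star_add, star_smul, hy.1, hz.1]
      have : star Complex.I = -Complex.I := by
        rw [Complex.star_def, Complex.conj_I]
      rw [this, neg_smul_neg]
    constructor
    · rw [hs]
      have h1 := lie_smul 2 hy
      have e : y + Complex.I • z - (-y + Complex.I • z) = ((2 : ℝ) : ℂ) • y := by
        push_cast
        rw [two_smul]
        abel
      rw [e]
      exact h1
    · rw [hs]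
      have h1 := lie_smul (-2) hz
      have e : Complex.I • (y + Complex.I • z + (-y + Complex.I • z)) = ((-2 : ℝ) : ℂ) • z := by
        have e1 : y + Complex.I • z + (-y + Complex.I • z) = (2 * Complex.I) • z := by
          rw [mul_smul, two_smul]
          abel
        rw [e1, smul_smul]
        congr 1
        push_cast
        linear_combination (2 : ℂ) * Complex.I_mul_I
      rw [e]
      exact h1

theorem lieC_add (h : IsII1 τ) (hΓ : ClGroup τ Γ) {x x' : N} (hx : x ∈ LieC Γ)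
    (hx' : x' ∈ LieC Γ) : x + x' ∈ LieC Γ := by
  obtain ⟨y, hy, z, hz, rfl⟩ := (mem_lieC_iff x).1 hx
  obtain ⟨y', hy', z', hz', rfl⟩ := (mem_lieC_iff x').1 hx'
  refine (mem_lieC_iff _).2 ⟨y + y', lie_add h hΓ hy hy', z + z', lie_add h hΓ hz hz', ?_⟩
  rw [smul_add]
  abel

theorem lieC_zero (hΓ : ClGroup τ Γ) : (0 : N) ∈ LieC Γ :=
  (mem_lieC_iff _).2 ⟨0, lie_zero hΓ, 0, lie_zero hΓ, by simp⟩

theorem lieC_smul (h : IsII1 τ) (hΓ : ClGroup τ Γ) (c : ℂ) {x : N} (hx : x ∈ LieC Γ) :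
    c • x ∈ LieC Γ := by
  obtain ⟨y, hy, z, hz, rfl⟩ := (mem_lieC_iff x).1 hx
  refine (mem_lieC_iff _).2 ⟨(c.re : ℂ) • y + ((-c.im : ℝ) : ℂ) • z,
    lie_add h hΓ (lie_smul _ hy) (lie_smul _ hz), (c.im : ℂ) • y + (c.re : ℂ) • z,
    lie_add h hΓ (lie_smul _ hy) (lie_smul _ hz), ?_⟩
  have hc : c = (c.re : ℂ) + (c.im : ℂ) * Complex.I := (Complex.re_add_im c).symm
  have e1 : c • y = (c.re : ℂ) • y + (Complex.I * (c.im : ℂ)) • y := by
    rw [← add_smul]
    congr 1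
    rw [mul_comm]
    exact hc
  have e2 : (c * Complex.I) • z = ((-c.im : ℝ) : ℂ) • z + (Complex.I * (c.re : ℂ)) • z := by
    rw [← add_smul]
    congr 1
    push_cast
    linear_combination Complex.I * hc + (c.im : ℂ) * Complex.I_mul_I
  rw [smul_add, smul_smul, smul_add, smul_smul, smul_smul, e1, e2]
  abel

theorem lieC_closed (h : IsII1 τ) (hΓ : ClGroup τ Γ) : Closed2 τ (LieC Γ) := by
  intro x hx
  have key : ∀ ε : ℝ, 0 < ε → ∃ y ∈ LieC Γ, n2 τ (x - y) < ε / 2 ∧ n2 τ (star (x - y)) < ε / 2 := by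
    intro ε hε
    obtain ⟨y, hy, hyε⟩ := hx (ε / 2) (by positivity)
    exact ⟨y, hy, hyε, by rw [n2_star h]; exact hyε⟩
  constructor
  · refine lie_closed h hΓ _ fun ε hε => ?_
    obtain ⟨y, hy, h1, h2⟩ := key ε hε
    refine ⟨y - star y, hy.1, ?_⟩
    have e : x - star x - (y - star y) = (x - y) + -(star (x - y)) := by
      rw [star_sub]
      abel
    rw [e]
    calc _ ≤ n2 τ (x - y) + n2 τ (-(star (x - y))) := n2_add_le h _ _
      _ < ε := by rw [n2_neg]; linarith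
  · refine lie_closed h hΓ _ fun ε hε => ?_
    obtain ⟨y, hy, h1, h2⟩ := key ε hε
    refine ⟨Complex.I • (y + star y), hy.2, ?_⟩
    have e : Complex.I • (x + star x) - Complex.I • (y + star y) =
        Complex.I • ((x - y) + star (x - y)) := by
      rw [← smul_sub, star_sub]
      congr 1
      abel
    rw [e, n2_smul h, Complex.norm_I, one_mul]
    calc _ ≤ n2 τ (x - y) + n2 τ (star (x - y)) := n2_add_le h _ _
      _ < ε := by linarith

theorem lieC_bracket (h : IsII1 τ) (hΓ : ClGroup τ Γ) {x x' : N} (hx : x ∈ LieC Γ)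
    (hx' : x' ∈ LieC Γ) : x * x' - x' * x ∈ LieC Γ := by
  obtain ⟨y, hy, z, hz, rfl⟩ := (mem_lieC_iff x).1 hx
  obtain ⟨y', hy', z', hz', rfl⟩ := (mem_lieC_iff x').1 hx'
  have b1 := lie_bracket h hΓ hy' hy
  have b2 := lie_bracket h hΓ hz hz'
  have b3 := lie_bracket h hΓ hz' hy
  have b4 := lie_bracket h hΓ hy' hz
  refine (mem_lieC_iff _).2 ⟨_, lie_add h hΓ b1 b2, _, lie_add h hΓ b3 b4, ?_⟩
  simp only [mul_add, add_mul, smul_mul_assoc, mul_smul_comm, smul_smul, Complex.I_mul_I,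
    smul_add, smul_sub, neg_smul, one_smul]
  abel

theorem lieC_conj (hΓ : ClGroup τ Γ) {w x : N} (hw : w ∈ Γ) (hx : x ∈ LieC Γ) :
    w * x * star w ∈ LieC Γ := by
  obtain ⟨y, hy, z, hz, rfl⟩ := (mem_lieC_iff x).1 hx
  refine (mem_lieC_iff _).2 ⟨_, lie_conj hΓ hw hy, _, lie_conj hΓ hw hz, ?_⟩
  rw [mul_add, add_mul, mul_smul_comm, smul_mul_assoc]

theorem lie_sub_lieC (hΓ : ClGroup τ Γ) {y : N} (hy : y ∈ Lie Γ) : y ∈ LieC Γ :=
  (mem_lieC_iff _).2 ⟨y, hy, 0, lie_zero hΓ, by simp⟩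

end SC
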