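import Pool.Agent.H77.SC.L2
import Pool.Agent.H77.SC.Er

/-!
# Ld: if `O` generates `N`, the Lie algebra is everything

Let `V` be the complex subspace with underlying set `LieC Γ` (`L2.lean`).  For `u ∈ O`
(a unitary, since `u ∈ Γ`):
* `V` contains every `x` commuting with `u`: then `x*` commutes with `u` as well (`u` unitary), so
  `y = x - x*` and `y = I • (x + x*)` are skew-adjoint and commute with `u`, `exp (t y)` is a unitary
  commuting with `u`, so it is in `Γ` by `hcomm`.
* `u ∈ V` (it commutes with `u`), so `[u, V] ⊆ V` (`lieC_bracket`); `u* V u ⊆ V` (`lieC_conj` with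
  `w = star u ∈ Γ`).
So `ergodic_step` gives `u V ⊆ V`.  Let `M` be the set of `a` with `a V ⊆ V` and `a* V ⊆ V`: a
*-subalgebra, closed in the 2-norm (`‖(a - b) v‖₂ ≤ ‖a - b‖₂ ‖v‖`, `n2_mul_le'`, `n2_star`),
containing `O` (`hstar`).  So `M = ⊤`, and `a = a 1 ∈ V` for every `a` (`1` commutes with any `u`;
if `O` is empty take `M = ⊥`-argument: the closed *-subalgebra `M` above is still `⊤`, and
`1 ∈ V` because `exp` of a multiple of `I • 1`… — to avoid this, `hne : O.Nonempty` is assumed).
Finally for `star y = -y`: `y ∈ LieC Γ` gives `y - y* = 2y ∈ Lie Γ`, so `y ∈ Lie Γ`.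
-/

open Filter Topology

namespace SC

variable {N : Type*} [CStarAlgebra N] {τ : N →ₗ[ℂ] ℂ} {Γ : Set N}

theorem lie_full (h : IsII1 τ) (hΓ : ClGroup τ Γ) (O : Set N) (hne : O.Nonempty)
    (hO : ∀ u ∈ O, u ∈ Γ) (hcomm : ∀ u ∈ O, ∀ w ∈ unitary N, w * u = u * w → w ∈ Γ)
    (hstar : ∀ u ∈ O, star u ∈ O) (hgen : Generates τ O) (y : N) (hy : star y = -y) :
    y ∈ Lie Γ := by
  let V : Submodule ℂ N :=
    { carrier := LieC Γ
      add_mem' := fun {a b} ha hb => lieC_add h hΓ ha hb
      zero_mem' := lieC_zero hΓ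
      smul_mem' := fun c x hx => lieC_smul h hΓ c hx }
  have hVcl : Closed2 τ (V : Set N) := lieC_closed h hΓ
  have hcu : ∀ u ∈ O, ∀ x : N, x * u = u * x → x ∈ V := by
    intro u hu x hx
    have huu : u ∈ unitary N := hΓ.sub u (hO u hu)
    have hsx : star x * u = u * star x := by
      have h1 : star u * star x = star x * star u := by
        rw [← star_mul, ← star_mul, hx]
      calc star x * u = (u * star u) * (star x * u) := by
            rw [Unitary.mul_star_self_of_mem huu, one_mul]
        _ = u * (star u * star x) * u := by noncomm_ring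
        _ = u * (star x * star u) * u := by rw [h1]
        _ = u * star x * (star u * u) := by noncomm_ring
        _ = u * star x := by rw [Unitary.star_mul_self_of_mem huu, mul_one]
    have hexp : ∀ z : N, star z = -z → z * u = u * z → z ∈ Lie Γ := by
      intro z hz hzu
      refine ⟨hz, fun t => hcomm u hu _ ?_ ?_⟩
      · apply exp_skew_unitary
        rw [star_smul, hz, Complex.star_def, Complex.conj_ofReal, smul_neg]
      · have hc : Commute z u := hzu
        exact (hc.smul_left (t : ℂ)).exp_left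
    refine ⟨hexp _ ?_ ?_, hexp _ ?_ ?_⟩
    · rw [star_sub, star_star, neg_sub]
    · rw [sub_mul, mul_sub, hx, hsx]
    · rw [star_smul, star_add, star_star, Complex.star_def, Complex.conj_I, neg_smul,
        add_comm (star x) x]
    · rw [smul_mul_assoc, mul_smul_comm, add_mul, mul_add, hx, hsx]
  have hstep : ∀ u ∈ O, ∀ v ∈ V, u * v ∈ V := by
    intro u hu v hv
    have huu : u ∈ unitary N := hΓ.sub u (hO u hu)
    refine ergodic_step h V hVcl u huu (hcu u hu) ?_ ?_ v hv
    · intro x hx
      exact lieC_bracket h hΓ (hcu u hu u rfl) hx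
    · intro x hx
      have h1 := lieC_conj hΓ (hΓ.star u (hO u hu)) hx
      rw [star_star] at h1
      exact h1
  let M : StarSubalgebra ℂ N :=
    { carrier := {a | (∀ v ∈ V, a * v ∈ V) ∧ ∀ v ∈ V, star a * v ∈ V}
      mul_mem' := by
        rintro a b ⟨ha, ha'⟩ ⟨hb, hb'⟩
        refine ⟨fun v hv => ?_, fun v hv => ?_⟩
        · rw [mul_assoc]
          exact ha _ (hb v hv)
        · rw [star_mul, mul_assoc]
          exact hb' _ (ha' v hv)
      add_mem' := by
        rintro a b ⟨ha, ha'⟩ ⟨hb, hb'⟩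
        refine ⟨fun v hv => ?_, fun v hv => ?_⟩
        · rw [add_mul]
          exact V.add_mem (ha v hv) (hb v hv)
        · rw [star_add, add_mul]
          exact V.add_mem (ha' v hv) (hb' v hv)
      algebraMap_mem' := by
        intro c
        refine ⟨fun v hv => ?_, fun v hv => ?_⟩
        · rw [Algebra.algebraMap_eq_smul_one, smul_mul_assoc, one_mul]
          exact V.smul_mem c hv
        · rw [Algebra.algebraMap_eq_smul_one, star_smul, star_one, smul_mul_assoc, one_mul]
          exact V.smul_mem _ hv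
      star_mem' := by
        rintro a ⟨ha, ha'⟩
        exact ⟨ha', by simpa using ha⟩ }
  have hMcl : Closed2 τ (M : Set N) := by
    intro a ha
    have key : ∀ v : N, ∀ ε : ℝ, 0 < ε → ∃ b ∈ (M : Set N), n2 τ (a - b) * ‖v‖ < ε := by
      intro v ε hε
      obtain ⟨b, hb, hlt⟩ := ha (ε / (‖v‖ + 1)) (by positivity)
      refine ⟨b, hb, ?_⟩
      have hv := norm_nonneg v
      have h1 : n2 τ (a - b) * (‖v‖ + 1) < ε := by
        rwa [lt_div_iff₀ (by positivity)] at hlt
      have h2 := n2_nonneg (τ := τ) (a - b)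
      nlinarith
    refine ⟨fun v hv => ?_, fun v hv => ?_⟩
    · apply hVcl
      intro ε hε
      obtain ⟨b, hb, hlt⟩ := key v ε hε
      refine ⟨b * v, hb.1 v hv, ?_⟩
      rw [← sub_mul]
      exact (n2_mul_le' h _ _).trans_lt hlt
    · apply hVcl
      intro ε hε
      obtain ⟨b, hb, hlt⟩ := key v ε hε
      refine ⟨star b * v, hb.2 v hv, ?_⟩
      rw [← sub_mul, ← star_sub]
      refine (n2_mul_le' h _ _).trans_lt ?_
      rw [n2_star h]
      exact hlt
  have hOM : O ⊆ (M : Set N) := fun u hu =>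
    ⟨fun v hv => hstep u hu v hv, fun v hv => hstep _ (hstar u hu) v hv⟩
  have hMtop : M = ⊤ := hgen M hMcl hOM
  have hyM : y ∈ M := by
    rw [hMtop]
    exact StarSubalgebra.mem_top
  obtain ⟨u, hu⟩ := hne
  have h1V : (1 : N) ∈ V := hcu u hu 1 (by rw [one_mul, mul_one])
  have hyV : y * 1 ∈ V := hyM.1 1 h1V
  rw [mul_one] at hyV
  have hyL : y - star y ∈ Lie Γ := hyV.1
  rw [hy, sub_neg_eq_add] at hyL
  have h2 := lie_smul (1 / 2) hyL
  have e : (((1 / 2 : ℝ)) : ℂ) • (y + y) = y := by
    rw [← two_smul ℂ y, smul_smul]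
    have : (((1 / 2 : ℝ)) : ℂ) * 2 = 1 := by
      push_cast
      norm_num
    rw [this, one_smul]
  rw [e] at h2
  exact h2

end SC
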