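import Mathlib

/-!
# My: Mycielski's theorem for countably many closed relations without interior

Enumerate: at level `k` choose for every `s : Fin k → Bool` (or `List Bool` of length `k`) a point
`x_s` and a radius `0 < r_k ≤ 2^{-k}` such that the closed ball of radius `r_{k+1}` around
`x_{s b}` lies in the open ball of radius `r_k` around `x_s`, and for all `s ≠ t` of length `k` and all
`n ≤ k`: no `(a, b) ∈ R n` with `dist a x_s ≤ r_k`, `dist b x_t ≤ r_k`.  Step: start with
`x_{s b} = x_s`; go through the finitely many triples `(n, s', t')` with `s' ≠ t'` of length `k+1`,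
`n ≤ k+1`; each time use `h` to move `x_{s'}`, `x_{t'}` slightly (all others fixed) to a pair outside
`R n`, and, `R n` being closed, shrink the radius so that the whole product of balls is outside
`R n`; the later moves stay inside the current balls.  `f s` = the point of the decreasing
intersection (`X` complete, radii to `0`); for `s ≠ t` and `n`, at a level `k ≥ n` where the
prefixes differ, `(f s, f t) ∉ R n`.
(Convenient intermediate lemma: for a finite type `ι`, points `x : ι → X`, `r > 0`, a finite set of
`n`'s, there are `y : ι → X` and `0 < ρ` with `closedBall (y i) ρ ⊆ ball (x i) r` and for all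
`i ≠ j` and these `n`: `(a, b) ∉ R n` whenever `a ∈ closedBall (y i) ρ`, `b ∈ closedBall (y j) ρ`.)
-/

open Filter Topology

namespace SC

/-- One level, for a finite set of triples. -/
theorem my_step {X : Type*} [MetricSpace X]
    (R : ℕ → Set (X × X)) (hcl : ∀ n, IsClosed (R n))
    (h : ∀ (n : ℕ) (x y : X) (r : ℝ), 0 < r →
      ∃ x' y' : X, dist x' x < r ∧ dist y' y < r ∧ (x', y') ∉ R n)
    {ι : Type*} [DecidableEq ι] (T : Finset (ℕ × ι × ι)) :
    ∀ (x : ι → X) (r : ℝ), 0 < r → ∃ (y : ι → X) (ρ : ℝ), 0 < ρ ∧
      (∀ i, Metric.closedBall (y i) ρ ⊆ Metric.ball (x i) r) ∧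
      ∀ p ∈ T, p.2.1 ≠ p.2.2 → ∀ a ∈ Metric.closedBall (y p.2.1) ρ,
        ∀ b ∈ Metric.closedBall (y p.2.2) ρ, (a, b) ∉ R p.1 := by
  classical
  induction T using Finset.induction_on with
  | empty =>
    intro x r hr
    exact ⟨x, r / 2, by positivity, fun i => Metric.closedBall_subset_ball (by linarith),
      by simp⟩
  | insert p T hp ih =>
    intro x r hr
    obtain ⟨y, ρ, hρ, hy, hT⟩ := ih x r hr
    obtain ⟨n, i, j⟩ := p
    by_cases hij : i = j
    · refine ⟨y, ρ, hρ, hy, ?_⟩
      intro q hq hne
      rcases Finset.mem_insert.1 hq with rfl | hq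
      · exact absurd hij hne
      · exact hT q hq hne
    · obtain ⟨x', y', hx', hy', hR⟩ := h n (y i) (y j) ρ hρ
      have hopen : IsOpen (R n)ᶜ := (hcl n).isOpen_compl
      obtain ⟨ε, hε, hball⟩ := Metric.isOpen_iff.1 hopen (x', y') hR
      set δ : ℝ := min (ε / 2) (min (ρ - dist x' (y i)) (ρ - dist y' (y j))) with hδ
      have hδ0 : 0 < δ := lt_min (by positivity) (lt_min (by linarith) (by linarith))
      have hδ1 : δ ≤ ε / 2 := min_le_left _ _
      have hδ2 : δ ≤ ρ - dist x' (y i) := (min_le_right _ _).trans (min_le_left _ _)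
      have hδ3 : δ ≤ ρ - dist y' (y j) := (min_le_right _ _).trans (min_le_right _ _)
      set z : ι → X := Function.update (Function.update y i x') j y' with hz
      have hzi : z i = x' := by
        rw [hz, Function.update_of_ne hij, Function.update_self]
      have hzj : z j = y' := by rw [hz, Function.update_self]
      have hsub : ∀ l, Metric.closedBall (z l) δ ⊆ Metric.closedBall (y l) ρ := by
        intro l
        apply Metric.closedBall_subset_closedBall'
        by_cases hlj : l = j
        · subst hlj
          rw [hzj]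
          linarith
        · by_cases hli : l = i
          · subst hli
            rw [hzi]
            linarith
          · have : z l = y l := by
              rw [hz, Function.update_of_ne hlj, Function.update_of_ne hli]
            rw [this, dist_self]
            have := dist_nonneg (x := x') (y := y i)
            linarith
      refine ⟨z, δ, hδ0, fun l => (hsub l).trans (hy l), ?_⟩
      intro q hq hne a ha b hb
      rcases Finset.mem_insert.1 hq with rfl | hq
      · simp only at ha hb ⊢
        rw [hzi] at ha
        rw [hzj] at hb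
        apply hball
        rw [Metric.mem_ball, Prod.dist_eq]
        rw [Metric.mem_closedBall] at ha hb
        exact max_lt (by simp only; linarith) (by simp only; linarith)
      · exact hT q hq hne a (hsub _ ha) b (hsub _ hb)

/-- The points and the radius of one level. -/
structure MySt (X : Type*) (k : ℕ) where
  pt : (Fin k → Bool) → X
  rad : ℝ
  pos : 0 < rad

theorem my_next {X : Type*} [MetricSpace X]
    (R : ℕ → Set (X × X)) (hcl : ∀ n, IsClosed (R n))
    (h : ∀ (n : ℕ) (x y : X) (r : ℝ), 0 < r →
      ∃ x' y' : X, dist x' x < r ∧ dist y' y < r ∧ (x', y') ∉ R n) (k : ℕ) (p : MySt X k) :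
    ∃ q : MySt X (k + 1), q.rad ≤ 1 / ((k : ℝ) + 1) ∧
      (∀ s : Fin (k + 1) → Bool, Metric.closedBall (q.pt s) q.rad ⊆
        Metric.ball (p.pt (fun i => s i.castSucc)) p.rad) ∧
      ∀ s t : Fin (k + 1) → Bool, s ≠ t → ∀ n ≤ k, ∀ a ∈ Metric.closedBall (q.pt s) q.rad,
        ∀ b ∈ Metric.closedBall (q.pt t) q.rad, (a, b) ∉ R n := by
  classical
  obtain ⟨y, ρ, hρ, hy, hT⟩ := my_step R hcl h
    (Finset.range (k + 1) ×ˢ (Finset.univ : Finset ((Fin (k + 1) → Bool) × (Fin (k + 1) → Bool))))
    (fun s => p.pt (fun i => s i.castSucc)) p.rad p.pos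
  have hk : (0 : ℝ) < 1 / ((k : ℝ) + 1) := by positivity
  refine ⟨⟨y, min ρ (1 / ((k : ℝ) + 1)), lt_min hρ hk⟩, min_le_right _ _, ?_, ?_⟩
  · intro s
    exact (Metric.closedBall_subset_closedBall (min_le_left _ _)).trans (hy s)
  · intro s t hst n hn a ha b hb
    exact hT (n, s, t) (Finset.mem_product.2 ⟨Finset.mem_range.2 (by omega), Finset.mem_univ _⟩)
      hst a (Metric.closedBall_subset_closedBall (min_le_left _ _) ha) b
      (Metric.closedBall_subset_closedBall (min_le_left _ _) hb)

theorem mycielski {X : Type*} [MetricSpace X] [CompleteSpace X] [Nonempty X]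
    (R : ℕ → Set (X × X)) (hcl : ∀ n, IsClosed (R n))
    (h : ∀ (n : ℕ) (x y : X) (r : ℝ), 0 < r →
      ∃ x' y' : X, dist x' x < r ∧ dist y' y < r ∧ (x', y') ∉ R n) :
    ∃ f : (ℕ → Bool) → X, ∀ s t : ℕ → Bool, s ≠ t → ∀ n, (f s, f t) ∉ R n := by
  classical
  choose nxt hn1 hn2 hn3 using my_next R hcl h
  let x0 : X := Classical.arbitrary X
  let L : ∀ k, MySt X k := fun k =>
    Nat.rec (motive := fun k => MySt X k) ⟨fun _ => x0, 1, one_pos⟩ (fun k p => nxt k p) k
  have hL : ∀ k, L (k + 1) = nxt k (L k) := fun k => rfl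
  let c : (ℕ → Bool) → ℕ → X := fun s k => (L k).pt (fun i => s i)
  have hstep : ∀ s k, Metric.closedBall (c s (k + 1)) (L (k + 1)).rad ⊆
      Metric.closedBall (c s k) (L k).rad := by
    intro s k
    have := hn2 k (L k) (fun i : Fin (k + 1) => s i)
    exact this.trans Metric.ball_subset_closedBall
  have hnest : ∀ s k l, k ≤ l → Metric.closedBall (c s l) (L l).rad ⊆
      Metric.closedBall (c s k) (L k).rad := by
    intro s k l hkl
    induction l, hkl using Nat.le_induction with
    | base => exact subset_rfl
    | succ l hkl ih => exact (hstep s l).trans ih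
  have hmem : ∀ s k l, k ≤ l → c s l ∈ Metric.closedBall (c s k) (L k).rad := fun s k l hkl =>
    hnest s k l hkl (Metric.mem_closedBall_self (L l).pos.le)
  have hrad : Tendsto (fun k => (L (k + 1)).rad) atTop (𝓝 0) := by
    refine squeeze_zero (fun k => (L (k + 1)).pos.le) (fun k => hn1 k (L k)) ?_
    exact tendsto_one_div_add_atTop_nhds_zero_nat
  have hlim : ∀ s, ∃ y, Tendsto (fun k => c s (k + 1)) atTop (𝓝 y) := by
    intro s
    apply cauchySeq_tendsto_of_complete
    refine cauchySeq_of_le_tendsto_0 (fun k => 2 * (L (k + 1)).rad) ?_ ?_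
    · intro n m N hn hm
      have h1 := Metric.mem_closedBall.1 (hmem s (N + 1) (n + 1) (by omega))
      have h2 := Metric.mem_closedBall.1 (hmem s (N + 1) (m + 1) (by omega))
      calc dist (c s (n + 1)) (c s (m + 1)) ≤ dist (c s (n + 1)) (c s (N + 1)) +
            dist (c s (m + 1)) (c s (N + 1)) := dist_triangle_right _ _ _
        _ ≤ 2 * (L (N + 1)).rad := by linarith
    · simpa using hrad.const_mul 2
  choose f hf using hlim
  have hfm : ∀ s k, f s ∈ Metric.closedBall (c s k) (L k).rad := by
    intro s k
    refine Metric.isClosed_closedBall.mem_of_tendsto (hf s) ?_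
    filter_upwards [eventually_ge_atTop k] with l hl
    exact hmem s k (l + 1) (by omega)
  refine ⟨f, ?_⟩
  intro s t hst n
  obtain ⟨j, hj⟩ := Function.ne_iff.1 hst
  have hne : (fun i : Fin (max n j + 1) => s i) ≠ (fun i : Fin (max n j + 1) => t i) := by
    intro heq
    exact hj (congrFun heq ⟨j, by omega⟩)
  exact hn3 (max n j) (L (max n j)) _ _ hne n (le_max_left _ _) _ (hfm s (max n j + 1)) _
    (hfm t (max n j + 1))

end SC
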