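import Pool.Agent.H77.SC.O1
import Pool.Agent.H77.SC.Ld
import Pool.Agent.H77.SC.Ux

/-!
# O2: the normaliser of a generating orbit is dense in the unitary group

`cl_group`: the 2-norm closure of a group of unitaries is a closed group of unitaries
(`unitary_closed`; products: `‖a b - a' b'‖₂ ≤ ‖a - a'‖₂ + ‖b - b'‖₂` for unitaries; adjoints:
`n2_star`; closure of the closure).
`nz_dense`: let `Γ` be the 2-norm closure of `Nz O`.  `lie_full` (with `nz_self`, `nz_comm`,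
`orb_star`, `orb_nonempty`; elements of `Nz O` are in `Γ` since `n2 0 = 0`) gives `y ∈ Lie Γ` for every
skew-adjoint `y`, so `exp y ∈ Γ` (`t = 1`).  By `unitary_exp` and closedness every unitary is in `Γ`.
-/

open Filter Topology

namespace SC

variable {N : Type*} [CStarAlgebra N] {τ : N →ₗ[ℂ] ℂ} {U : Ultrafilter ℕ} {O : Set N}

theorem cl_group (h : IsII1 τ) (G : Set N) (hG : ∀ w ∈ G, w ∈ unitary N) (h1 : (1 : N) ∈ G)
    (hm : ∀ w ∈ G, ∀ w' ∈ G, w * w' ∈ G) (hs : ∀ w ∈ G, star w ∈ G) :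
    ClGroup τ {x : N | ∀ ε : ℝ, 0 < ε → ∃ w ∈ G, n2 τ (x - w) < ε} := by
  have hsub : ∀ x ∈ {x : N | ∀ ε : ℝ, 0 < ε → ∃ w ∈ G, n2 τ (x - w) < ε}, x ∈ unitary N := by
    intro x hx
    apply unitary_closed h x
    intro ε hε
    obtain ⟨w, hw, hlt⟩ := hx ε hε
    exact ⟨w, hG w hw, hlt⟩
  refine ⟨hsub, ?_, ?_, ?_, ?_⟩
  · intro ε hε
    refine ⟨1, h1, ?_⟩
    rw [sub_self, n2_zero]
    exact hε
  · intro x hx x' hx' ε hε
    obtain ⟨w, hw, hlt⟩ := hx (ε / 2) (by positivity)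
    obtain ⟨w', hw', hlt'⟩ := hx' (ε / 2) (by positivity)
    refine ⟨w * w', hm w hw w' hw', ?_⟩
    have e : x * x' - w * w' = (x - w) * x' + w * (x' - w') := by
      rw [sub_mul, mul_sub]; abel
    rw [e]
    have h2 := n2_add_le h ((x - w) * x') (w * (x' - w'))
    rw [n2_unitary_right h (hsub x' hx'), n2_unitary_left (hG w hw)] at h2
    linarith
  · intro x hx ε hε
    obtain ⟨w, hw, hlt⟩ := hx ε hε
    refine ⟨star w, hs w hw, ?_⟩
    rw [← star_sub, n2_star h]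
    exact hlt
  · intro x hx ε hε
    obtain ⟨y, hy, hlt⟩ := hx (ε / 2) (by positivity)
    obtain ⟨w, hw, hlt'⟩ := hy (ε / 2) (by positivity)
    refine ⟨w, hw, ?_⟩
    have h2 := n2_sub_le h x y w
    linarith

theorem nz_dense (h : IsII1 τ) (hO : IsOrb τ U O) (hg : Generates τ O) (w : N)
    (hw : w ∈ unitary N) (ε : ℝ) (hε : 0 < ε) : ∃ w' ∈ Nz O, n2 τ (w - w') < ε := by
  have hΓ := cl_group h (Nz O) (fun w hw => hw.1) nz_one (fun w hw w' hw' => nz_mul hw hw')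
    (fun w hw => nz_star hw)
  have hin : ∀ w ∈ Nz O, w ∈ {x : N | ∀ ε : ℝ, 0 < ε → ∃ w ∈ Nz O, n2 τ (x - w) < ε} := by
    intro w hw ε hε
    refine ⟨w, hw, ?_⟩
    rw [sub_self, n2_zero]
    exact hε
  have hmem : w ∈ {x : N | ∀ ε : ℝ, 0 < ε → ∃ w ∈ Nz O, n2 τ (x - w) < ε} := by
    apply hΓ.closed w
    intro δ hδ
    obtain ⟨y, hy, _, hlt⟩ := unitary_exp h hw δ hδ
    refine ⟨NormedSpace.exp y, ?_, hlt⟩
    have hL := lie_full h hΓ O (orb_nonempty hO) (fun u hu => hin u (nz_self h hO hu))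
      (fun u hu w hw hwu => hin w (nz_comm h hO hu hw hwu)) (fun u hu => orb_star h hO hu) hg y hy
    have h1 := hL.2 1
    rwa [Complex.ofReal_one, one_smul] at h1
  exact hmem ε hε

end SC
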