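import Pool.Agent.H77.SC.O2
import Pool.Agent.H77.SC.Cp4
import Pool.Agent.H77.SC.Bl

/-!
# O3: generating = dense = somewhere dense

`dense_of_gen`: let `v` be a Haar unitary, `ε > 0`, `u ∈ O`.  `haar_conj_dense`: a unitary `w` with
`‖w u w* - v‖₂ < ε/2`; `nz_dense`: `w' ∈ Nz O` with `‖w - w'‖₂ < ε/4`; by `n2_conj_sub`
`‖w u w* - w' u w'*‖₂ ≤ 2 ‖w - w'‖₂ < ε/2`, and `w' u w'* ∈ O`.
Dense implies somewhere dense: `O` is nonempty, take `v ∈ O` and `r = 1`.  Somewhere dense implies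
generating: `somewhere_gen`.
-/

open Filter Topology

namespace SC

variable {N : Type*} [CStarAlgebra N] {τ : N →ₗ[ℂ] ℂ} {U : Ultrafilter ℕ} {O : Set N}

theorem dense_of_gen (h : IsII1 τ) (hO : IsOrb τ U O) (hg : Generates τ O) : Dense2 τ O := by
  intro v hv ε hε
  obtain ⟨u, hu⟩ := orb_nonempty hO
  have huH := orb_haar hO hu
  obtain ⟨w, hw, hlt⟩ := haar_conj_dense h huH hv (ε / 2) (by positivity)
  obtain ⟨w', hw', hlt'⟩ := nz_dense h hO hg w hw (ε / 4) (by positivity)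
  refine ⟨w' * u * star w', (hw'.2 u).1 hu, ?_⟩
  have h1 := n2_conj_sub h huH.1 hw hw'.1
  have h2 := n2_sub_le h v (w * u * star w) (w' * u * star w')
  rw [n2_sub_comm v (w * u * star w)] at h2
  linarith

theorem somewhere_of_dense (hO : IsOrb τ U O) (hd : Dense2 τ O) : SomewhereDense τ O := by
  obtain ⟨u, hu⟩ := orb_nonempty hO
  exact ⟨u, orb_haar hO hu, 1, one_pos, fun v' hv' _ ε hε => hd v' hv' ε hε⟩

theorem gen_iff_dense (h : IsII1 τ) (hO : IsOrb τ U O) : Generates τ O ↔ Dense2 τ O :=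
  ⟨dense_of_gen h hO, fun hd => somewhere_gen h O (somewhere_of_dense hO hd)⟩

theorem gen_iff_somewhere (h : IsII1 τ) (hO : IsOrb τ U O) :
    Generates τ O ↔ SomewhereDense τ O :=
  ⟨fun hg => somewhere_of_dense hO (dense_of_gen h hO hg), somewhere_gen h O⟩

end SC
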