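import Pool.Agent.H77.SC.X3
import Pool.Agent.H77.SC.U1

/-!
# X4: a II₁ factor contains a Haar unitary

Iterating `half`: projections `e k j`, `j < 2^k`, with `e 0 0 = 1`,
`e k j = e (k+1) (2j) + e (k+1) (2j+1)`, `e k i * e k j = 0` for `i ≠ j`, `τ(e k j) = 2^{-k}`.
`u_k = Σ_{j < 2^k} exp (2π i j/2^k) e k j` is unitary,
`u_{k+1} - u_k = Σ_j (exp (2π i (2j+1)/2^{k+1}) - exp (2π i 2j/2^{k+1})) e (k+1) (2j+1)` has norm
`≤ 2π/2^{k+1}` (or: its 2-norm is at most that; orthogonal projections), so `u_k` converges to some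
`u` in norm (or in the 2-norm, `IsII1.complete`), `u` is unitary, and
`τ(u^m) = lim τ(u_k^m) = lim 2^{-k} Σ_{j<2^k} exp (2π i j m/2^k) = 0` for `m ≥ 1` (the sum vanishes
when `2^k > m`).
(Alternative without a tree: build `u_k` by recursion keeping `u_k^{2^k} = 1`,
`τ(u_k^m) = 0` for `0 < m < 2^k`.)
-/

open Filter Topology

namespace SC

variable {N : Type*} [CStarAlgebra N] {τ : N →ₗ[ℂ] ℂ}

private structure HS (τ : N →ₗ[ℂ] ℂ) (k : ℕ) (e : ℕ → N) : Prop where
  sa : ∀ j, j < 2 ^ k → star (e j) = e j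
  idem : ∀ j, j < 2 ^ k → e j * e j = e j
  orth : ∀ i, i < 2 ^ k → ∀ j, j < 2 ^ k → i ≠ j → e i * e j = 0
  sum : ∑ j ∈ Finset.range (2 ^ k), e j = 1
  tr : ∀ j, j < 2 ^ k → τ (e j) = (1 / 2) ^ k

private theorem hs_mul {k : ℕ} {e : ℕ → N} (H : HS τ k e) (a b : ℕ → ℂ) :
    (∑ j ∈ Finset.range (2 ^ k), a j • e j) * (∑ j ∈ Finset.range (2 ^ k), b j • e j) =
      ∑ j ∈ Finset.range (2 ^ k), (a j * b j) • e j := by
  rw [Finset.sum_mul]
  refine Finset.sum_congr rfl fun i hi => ?_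
  rw [Finset.mem_range] at hi
  rw [Finset.mul_sum, Finset.sum_eq_single i]
  · rw [smul_mul_smul_comm, H.idem i hi]
  · intro j hj hji
    rw [Finset.mem_range] at hj
    rw [smul_mul_smul_comm, H.orth i hi j hj (Ne.symm hji), smul_zero]
  · intro h
    exact absurd (Finset.mem_range.2 hi) h

private theorem hs_star {k : ℕ} {e : ℕ → N} (H : HS τ k e) (a : ℕ → ℂ) :
    star (∑ j ∈ Finset.range (2 ^ k), a j • e j) =
      ∑ j ∈ Finset.range (2 ^ k), (star (a j)) • e j := by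
  rw [star_sum]
  refine Finset.sum_congr rfl fun i hi => ?_
  rw [star_smul, H.sa i (Finset.mem_range.1 hi)]

private theorem hs_one {k : ℕ} {e : ℕ → N} (H : HS τ k e) :
    ∑ j ∈ Finset.range (2 ^ k), (1 : ℂ) • e j = 1 := by
  simp only [one_smul]
  exact H.sum

private theorem hs_pow {k : ℕ} {e : ℕ → N} (H : HS τ k e) (a : ℕ → ℂ) (m : ℕ) :
    (∑ j ∈ Finset.range (2 ^ k), a j • e j) ^ m =
      ∑ j ∈ Finset.range (2 ^ k), (a j ^ m) • e j := by
  induction m with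
  | zero =>
    simp only [pow_zero]
    exact (hs_one H).symm
  | succ m ih =>
    rw [pow_succ, ih, hs_mul H]
    refine Finset.sum_congr rfl fun i _ => ?_
    rw [pow_succ]

private theorem hs_unitary {k : ℕ} {e : ℕ → N} (H : HS τ k e) (a : ℕ → ℂ) (ha : ∀ j, ‖a j‖ = 1) :
    (∑ j ∈ Finset.range (2 ^ k), a j • e j) ∈ unitary N := by
  have h1 : ∀ j, star (a j) * a j = 1 := fun j => by
    have h2 := Complex.conj_mul' (a j)
    rw [ha j] at h2
    simpa using h2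
  rw [Unitary.mem_iff]
  constructor
  · rw [hs_star H, hs_mul H, ← hs_one H]
    exact Finset.sum_congr rfl fun i _ => by rw [h1]
  · rw [hs_star H, hs_mul H, ← hs_one H]
    exact Finset.sum_congr rfl fun i _ => by rw [mul_comm, h1]

private theorem sum_two {M : Type*} [AddCommMonoid M] (F : ℕ → M) (n : ℕ) :
    ∑ i ∈ Finset.range (2 * n), F i = ∑ j ∈ Finset.range n, (F (2 * j) + F (2 * j + 1)) := by
  induction n with
  | zero => simp
  | succ n ih =>
    rw [show 2 * (n + 1) = 2 * n + 1 + 1 by ring, Finset.sum_range_succ, Finset.sum_range_succ, ih,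
      Finset.sum_range_succ, add_assoc]

private theorem hs_step (h : IsII1 τ) {k : ℕ} {e : ℕ → N} (H : HS τ k e) :
    ∃ e' : ℕ → N, HS τ (k + 1) e' ∧ ∀ j, j < 2 ^ k → e j = e' (2 * j) + e' (2 * j + 1) := by
  have hf : ∀ j, ∃ f : N, j < 2 ^ k → star f = f ∧ f * f = f ∧ e j * f = f ∧
      τ f = τ (e j) / 2 := by
    intro j
    by_cases hj : j < 2 ^ k
    · obtain ⟨f, h1, h2, h3, h4⟩ := half h (H.sa j hj) (H.idem j hj)
      exact ⟨f, fun _ => ⟨h1, h2, h3, h4⟩⟩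
    · exact ⟨0, fun h' => absurd h' hj⟩
  choose f hf using hf
  have hfe : ∀ j, j < 2 ^ k → f j * e j = f j := fun j hj => by
    have h1 := congrArg star (hf j hj).2.2.1
    rwa [star_mul, (hf j hj).1, H.sa j hj] at h1
  obtain ⟨e', he'⟩ : ∃ e' : ℕ → N, ∀ n, e' n = if n % 2 = 0 then f (n / 2) else e (n / 2) - f (n / 2) :=
    ⟨_, fun _ => rfl⟩
  have hlt : ∀ n, n < 2 ^ (k + 1) → n / 2 < 2 ^ k := fun n hn => by
    rw [pow_succ] at hn
    omega
  have hl : ∀ n, n < 2 ^ (k + 1) → e (n / 2) * e' n = e' n := fun n hn => by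
    rw [he']
    split_ifs
    · exact (hf _ (hlt n hn)).2.2.1
    · rw [mul_sub, H.idem _ (hlt n hn), (hf _ (hlt n hn)).2.2.1]
  have hr : ∀ n, n < 2 ^ (k + 1) → e' n * e (n / 2) = e' n := fun n hn => by
    rw [he']
    split_ifs
    · exact hfe _ (hlt n hn)
    · rw [sub_mul, H.idem _ (hlt n hn), hfe _ (hlt n hn)]
  have hev : ∀ j, e' (2 * j) = f j := fun j => by
    rw [he', if_pos (by omega), show 2 * j / 2 = j by omega]
  have hod : ∀ j, e' (2 * j + 1) = e j - f j := fun j => by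
    rw [he', if_neg (by omega), show (2 * j + 1) / 2 = j by omega]
  have hdec : ∀ j, e j = e' (2 * j) + e' (2 * j + 1) := fun j => by
    rw [hev, hod]
    abel
  refine ⟨e', ⟨?_, ?_, ?_, ?_, ?_⟩, fun j _ => hdec j⟩
  · intro n hn
    rw [he']
    split_ifs
    · exact (hf _ (hlt n hn)).1
    · rw [star_sub, H.sa _ (hlt n hn), (hf _ (hlt n hn)).1]
  · intro n hn
    rw [he']
    split_ifs
    · exact (hf _ (hlt n hn)).2.1
    · rw [sub_mul, mul_sub, mul_sub, H.idem _ (hlt n hn), (hf _ (hlt n hn)).2.2.1,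
        hfe _ (hlt n hn), (hf _ (hlt n hn)).2.1, sub_self, sub_zero]
  · intro i hi j hj hij
    by_cases hq : i / 2 = j / 2
    · rw [he' i, he' j, hq]
      have h2 := hf _ (hlt j hj)
      split_ifs with hi2 hj2 hj2
      · exfalso
        omega
      · rw [mul_sub, hfe _ (hlt j hj), h2.2.1, sub_self]
      · rw [sub_mul, h2.2.2.1, h2.2.1, sub_self]
      · exfalso
        omega
    · rw [← hr i hi, ← hl j hj, mul_assoc, ← mul_assoc (e (i / 2)),
        H.orth _ (hlt i hi) _ (hlt j hj) hq, zero_mul, mul_zero]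
  · rw [pow_succ, mul_comm, sum_two, ← H.sum]
    exact Finset.sum_congr rfl fun j _ => (hdec j).symm
  · intro n hn
    rw [he']
    split_ifs
    · rw [(hf _ (hlt n hn)).2.2.2, H.tr _ (hlt n hn), pow_succ]
      ring
    · rw [map_sub, (hf _ (hlt n hn)).2.2.2, H.tr _ (hlt n hn), pow_succ]
      ring

private noncomputable def zz (k : ℕ) : ℂ :=
  Complex.exp (2 * Real.pi * Complex.I / ((2 ^ k : ℕ) : ℂ))

private theorem zz_prim (k : ℕ) : IsPrimitiveRoot (zz k) (2 ^ k) :=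
  Complex.isPrimitiveRoot_exp _ (by positivity)

private theorem zz_norm (k : ℕ) : ‖zz k‖ = 1 := by
  have h1 := (zz_prim k).norm'_eq_one (by positivity)
  exact h1

private theorem zz_sq (k : ℕ) : zz (k + 1) ^ 2 = zz k := by
  rw [zz, zz, ← Complex.exp_nat_mul]
  congr 1
  push_cast
  rw [pow_succ]
  field_simp

private theorem zz_sub (k : ℕ) : ‖zz (k + 1) - 1‖ ≤ Real.pi * (1 / 2) ^ k := by
  have h1 : zz (k + 1) = Complex.exp (Complex.I * ((Real.pi * (1 / 2) ^ k : ℝ) : ℂ)) := by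
    rw [zz]
    congr 1
    push_cast
    rw [pow_succ, one_div, inv_pow]
    field_simp
  rw [h1]
  refine (Real.norm_exp_I_mul_ofReal_sub_one_le (x := Real.pi * (1 / 2) ^ k)).trans ?_
  rw [Real.norm_eq_abs, abs_of_nonneg (by positivity)]

private noncomputable def UU (k : ℕ) (e : ℕ → N) : N :=
  ∑ j ∈ Finset.range (2 ^ k), (zz k ^ j) • e j

private theorem UU_unitary {k : ℕ} {e : ℕ → N} (H : HS τ k e) : UU k e ∈ unitary N :=
  hs_unitary H _ fun j => by rw [norm_pow, zz_norm, one_pow]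

private theorem UU_tr {k : ℕ} {e : ℕ → N} (H : HS τ k e) {m : ℕ} (hm : 0 < m) (hm2 : m < 2 ^ k) :
    τ (UU k e ^ m) = 0 := by
  rw [UU, hs_pow H, map_sum]
  have h1 : ∀ j ∈ Finset.range (2 ^ k), τ ((zz k ^ j) ^ m • e j) = (zz k ^ m) ^ j * (1 / 2) ^ k := by
    intro j hj
    rw [map_smul, smul_eq_mul, H.tr j (Finset.mem_range.1 hj), ← pow_mul, ← pow_mul, mul_comm j m]
  rw [Finset.sum_congr rfl h1, ← Finset.sum_mul]
  have h2 := geom_sum_mul (zz k ^ m) (2 ^ k)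
  have h3 : (zz k ^ m) ^ (2 ^ k) = 1 := by
    rw [← pow_mul, mul_comm, pow_mul, (zz_prim k).pow_eq_one, one_pow]
  have h4 : zz k ^ m ≠ 1 := (zz_prim k).pow_ne_one_of_pos_of_lt hm.ne' hm2
  rw [h3, sub_self] at h2
  rcases mul_eq_zero.1 h2 with h5 | h5
  · rw [h5, zero_mul]
  · exact absurd (sub_eq_zero.1 h5) h4

private theorem proj_norm {q : N} (h1 : star q = q) (h2 : q * q = q) : ‖q‖ ≤ 1 := by
  have h3 : ‖star q * q‖ = ‖q‖ * ‖q‖ := CStarRing.norm_star_mul_self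
  rw [h1, h2] at h3
  by_contra h4
  push Not at h4
  nlinarith

private theorem UU_sub {k : ℕ} {e e' : ℕ → N} (H : HS τ (k + 1) e')
    (hU : ‖UU k e‖ ≤ 1) (he : ∀ j, j < 2 ^ k → e j = e' (2 * j) + e' (2 * j + 1)) :
    ‖UU (k + 1) e' - UU k e‖ ≤ Real.pi * (1 / 2) ^ k := by
  have h1 : UU k e = ∑ i ∈ Finset.range (2 ^ (k + 1)), (zz k ^ (i / 2)) • e' i := by
    rw [pow_succ, mul_comm, sum_two, UU]
    refine Finset.sum_congr rfl fun j hj => ?_
    rw [show 2 * j / 2 = j by omega, show (2 * j + 1) / 2 = j by omega, ← smul_add,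
      ← he j (Finset.mem_range.1 hj)]
  obtain ⟨q, hq⟩ : ∃ q : N, q = ∑ i ∈ Finset.range (2 ^ (k + 1)),
      (if i % 2 = 0 then (0 : ℂ) else 1) • e' i := ⟨_, rfl⟩
  have hq1 : star q = q := by
    rw [hq, hs_star H]
    refine Finset.sum_congr rfl fun i _ => ?_
    split_ifs <;> simp
  have hq2 : q * q = q := by
    rw [hq, hs_mul H]
    refine Finset.sum_congr rfl fun i _ => ?_
    split_ifs <;> simp
  have h2 : UU (k + 1) e' - UU k e = (zz (k + 1) - 1) • (UU k e * q) := by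
    rw [h1, hq, hs_mul H, UU, Finset.smul_sum, ← Finset.sum_sub_distrib]
    refine Finset.sum_congr rfl fun i _ => ?_
    rw [← sub_smul, smul_smul]
    congr 1
    rw [← zz_sq k, ← pow_mul]
    split_ifs with hi
    · rw [show 2 * (i / 2) = i by omega]
      ring
    · have h3 : i = 2 * (i / 2) + 1 := by omega
      conv_lhs => rw [h3]
      rw [show (2 * (i / 2) + 1) / 2 = i / 2 by omega, pow_succ]
      ring
  rw [h2, norm_smul]
  have h4 : ‖UU k e * q‖ ≤ 1 := by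
    refine (norm_mul_le _ _).trans ?_
    exact mul_le_one₀ hU (norm_nonneg _) (proj_norm hq1 hq2)
  have h5 := zz_sub k
  calc ‖zz (k + 1) - 1‖ * ‖UU k e * q‖ ≤ ‖zz (k + 1) - 1‖ * 1 :=
        mul_le_mul_of_nonneg_left h4 (norm_nonneg _)
    _ ≤ Real.pi * (1 / 2) ^ k := by rw [mul_one]; exact h5

theorem haar_exists (h : IsII1 τ) : (Haar τ).Nonempty := by
  have h0 : HS τ 0 (fun _ => (1 : N)) := by
    refine ⟨fun _ _ => star_one _, fun _ _ => mul_one _, fun i hi j hj hij => ?_, ?_, fun _ _ => ?_⟩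
    · rw [pow_zero] at hi hj
      omega
    · simp
    · simp [h.map_one]
  choose E' hE' using fun (k : ℕ) (e : {e : ℕ → N // HS τ k e}) => hs_step h e.2
  obtain ⟨S, hS⟩ : ∃ S : (k : ℕ) → {e : ℕ → N // HS τ k e},
      ∀ k, (S (k + 1)).1 = E' k (S k) :=
    ⟨fun k => Nat.rec ⟨_, h0⟩ (fun k e => ⟨E' k e, (hE' k e).1⟩) k, fun k => rfl⟩
  have hS' : ∀ k j, j < 2 ^ k → (S k).1 j = (S (k + 1)).1 (2 * j) + (S (k + 1)).1 (2 * j + 1) := by
    intro k j hj
    rw [hS]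
    exact (hE' k (S k)).2 j hj
  obtain ⟨u, hu⟩ : ∃ u : ℕ → N, ∀ k, u k = UU k (S k).1 := ⟨_, fun _ => rfl⟩
  have huu : ∀ k, u k ∈ unitary N := fun k => by
    rw [hu]
    exact UU_unitary (S k).2
  have hd : ∀ k, dist (u k) (u (k + 1)) ≤ Real.pi * (1 / 2) ^ k := fun k => by
    rw [dist_comm, dist_eq_norm, hu, hu]
    refine UU_sub (S (k + 1)).2 ?_ (hS' k)
    rw [← hu]
    exact norm_unitary_le (huu k)
  have hc : CauchySeq u := cauchySeq_of_le_geometric (1 / 2) Real.pi (by norm_num) hd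
  obtain ⟨v, hv⟩ := cauchySeq_tendsto_of_complete hc
  have hn : Tendsto (fun k => ‖v - u k‖) atTop (𝓝 0) := by
    have h1 := (tendsto_iff_norm_sub_tendsto_zero.1 hv)
    refine h1.congr fun k => norm_sub_rev _ _
  have hvu : v ∈ unitary N := by
    apply unitary_closed h v
    intro ε hε
    obtain ⟨k, hk⟩ := ((tendsto_order.1 hn).2 ε hε).exists
    exact ⟨u k, huu k, lt_of_le_of_lt (n2_le_norm h _) hk⟩
  refine ⟨v, hvu, fun m hm => ?_⟩
  have hev : ∀ᶠ k in atTop, ‖τ (v ^ m)‖ ≤ m * ‖v - u k‖ := by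
    filter_upwards [eventually_ge_atTop m] with k hk
    have hm2 : m < 2 ^ k := lt_of_le_of_lt hk Nat.lt_two_pow_self
    have e : τ (v ^ m) = τ (v ^ m - u k ^ m) := by
      rw [map_sub, hu, UU_tr (S k).2 (by omega) hm2, sub_zero]
    rw [e]
    refine (tau_le_n2 h _).trans ((n2_pow_sub h hvu (huu k) m).trans ?_)
    exact mul_le_mul_of_nonneg_left (n2_le_norm h _) (Nat.cast_nonneg m)
  have hlim : Tendsto (fun k => (m : ℝ) * ‖v - u k‖) atTop (𝓝 0) := by
    have h1 := hn.const_mul (m : ℝ)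
    rwa [mul_zero] at h1
  have h2 : ‖τ (v ^ m)‖ ≤ 0 := ge_of_tendsto hlim hev
  exact norm_eq_zero.1 (le_antisymm h2 (norm_nonneg _))

end SC
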