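import Pool.Agent.H77.SC.G
import Pool.Agent.H77.SC.X4

/-!
# R: the statement in terms of `W*(O) = M`
-/

open Filter Topology

namespace SC

variable {N : Type*} [CStarAlgebra N] {τ : N →ₗ[ℂ] ℂ} {U : Ultrafilter ℕ} {O : Set N}

theorem closed2_top : Closed2 τ ((⊤ : StarSubalgebra ℂ N) : Set N) := fun _ _ => trivial

theorem genBy_top (hg : Generates τ O) : IsGenBy τ O ⊤ :=
  ⟨closed2_top, fun _ _ => trivial, fun M' h1 h2 => (hg M' h1 h2).ge⟩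

theorem gen_of_genBy (hg : IsGenBy τ O ⊤) : Generates τ O :=
  fun M' h1 h2 => top_le_iff.mp (hg.2.2 M' h1 h2)

theorem isFac_top (h : IsII1 τ) : IsFac (⊤ : StarSubalgebra ℂ N) :=
  fun z _ hz => h.factor z fun x => hz x trivial

theorem orb_ne_of_not_path {u v : N} (hv : v ∈ Haar τ)
    (hn : ∀ n, ¬ Path τ U n u v) : Orb τ U u ≠ Orb τ U v := by
  intro he
  have h1 : v ∈ Orb τ U v := ⟨hv, 0, path_refl hv 0⟩
  rw [← he] at h1
  obtain ⟨_, n, hp⟩ := h1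
  exact hn n hp

theorem main (h : IsII1 τ) (hU : (U : Filter ℕ) ≤ cofinite) :
    (Haar τ).Nonempty ∧
    (∀ (O : Set N) (M : StarSubalgebra ℂ N), IsOrb τ U O → IsGenBy τ O M → IsFac M →
      (∀ v ∈ Haar τ, v ∈ M → ∀ ε : ℝ, 0 < ε → ∃ u ∈ O, n2 τ (v - u) < ε) ∧
      ((O = {v : N | v ∈ Haar τ ∧ v ∈ M} ∧ ∃ n, ∀ u ∈ O, ∀ v ∈ O, Path τ U n u v) ∨
        (O ≠ {v : N | v ∈ Haar τ ∧ v ∈ M} ∧ ∃ w : (ℕ → Bool) → N,
          (∀ s, w s ∈ unitary N ∧ w s ∈ M ∧ IsOrb τ U (conjSet (w s) O) ∧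
            IsGenBy τ (conjSet (w s) O) M) ∧
          ∀ s t, s ≠ t → conjSet (w s) O ≠ conjSet (w t) O))) ∧
    (∀ O : Set N, IsOrb τ U O → SomewhereDense τ O → IsGenBy τ O ⊤) ∧
    ((∀ O : Set N, IsOrb τ U O → ¬ IsGenBy τ O ⊤) → ∃ f : (ℕ → Bool) → N,
      (∀ s, f s ∈ Haar τ) ∧ ∀ s t, s ≠ t → Orb τ U (f s) ≠ Orb τ U (f t)) := by
  obtain ⟨h1, h2, h3⟩ := structure_orbits h hU
  refine ⟨haar_exists h, fun O M hO hM hf => (h1 O hO M hM).1 hf,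
    fun O hO hs => genBy_top ((h2 O hO).2.mpr hs), fun hno => ?_⟩
  obtain ⟨f, hf, hd⟩ := h3 (haar_exists h) fun O hO hg => hno O hO (genBy_top hg)
  exact ⟨f, hf, fun s t hst => orb_ne_of_not_path (hf t) fun n => hd s t hst n⟩

end SC
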