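import Pool.Agent.H77.SC.U1

/-!
# S0: a 2-norm closed *-subalgebra with trivial centre is a II₁ factor

`isClosed_of_closed2`: `n2 τ x ≤ ‖x‖` (`n2_le_norm`).
`sub_ii1`: `M` with the restricted trace.  Completeness: a 2-norm Cauchy sequence in the unit ball of
`M` has a limit `y ∈ N`, `‖y‖ ≤ 1`; `y ∈ M` as `M` is closed in the 2-norm (the norm of `M` is the
restricted norm).  Infinite-dimensional: for a Haar unitary `u ∈ M` the powers `u^k`, `k : ℕ`, are
orthonormal for `(x, y) ↦ τ(x* y)` (`τ(u*^k u^l) = τ(u^{l-k})` or its conjugate), so linearly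
independent.
The other lemmas compare the notions of `M` and `N` (`rfl` up to coercions).
-/

open Filter Topology

namespace SC

variable {N : Type*} [CStarAlgebra N] {τ : N →ₗ[ℂ] ℂ}

/-- `M = W*(O)`: `M` is the smallest 2-norm closed *-subalgebra containing `O`. -/
def IsGenBy (τ : N →ₗ[ℂ] ℂ) (O : Set N) (M : StarSubalgebra ℂ N) : Prop :=
  Closed2 τ (M : Set N) ∧ O ⊆ (M : Set N) ∧
    ∀ M' : StarSubalgebra ℂ N, Closed2 τ (M' : Set N) → O ⊆ (M' : Set N) → M ≤ M'

/-- `M` has trivial centre. -/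
def IsFac (M : StarSubalgebra ℂ N) : Prop :=
  ∀ z ∈ M, (∀ x ∈ M, z * x = x * z) → ∃ c : ℂ, z = c • (1 : N)

/-- the restriction of `τ` to `M` -/
noncomputable def subτ (τ : N →ₗ[ℂ] ℂ) (M : StarSubalgebra ℂ N) : M →ₗ[ℂ] ℂ :=
  τ.comp M.subtype.toAlgHom.toLinearMap

/-- `M` as a C*-algebra -/
@[reducible] noncomputable def subC (M : StarSubalgebra ℂ N) (hc : IsClosed (M : Set N)) :
    CStarAlgebra M := StarSubalgebra.cstarAlgebra M (h_closed := hc)

theorem isClosed_of_closed2 (h : IsII1 τ) {S : Set N} (hS : Closed2 τ S) : IsClosed S := by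
  refine isClosed_of_closure_subset fun x hx => hS x fun ε hε => ?_
  obtain ⟨y, hy, hd⟩ := Metric.mem_closure_iff.1 hx ε hε
  refine ⟨y, hy, lt_of_le_of_lt (n2_le_norm h _) ?_⟩
  rwa [dist_eq_norm] at hd

theorem star_pow_mul_pow {u : N} (hu : u ∈ unitary N) (i d : ℕ) :
    star (u ^ i) * u ^ (i + d) = u ^ d := by
  rw [pow_add, ← mul_assoc, Unitary.star_mul_self_of_mem (pow_mem hu i), one_mul]

theorem star_pow_mul_pow' {u : N} (hu : u ∈ unitary N) (i d : ℕ) :
    star (u ^ (i + d)) * u ^ i = star (u ^ d) := by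
  have h1 := congrArg star (star_pow_mul_pow hu i d)
  rwa [star_mul, star_star] at h1

/-- the powers of a Haar unitary are linearly independent -/
theorem haar_linInd (h : IsII1 τ) {u : N} (hu : u ∈ Haar τ) :
    LinearIndependent ℂ (fun k : ℕ => u ^ k) := by
  rw [linearIndependent_iff']
  intro s g hg i hi
  have h1 : τ (star (u ^ i) * ∑ k ∈ s, g k • u ^ k) = 0 := by rw [hg, mul_zero, map_zero]
  rw [Finset.mul_sum, map_sum] at h1
  have h2 : ∀ k ∈ s, k ≠ i → τ (star (u ^ i) * (g k • u ^ k)) = 0 := by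
    intro k _ hki
    rw [mul_smul_comm, map_smul, smul_eq_mul]
    rcases lt_or_gt_of_ne hki with hlt | hgt
    · obtain ⟨d, rfl⟩ := Nat.exists_eq_add_of_lt hlt
      rw [add_assoc, star_pow_mul_pow' hu.1, tau_star h, hu.2 _ (Nat.le_add_left 1 d), map_zero,
        mul_zero]
    · obtain ⟨d, rfl⟩ := Nat.exists_eq_add_of_lt hgt
      rw [add_assoc, star_pow_mul_pow hu.1, hu.2 _ (Nat.le_add_left 1 d), mul_zero]
  rw [Finset.sum_eq_single_of_mem i hi h2, mul_smul_comm, map_smul, smul_eq_mul,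
    Unitary.star_mul_self_of_mem (pow_mem hu.1 i), h.map_one, mul_one] at h1
  exact h1

theorem not_fin_sub (h : IsII1 τ) (M : StarSubalgebra ℂ N) (hH : ∃ u ∈ Haar τ, u ∈ M) :
    ¬ FiniteDimensional ℂ M := by
  intro hfin
  obtain ⟨u, hu, huM⟩ := hH
  have hl : LinearIndependent ℂ (fun k : ℕ => (⟨u, huM⟩ : M) ^ k) := by
    refine LinearIndependent.of_comp M.subtype.toAlgHom.toLinearMap ?_
    exact haar_linInd h hu
  have := hl.finite
  exact not_finite ℕ

theorem sub_ii1 (h : IsII1 τ) (M : StarSubalgebra ℂ N) (hM : Closed2 τ (M : Set N))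
    (hc : IsClosed (M : Set N)) (hfac : IsFac M) (hH : ∃ u ∈ Haar τ, u ∈ M) :
    letI := subC M hc
    IsII1 (subτ τ M) := by
  letI := subC M hc
  refine ⟨h.map_one, fun x y => h.tracial x y, fun x => h.nonneg x, fun x => h.real x,
    fun x hx => Subtype.ext (h.faithful x hx), ?_, ?_, not_fin_sub h M hH⟩
  · intro x hx hcau
    obtain ⟨y, hy, hlim⟩ := h.complete (fun k => (x k : N)) hx hcau
    have hyM : y ∈ M := by
      refine hM y fun ε hε => ?_
      obtain ⟨k, hk⟩ := ((tendsto_order.1 hlim).2 ε hε).exists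
      refine ⟨x k, (x k).2, ?_⟩
      rwa [n2_sub_comm]
    exact ⟨⟨y, hyM⟩, hy, hlim⟩
  · intro z hz
    obtain ⟨c, hcz⟩ := hfac z z.2 fun x hx => congrArg Subtype.val (hz ⟨x, hx⟩)
    exact ⟨c, Subtype.ext hcz⟩

theorem sub_n2 (M : StarSubalgebra ℂ N) (hc : IsClosed (M : Set N)) (x : M) :
    letI := subC M hc
    n2 (subτ τ M) x = n2 τ (x : N) := by
  rfl

theorem sub_unitary (M : StarSubalgebra ℂ N) (x : M) :
    x ∈ unitary M ↔ (x : N) ∈ unitary N := by
  rw [Unitary.mem_iff, Unitary.mem_iff, Subtype.ext_iff, Subtype.ext_iff]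
  rfl

theorem sub_haar (M : StarSubalgebra ℂ N) (hc : IsClosed (M : Set N)) (x : M) :
    letI := subC M hc
    x ∈ Haar (subτ τ M) ↔ (x : N) ∈ Haar τ := by
  letI := subC M hc
  constructor
  · rintro ⟨h1, h2⟩
    exact ⟨(sub_unitary M x).1 h1, h2⟩
  · rintro ⟨h1, h2⟩
    exact ⟨(sub_unitary M x).2 h1, h2⟩

theorem sub_exp_coe (M : StarSubalgebra ℂ N) (hc : IsClosed (M : Set N)) (x : M) :
    letI := subC M hc
    ((NormedSpace.exp x : M) : N) = NormedSpace.exp (x : N) := by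
  letI := subC M hc
  exact NormedSpace.map_exp_of_mem_ball (𝕂 := ℂ) (M.subtype : M →⋆ₐ[ℂ] N) continuous_subtype_val x
    ((NormedSpace.expSeries_radius_eq_top ℂ M).symm ▸ edist_lt_top _ _)

end SC
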