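import Pool.Agent.H77.SC.S0
import Pool.Agent.H77.SC.O2
import Pool.Agent.H77.SC.Cp4

/-!
# S1: the general theorems inside a subfactor `M`

With `letI := subC M hc` (`hc := isClosed_of_closed2 h hM`) and `sub_ii1`, apply the theorems for
II₁ factors to `M` and `subτ τ M` and translate with `sub_n2`, `sub_unitary`, `sub_haar`,
`sub_exp_coe`:
* `sub_exp` is `unitary_exp`; `sub_conj_dense` is `haar_conj_dense`.
* `sub_nz_dense`: as in `O2.lean`.  In `M` let `G = {x : M | (x : N) ∈ Nz O}` (a group of unitaries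
  of `M`: `nz_one`, `nz_mul`, `nz_star`) and `Γ` its 2-norm closure in `M` (`cl_group`).  Apply
  `lie_full` to `M`, `Γ`, `O_M = {x : M | (x : N) ∈ O}`: `nz_self`, `nz_comm`, `orb_star`.  `O_M`
  generates `M`: a closed *-subalgebra `M'` of `M` containing `O_M` is mapped by `M.subtype` to a
  *-subalgebra of `N`, closed in the 2-norm (limits are in `M` since `M` is closed), containing `O`;
  so it contains `M` by minimality, so `M' = ⊤`.  So `exp y ∈ Γ` for all skew-adjoint `y ∈ M`, and by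
  `unitary_exp` (in `M`) all unitaries of `M` are in `Γ`.
-/

open Filter Topology

namespace SC

variable {N : Type*} [CStarAlgebra N] {τ : N →ₗ[ℂ] ℂ} {U : Ultrafilter ℕ} {O : Set N}
  {M : StarSubalgebra ℂ N}

theorem sub_exp (h : IsII1 τ) (hM : Closed2 τ (M : Set N)) (hf : IsFac M)
    (hH : ∃ u ∈ Haar τ, u ∈ M) {w : N} (hw : w ∈ unitary N) (hwM : w ∈ M) (ε : ℝ)
    (hε : 0 < ε) :
    ∃ y ∈ M, star y = -y ∧ ‖y‖ ≤ 7 ∧ n2 τ (w - NormedSpace.exp y) < ε := by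
  have hc := isClosed_of_closed2 h hM
  letI := subC M hc
  have h' := sub_ii1 h M hM hc hf hH
  have hwu : (⟨w, hwM⟩ : M) ∈ unitary M := (sub_unitary M _).2 hw
  obtain ⟨y, hy, hn, hlt⟩ := unitary_exp h' hwu ε hε
  refine ⟨y, y.2, ?_, hn, ?_⟩
  · exact congrArg Subtype.val hy
  · rw [sub_n2 (τ := τ) M hc] at hlt
    have e : (((⟨w, hwM⟩ : M) - NormedSpace.exp y : M) : N) = w - NormedSpace.exp (y : N) := by
      rw [← sub_exp_coe M hc y]
      rfl
    rwa [e] at hlt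

theorem sub_conj_dense (h : IsII1 τ) (hM : Closed2 τ (M : Set N)) (hf : IsFac M) {u v : N}
    (hu : u ∈ Haar τ) (huM : u ∈ M) (hv : v ∈ Haar τ) (hvM : v ∈ M) (ε : ℝ) (hε : 0 < ε) :
    ∃ w ∈ unitary N, w ∈ M ∧ n2 τ (w * u * star w - v) < ε := by
  have hc := isClosed_of_closed2 h hM
  letI := subC M hc
  have h' := sub_ii1 h M hM hc hf ⟨u, hu, huM⟩
  have hu' : (⟨u, huM⟩ : M) ∈ Haar (subτ τ M) := (sub_haar M hc _).2 hu
  have hv' : (⟨v, hvM⟩ : M) ∈ Haar (subτ τ M) := (sub_haar M hc _).2 hv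
  obtain ⟨w, hw, hlt⟩ := haar_conj_dense h' hu' hv' ε hε
  refine ⟨w, (sub_unitary M _).1 hw, w.2, ?_⟩
  rw [sub_n2 (τ := τ) M hc] at hlt
  exact hlt

theorem sub_nz_dense (h : IsII1 τ) (hO : IsOrb τ U O) (hM : IsGenBy τ O M) (hf : IsFac M)
    {w : N} (hw : w ∈ unitary N) (hwM : w ∈ M) (ε : ℝ) (hε : 0 < ε) :
    ∃ w' ∈ Nz O, w' ∈ M ∧ n2 τ (w - w') < ε := by
  obtain ⟨hMc, hOM, hmin⟩ := hM
  obtain ⟨u₀, hu₀⟩ := orb_nonempty hO
  have hc := isClosed_of_closed2 h hMc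
  letI := subC M hc
  have h' := sub_ii1 h M hMc hc hf ⟨u₀, orb_haar hO hu₀, hOM hu₀⟩
  have hΓ := cl_group h' {x : M | (x : N) ∈ Nz O} (fun w hw => (sub_unitary M _).2 hw.1)
    (nz_one : (1 : N) ∈ Nz O) (fun w hw w' hw' => nz_mul (O := O) hw hw')
    (fun w hw => nz_star (O := O) hw)
  have hin : ∀ w : M, (w : N) ∈ Nz O →
      w ∈ {x : M | ∀ ε : ℝ, 0 < ε → ∃ w ∈ {x : M | (x : N) ∈ Nz O}, n2 (subτ τ M) (x - w) < ε} := by
    intro w hw ε hε
    refine ⟨w, hw, ?_⟩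
    rw [sub_self, n2_zero]
    exact hε
  have hgen : Generates (subτ τ M) {x : M | (x : N) ∈ O} := by
    intro M' hM' hOM'
    have hle : M ≤ M'.map M.subtype := by
      apply hmin
      · intro x hx
        have hxM : x ∈ M := by
          apply hMc x
          intro δ hδ
          obtain ⟨y, hy, hlt⟩ := hx δ hδ
          obtain ⟨y', hy', rfl⟩ := hy
          exact ⟨_, y'.2, hlt⟩
        have hx' : (⟨x, hxM⟩ : M) ∈ M' := by
          apply hM'
          intro δ hδ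
          obtain ⟨y, hy, hlt⟩ := hx δ hδ
          obtain ⟨y', hy', rfl⟩ := hy
          refine ⟨y', hy', ?_⟩
          rw [sub_n2 (τ := τ) M hc]
          exact hlt
        exact ⟨⟨x, hxM⟩, hx', rfl⟩
      · intro x hx
        exact ⟨⟨x, hOM hx⟩, hOM' (show ((⟨x, hOM hx⟩ : M) : N) ∈ O from hx), rfl⟩
    rw [eq_top_iff]
    intro x _
    obtain ⟨y, hy, hyx⟩ := hle x.2
    have : y = x := Subtype.ext hyx
    rw [← this]
    exact hy
  have hwu : (⟨w, hwM⟩ : M) ∈ unitary M := (sub_unitary M _).2 hw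
  have hmem : (⟨w, hwM⟩ : M) ∈
      {x : M | ∀ ε : ℝ, 0 < ε → ∃ w ∈ {x : M | (x : N) ∈ Nz O}, n2 (subτ τ M) (x - w) < ε} := by
    apply hΓ.closed
    intro δ hδ
    obtain ⟨y, hy, _, hlt⟩ := unitary_exp h' hwu δ hδ
    refine ⟨NormedSpace.exp y, ?_, hlt⟩
    have hL := lie_full h' hΓ {x : M | (x : N) ∈ O} ⟨⟨u₀, hOM hu₀⟩, hu₀⟩
      (fun u hu => hin u (nz_self h hO hu))
      (fun u hu w hw hwu => hin w (nz_comm h hO hu ((sub_unitary M _).1 hw)
        (congrArg Subtype.val hwu)))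
      (fun u hu => orb_star h hO hu) hgen y hy
    have h1 := hL.2 1
    rwa [Complex.ofReal_one, one_smul] at h1
  obtain ⟨w', hw', hlt⟩ := hmem ε hε
  refine ⟨w', hw', w'.2, ?_⟩
  rw [sub_n2 (τ := τ) M hc] at hlt
  exact hlt

end SC
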