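import Pool.Agent.H77.SC.Ex

/-!
# Tr: the Trotter product formula for skew-adjoint elements

With `a_n = exp (y/(n+1)) exp (z/(n+1))` and `b_n = exp ((y+z)/(n+1))`, both unitary (norm `≤ 1`),
`‖a_n^{n+1} - b_n^{n+1}‖ ≤ (n+1) ‖a_n - b_n‖` (telescoping) and `(n+1) ‖a_n - b_n‖ → 0`: the
function `t ↦ exp (t y) exp (t z) - exp (t (y + z))` vanishes at `0` and has derivative `0` there.
-/

open Filter Topology

namespace SC

variable {N : Type*} [CStarAlgebra N] {τ : N →ₗ[ℂ] ℂ}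

private lemma tr_norm_le {a : N} (ha : a ∈ unitary N) : ‖a‖ ≤ 1 := by
  rcases subsingleton_or_nontrivial N with hN | hN
  · have h0 : a = 0 := Subsingleton.elim _ _
    rw [h0, norm_zero]
    exact zero_le_one
  · exact (CStarRing.norm_of_mem_unitary ha).le

private lemma tr_pow {a b : N} (ha : ‖a‖ ≤ 1) (hb : ‖b‖ ≤ 1) (k : ℕ) :
    ‖a ^ (k + 1) - b ^ (k + 1)‖ ≤ ((k : ℝ) + 1) * ‖a - b‖ := by
  induction k with
  | zero => simp
  | succ k ih =>
    have h1 : a ^ (k + 1 + 1) - b ^ (k + 1 + 1)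
        = a ^ (k + 1) * (a - b) + (a ^ (k + 1) - b ^ (k + 1)) * b := by
      rw [pow_succ a (k + 1), pow_succ b (k + 1), mul_sub, sub_mul]
      abel
    have h2 : ‖a ^ (k + 1)‖ ≤ 1 := by
      refine (norm_pow_le' a (Nat.succ_pos k)).trans ?_
      exact pow_le_one₀ (norm_nonneg a) ha
    have h3 : ‖a ^ (k + 1) * (a - b)‖ ≤ 1 * ‖a - b‖ :=
      (norm_mul_le _ _).trans (mul_le_mul_of_nonneg_right h2 (norm_nonneg _))
    have h4 : ‖(a ^ (k + 1) - b ^ (k + 1)) * b‖ ≤ (((k : ℝ) + 1) * ‖a - b‖) * 1 :=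
      (norm_mul_le _ _).trans (mul_le_mul ih hb (norm_nonneg _)
        (mul_nonneg (by positivity) (norm_nonneg _)))
    rw [h1]
    refine (norm_add_le _ _).trans ?_
    push_cast
    nlinarith [h3, h4]

private lemma tr_skew {y : N} (hy : star y = -y) (n : ℕ) :
    star (((1 : ℂ) / ((n : ℂ) + 1)) • y) = -(((1 : ℂ) / ((n : ℂ) + 1)) • y) := by
  rw [star_smul, hy, smul_neg]
  have h : star ((1 : ℂ) / ((n : ℂ) + 1)) = (1 : ℂ) / ((n : ℂ) + 1) := by
    simp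
  rw [h]

private lemma tr_deriv (y z : N) :
    HasDerivAt (fun t : ℂ => NormedSpace.exp (t • y) * NormedSpace.exp (t • z)
      - NormedSpace.exp (t • (y + z))) 0 0 := by
  have h1 := (hasDerivAt_exp_smul_const (𝕂 := ℂ) y (0 : ℂ)).mul
    (hasDerivAt_exp_smul_const (𝕂 := ℂ) z (0 : ℂ))
  have h2 := h1.sub (hasDerivAt_exp_smul_const (𝕂 := ℂ) (y + z) (0 : ℂ))
  have h3 : NormedSpace.exp ((0 : ℂ) • y) * y * NormedSpace.exp ((0 : ℂ) • z)
      + NormedSpace.exp ((0 : ℂ) • y) * (NormedSpace.exp ((0 : ℂ) • z) * z)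
      - NormedSpace.exp ((0 : ℂ) • (y + z)) * (y + z) = 0 := by
    simp [NormedSpace.exp_zero]
  rw [h3] at h2
  exact h2

theorem trotter {y z : N} (hy : star y = -y) (hz : star z = -z) :
    Tendsto (fun n : ℕ => (NormedSpace.exp (((1 : ℂ) / ((n : ℂ) + 1)) • y) *
      NormedSpace.exp (((1 : ℂ) / ((n : ℂ) + 1)) • z)) ^ (n + 1)) atTop
      (𝓝 (NormedSpace.exp (y + z))) := by
  have hyz : star (y + z) = -(y + z) := by
    rw [star_add, hy, hz, neg_add]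
  have hpow : ∀ n : ℕ, NormedSpace.exp (((1 : ℂ) / ((n : ℂ) + 1)) • (y + z)) ^ (n + 1)
      = NormedSpace.exp (y + z) := by
    intro n
    let _ : NormedAlgebra ℚ N := NormedAlgebra.restrictScalars ℚ ℂ N
    have hne : ((n : ℂ) + 1) ≠ 0 := Nat.cast_add_one_ne_zero n
    rw [← NormedSpace.exp_nsmul, ← Nat.cast_smul_eq_nsmul ℂ, smul_smul]
    have h : ((n + 1 : ℕ) : ℂ) * ((1 : ℂ) / ((n : ℂ) + 1)) = 1 := by
      push_cast
      field_simp
    rw [h, one_smul]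
  have ht0 : Tendsto (fun n : ℕ => (1 : ℂ) / ((n : ℂ) + 1)) atTop (𝓝[≠] 0) := by
    rw [tendsto_nhdsWithin_iff]
    refine ⟨tendsto_one_div_add_atTop_nhds_zero_nat, ?_⟩
    apply Filter.Eventually.of_forall
    intro n
    have hne : ((n : ℂ) + 1) ≠ 0 := Nat.cast_add_one_ne_zero n
    exact one_div_ne_zero hne
  have hD := (hasDerivAt_iff_tendsto_slope_zero.1 (tr_deriv y z)).comp ht0
  have hD' := hD.norm
  rw [norm_zero] at hD'
  rw [tendsto_iff_norm_sub_tendsto_zero]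
  refine squeeze_zero (fun n => norm_nonneg _) (fun n => ?_) hD'
  have ha : ‖NormedSpace.exp (((1 : ℂ) / ((n : ℂ) + 1)) • y) *
      NormedSpace.exp (((1 : ℂ) / ((n : ℂ) + 1)) • z)‖ ≤ 1 :=
    tr_norm_le (mul_mem (exp_skew_unitary (tr_skew hy n)) (exp_skew_unitary (tr_skew hz n)))
  have hb : ‖NormedSpace.exp (((1 : ℂ) / ((n : ℂ) + 1)) • (y + z))‖ ≤ 1 :=
    tr_norm_le (exp_skew_unitary (tr_skew hyz n))
  have h1 := tr_pow ha hb n
  rw [hpow n] at h1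
  refine h1.trans (le_of_eq ?_)
  have h2 : NormedSpace.exp ((0 : ℂ) • y) * NormedSpace.exp ((0 : ℂ) • z)
      - NormedSpace.exp ((0 : ℂ) • (y + z)) = 0 := by
    simp [NormedSpace.exp_zero]
  simp only [Function.comp_apply, zero_add]
  rw [h2, sub_zero, norm_smul, norm_inv, norm_div, norm_one]
  rw [show (1 / ‖((n : ℂ) + 1)‖)⁻¹ = ‖((n : ℂ) + 1)‖ by rw [one_div, inv_inv]]
  have h3 : ‖((n : ℂ) + 1)‖ = (n : ℝ) + 1 := by
    have h4 : ((n : ℂ) + 1) = (((n : ℝ) + 1 : ℝ) : ℂ) := by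
      push_cast
      rfl
    rw [h4, Complex.norm_real, Real.norm_eq_abs, abs_of_nonneg (by positivity)]
  rw [h3]

end SC
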