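import Pool.Agent.H77.SC.Cp1

/-!
# X1: splitting a projection with a non-scalar element of its corner

For real `t` let `a_t = a - t • p` (selfadjoint, `p a_t = a_t`), with positive and negative parts
`a_t⁺`, `a_t⁻` (`CFC`; `a_t⁺ a_t⁻ = 0`, `a_t = a_t⁺ - a_t⁻`).  If for every `t` one of them is `0`,
i.e. `t p ≤ a` or `a ≤ t p`, then with `s = sup {t : t p ≤ a}` (nonempty, bounded: `‖a‖`) one gets
`s p ≤ a` and `a ≤ t p` for `t > s`, so `a = s p`: excluded by `hns`.  So there is a `t` with
`b = a_t⁺ ≠ 0` and `c = a_t⁻ ≠ 0`.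
`p b = b`: `b b = a_t b` (as `c b = 0`), so `((1-p) b) ((1-p) b)* = (1-p) b b (1-p)
= (1-p) a_t b (1-p) = 0`, so `(1-p) b = 0`.  The same for `c`.
`polar` for `y = b` gives `v`; `e = v* v`.  `b p = b` gives `v p = v`, so `e p = e = p e`.
`b (1 - c) = b` and `1 - c` is selfadjoint, so `v c = 0`, `e c = 0`; if `e = p` then
`c = p c = 0`, a contradiction.
-/

open Filter Topology

namespace SC

variable {N : Type*} [CStarAlgebra N] {τ : N →ₗ[ℂ] ℂ}

private lemma x1_abs {p b P M : N} (hp : star p = p) (hpb : p * b = b)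
    (hP : star P = P) (hM : star M = M) (hb : P - M = b) (hMP : M * P = 0) :
    p * P = P := by
  have hPP : P * P = b * P := by
    rw [← hb, sub_mul, hMP, sub_zero]
  have h1 : ((1 - p) * P) * star ((1 - p) * P) = 0 := by
    rw [star_mul, hP, star_sub, star_one, hp]
    have e1 : (1 - p) * P * (P * (1 - p)) = (1 - p) * (P * P) * (1 - p) := by noncomm_ring
    rw [e1, hPP]
    have e2 : (1 - p) * (b * P) = 0 := by
      rw [sub_mul, one_mul, ← mul_assoc, hpb, sub_self]
    rw [e2, zero_mul]
  have h2 : (1 - p) * P = 0 := CStarRing.mul_star_self_eq_zero_iff _ |>.mp h1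
  rw [sub_mul, one_mul] at h2
  exact (sub_eq_zero.mp h2).symm

theorem proj_split (h : IsII1 τ) {p a : N} (hp : star p = p) (hp2 : p * p = p)
    (ha : star a = a) (hpa : p * a * p = a) (hns : ∀ c : ℂ, a ≠ c • p) :
    ∃ e : N, star e = e ∧ e * e = e ∧ p * e = e ∧ e ≠ 0 ∧ e ≠ p := by
  -- the value t
  have hp0 : p ≠ 0 := by
    rintro rfl
    apply hns 0
    rw [smul_zero, ← hpa, mul_zero]
  have hτp : τ p ≠ 0 := by
    intro h0
    apply hp0
    apply h.faithful
    rw [hp, hp2]
    exact h0
  have hreal : ∀ x : N, star x = x → ((τ x).re : ℂ) = τ x := by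
    intro x hx
    have h1 := tau_star h x
    rw [hx] at h1
    exact (Complex.conj_eq_iff_re.mp h1.symm)
  set t : ℝ := (τ a).re / (τ p).re with ht
  have htC : (t : ℂ) * τ p = τ a := by
    rw [ht, Complex.ofReal_div, hreal a ha, hreal p hp, div_mul_cancel₀ _ hτp]
  set b : N := a - (t : ℂ) • p with hb
  have hbs : star b = b := by
    rw [hb, star_sub, ha, star_smul, hp]
    simp
  have hτb : τ b = 0 := by
    rw [hb, map_sub, map_smul, smul_eq_mul, htC, sub_self]
  have hb0 : b ≠ 0 := by
    intro h0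
    exact hns t (sub_eq_zero.mp h0)
  have hpa1 : p * a = a := by
    rw [← hpa, ← mul_assoc, ← mul_assoc, hp2]
  have hpb : p * b = b := by
    rw [hb, mul_sub, hpa1, mul_smul_comm, hp2]
  have hbsa : IsSelfAdjoint b := hbs
  set P : N := cfc (fun s : ℝ => max s 0) b with hPdef
  set M : N := cfc (fun s : ℝ => max (-s) 0) b with hMdef
  have hPs : star P = P := (cfc_predicate (fun s : ℝ => max s 0) b : IsSelfAdjoint _)
  have hMs : star M = M := (cfc_predicate (fun s : ℝ => max (-s) 0) b : IsSelfAdjoint _)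
  have hc1 : ContinuousOn (fun s : ℝ => max s 0) (spectrum ℝ b) := by fun_prop
  have hc2 : ContinuousOn (fun s : ℝ => max (-s) 0) (spectrum ℝ b) := by fun_prop
  have hsub : P - M = b := by
    rw [hPdef, hMdef, ← cfc_sub _ _ b hc1 hc2]
    conv_rhs => rw [← cfc_id' ℝ b]
    apply cfc_congr
    intro s _
    simp only
    rcases le_total s 0 with hs | hs
    · rw [max_eq_right hs, max_eq_left (by linarith)]; ring
    · rw [max_eq_left hs, max_eq_right (by linarith)]; ring
  have hPM : P * M = 0 := by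
    rw [hPdef, hMdef, ← cfc_mul _ _ b hc1 hc2]
    conv_rhs => rw [← cfc_const_zero ℝ b]
    apply cfc_congr
    intro s _
    simp only
    rcases le_total s 0 with hs | hs
    · rw [max_eq_right hs, zero_mul]
    · rw [max_eq_right (a := -s) (by linarith), mul_zero]
  have hMP : M * P = 0 := by
    have := congrArg star hPM
    rwa [star_mul, hPs, hMs, star_zero] at this
  -- positivity
  have hpos : ∀ f : ℝ → ℝ, Continuous f → (∀ s, 0 ≤ f s) → τ (cfc f b) = 0 → cfc f b = 0 := by
    intro f hf hf0 h0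
    have hcs : ContinuousOn (fun s : ℝ => Real.sqrt (f s)) (spectrum ℝ b) :=
      (Real.continuous_sqrt.comp hf).continuousOn
    have e1 : cfc f b = star (cfc (fun s : ℝ => Real.sqrt (f s)) b) *
        cfc (fun s : ℝ => Real.sqrt (f s)) b := by
      rw [(cfc_predicate (fun s : ℝ => Real.sqrt (f s)) b : IsSelfAdjoint _).star_eq,
        ← cfc_mul _ _ b hcs hcs]
      apply cfc_congr
      intro s _
      simp only
      rw [Real.mul_self_sqrt (hf0 s)]
    rw [e1] at h0 ⊢
    rw [h.faithful _ h0, mul_zero]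
  have hτPM : τ P = τ M := by
    have := congrArg τ hsub
    rw [map_sub, hτb] at this
    exact sub_eq_zero.mp this
  have hP0 : P ≠ 0 := by
    intro h0
    have h1 : τ M = 0 := by rw [← hτPM, h0, map_zero]
    have h2 : M = 0 := hpos (fun s : ℝ => max (-s) 0) (by fun_prop) (fun s => le_max_right _ _) h1
    apply hb0
    rw [← hsub, h0, h2, sub_zero]
  have hM0 : M ≠ 0 := by
    intro h0
    have h1 : τ P = 0 := by rw [hτPM, h0, map_zero]
    have h2 : P = 0 := hpos (fun s : ℝ => max s 0) (by fun_prop) (fun s => le_max_right _ _) h1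
    exact hP0 h2
  have hpP : p * P = P := x1_abs hp hpb hPs hMs hsub hMP
  have hpM : p * M = M := by
    refine x1_abs (b := -b) hp (by rw [mul_neg, hpb]) hMs hPs ?_ hPM
    rw [← hsub, neg_sub]
  have hPp : P * p = P := by
    have := congrArg star hpP
    rwa [star_mul, hPs, hp] at this
  obtain ⟨v, hv0, hv1, _, hv3⟩ := polar h P hP0
  have hvp : v * p = v := hv3 p hp hPp
  have hvM : v * M = 0 := by
    have h1 := hv3 (1 - M) (by rw [star_sub, star_one, hMs]) (by rw [mul_sub, mul_one, hPM, sub_zero])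
    rw [mul_sub, mul_one] at h1
    exact sub_eq_self.mp h1
  refine ⟨star v * v, ?_, hv1, ?_, ?_, ?_⟩
  · rw [star_mul, star_star]
  · have h1 : star v * v * p = star v * v := by rw [mul_assoc, hvp]
    have h2 := congrArg star h1
    rwa [star_mul, star_mul, star_star, hp] at h2
  · intro h0
    apply hv0
    apply h.faithful
    rw [h0, map_zero]
  · intro h0
    apply hM0
    rw [← hpM, ← h0, mul_assoc, hvM, mul_zero]

end SC
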