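import Pool.Agent.H77.SC.X1
import Pool.Agent.H77.SC.Av

/-!
# X2: a II₁ factor has no minimal projection

Suppose every projection `e` with `p e = e` is `0` or `p`.  By `proj_split` every selfadjoint
element of `p N p` is a multiple of `p`, so `p x p ∈ ℂ p` for all `x` (real and imaginary parts).
Let `n` be maximal such that there are `v : Fin n → N` with `v_i* v_i = p`, `v_i* v_j = 0` for
`i ≠ j` (`n = 0` is possible, and `n τ(p) = Σ τ(v_i v_i*) ≤ 1`: `1 - Σ v_i v_i*` is a projection,
`τ(p) = ‖p‖₂² > 0`).  Let `r = 1 - Σ v_i v_i*` (a projection).  If `r ≠ 0`, `corner` gives `x` with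
`y = r x p ≠ 0`, and `polar` gives `v ≠ 0`, `v p = v`, `r v = v`, `v* v` a projection under `p`, so
`v* v = p`, and `v_i* v = v_i* r v = 0`: contradiction to the maximality.  So `Σ v_i v_i* = 1` and
`x = Σ_{i,j} v_i (v_i* x v_j) v_j*` with `v_i* x v_j = p v_i* x v_j p ∈ ℂ p`; so `N` is spanned by
the `v_i v_j*` and is finite-dimensional: contradiction to `IsII1.infinite`.
-/

open Filter Topology

namespace SC

variable {N : Type*} [CStarAlgebra N] {τ : N →ₗ[ℂ] ℂ}

/-- The selfadjoint elements of a minimal corner are scalar. -/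
theorem x2_scalar (h : IsII1 τ) {p : N} (hp : star p = p) (hp2 : p * p = p)
    (hcon : ∀ e : N, star e = e → e * e = e → p * e = e → e ≠ 0 → e = p) (x : N) :
    ∃ c : ℂ, p * x * p = c • p := by
  have hsa : ∀ a : N, star a = a → p * a * p = a → ∃ c : ℂ, a = c • p := by
    intro a ha hpa
    by_contra hne
    push Not at hne
    obtain ⟨e, he1, he2, he3, he4, he5⟩ := proj_split h hp hp2 ha hpa hne
    exact he5 (hcon e he1 he2 he3 he4)
  set y : N := p * x * p with hy
  have hys : star y = p * star x * p := by
    rw [hy, star_mul, star_mul, hp, mul_assoc]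
  have hpy : p * y * p = y := by
    rw [hy]
    calc p * (p * x * p) * p = (p * p) * x * (p * p) := by noncomm_ring
      _ = p * x * p := by rw [hp2]
  have hpys : p * star y * p = star y := by
    rw [hys]
    calc p * (p * star x * p) * p = (p * p) * star x * (p * p) := by noncomm_ring
      _ = p * star x * p := by rw [hp2]
  obtain ⟨c1, hc1⟩ := hsa (y + star y) (by rw [star_add, star_star, add_comm])
    (by rw [mul_add, add_mul, hpy, hpys])
  obtain ⟨c2, hc2⟩ := hsa (Complex.I • (y - star y))
    (by
      rw [star_smul, star_sub, star_star, Complex.star_def, Complex.conj_I, neg_smul, ← smul_neg,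
        neg_sub])
    (by rw [mul_smul_comm, smul_mul_assoc, mul_sub, sub_mul, hpy, hpys])
  refine ⟨(1 / 2 : ℂ) * (c1 - Complex.I * c2), ?_⟩
  have h2 : (2 : ℂ) • y = (c1 - Complex.I * c2) • p := by
    rw [sub_smul, mul_smul, ← hc1, ← hc2, smul_smul, Complex.I_mul_I, two_smul, neg_smul, one_smul]
    abel
  rw [mul_smul, ← h2, smul_smul]
  norm_num

/-- A partial isometry with initial projection `p`. -/
theorem x2_mul_p {p v : N} (hp : star p = p) (hp2 : p * p = p) (hv : star v * v = p) :
    v * p = v := by
  have h1 : star (v - v * p) * (v - v * p) = 0 := by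
    rw [star_sub, star_mul, hp]
    calc (star v - p * star v) * (v - v * p)
        = star v * v - star v * v * p - p * (star v * v) + p * (star v * v) * p := by noncomm_ring
      _ = 0 := by rw [hv, hp2, hp2]; abel
  have h2 := CStarRing.star_mul_self_eq_zero_iff (v - v * p) |>.1 h1
  exact (sub_eq_zero.1 h2).symm

theorem no_minimal (h : IsII1 τ) {p : N} (hp : star p = p) (hp2 : p * p = p) (hp0 : p ≠ 0) :
    ∃ e : N, star e = e ∧ e * e = e ∧ p * e = e ∧ e ≠ 0 ∧ e ≠ p := by
  classical
  by_contra hcon'
  push Not at hcon'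
  have hcon : ∀ e : N, star e = e → e * e = e → p * e = e → e ≠ 0 → e = p := hcon'
  -- the trace of `p`
  have hτp : 0 < (τ p).re := by
    have h1 := h.nonneg p
    have h2 := h.real p
    rw [hp, hp2] at h1 h2
    rcases h1.lt_or_eq with h3 | h3
    · exact h3
    · exfalso
      apply hp0
      apply h.faithful
      rw [hp, hp2]
      exact Complex.ext h3.symm h2
  let Sys : ℕ → Prop := fun n => ∃ v : Fin n → N, (∀ i, star (v i) * v i = p) ∧
    ∀ i j, i ≠ j → star (v i) * v j = 0
  -- facts on a system
  have facts : ∀ (n : ℕ) (v : Fin n → N), (∀ i, star (v i) * v i = p) →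
      (∀ i j, i ≠ j → star (v i) * v j = 0) →
      (∀ i, star (v i) * (1 - ∑ j, v j * star (v j)) = 0) := by
    intro n v hv1 hv2 i
    have h1 : star (v i) * ∑ j, v j * star (v j) = star (v i) := by
      rw [Finset.mul_sum, Finset.sum_eq_single i]
      · rw [← mul_assoc, hv1 i]
        have h2 := congrArg star (x2_mul_p hp hp2 (hv1 i))
        rwa [star_mul, hp] at h2
      · intro j _ hji
        rw [← mul_assoc, hv2 i j (Ne.symm hji), zero_mul]
      · intro hi
        exact absurd (Finset.mem_univ i) hi
    rw [mul_sub, mul_one, h1, sub_self]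
  have hrs : ∀ (n : ℕ) (v : Fin n → N), star (1 - ∑ j, v j * star (v j)) =
      1 - ∑ j, v j * star (v j) := by
    intro n v
    rw [star_sub, star_one, star_sum]
    congr 1
    refine Finset.sum_congr rfl fun j _ => ?_
    rw [star_mul, star_star]
  have hrr : ∀ (n : ℕ) (v : Fin n → N), (∀ i, star (v i) * v i = p) →
      (∀ i j, i ≠ j → star (v i) * v j = 0) →
      (1 - ∑ j, v j * star (v j)) * (1 - ∑ j, v j * star (v j)) = 1 - ∑ j, v j * star (v j) := by
    intro n v hv1 hv2
    have h0 : (∑ j, v j * star (v j)) * (1 - ∑ j, v j * star (v j)) = 0 := by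
      rw [Finset.sum_mul]
      refine Finset.sum_eq_zero fun j _ => ?_
      rw [mul_assoc, facts n v hv1 hv2 j, mul_zero]
    rw [sub_mul, one_mul, h0, sub_zero]
  have bound : ∀ n, Sys n → (n : ℝ) * (τ p).re ≤ 1 := by
    rintro n ⟨v, hv1, hv2⟩
    have h1 := h.nonneg (1 - ∑ j, v j * star (v j))
    rw [hrs n v, hrr n v hv1 hv2, map_sub, h.map_one, map_sum] at h1
    have h2 : ∀ j, τ (v j * star (v j)) = τ p := by
      intro j
      rw [h.tracial, hv1 j]
    rw [Finset.sum_congr rfl fun j _ => h2 j, Finset.sum_const, Finset.card_univ,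
      Fintype.card_fin, Complex.sub_re, Complex.one_re, nsmul_eq_mul, Complex.mul_re,
      Complex.natCast_re, Complex.natCast_im, zero_mul, sub_zero] at h1
    linarith
  obtain ⟨n, hn, hn1⟩ : ∃ n, Sys n ∧ ¬ Sys (n + 1) := by
    by_contra hall
    push Not at hall
    have hS : ∀ n, Sys n := by
      intro n
      induction n with
      | zero => exact ⟨fun i => i.elim0, fun i => i.elim0, fun i => i.elim0⟩
      | succ n ih => exact hall n ih
    obtain ⟨m, hm⟩ := exists_nat_gt (1 / (τ p).re)
    have h1 := bound m (hS m)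
    rw [div_lt_iff₀ hτp] at hm
    linarith
  obtain ⟨v, hv1, hv2⟩ := hn
  set r : N := 1 - ∑ j, v j * star (v j) with hr
  have hr0 : r = 0 := by
    by_contra hne
    obtain ⟨z, hz⟩ := corner h hne hp0
    obtain ⟨w, hw0, hw1, hw2, hw3⟩ := polar h (r * z * p) hz
    have hrw : r * w = w := hw2 r (by
      rw [← mul_assoc, ← mul_assoc, hr, hrr n v hv1 hv2])
    have hwp : w * p = w := hw3 p hp (by rw [mul_assoc, hp2])
    have hpw : p * star w = star w := by
      have h1 := congrArg star hwp
      rwa [star_mul, hp] at h1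
    have hww : star w * w = p := by
      refine hcon (star w * w) (by rw [star_mul, star_star]) hw1 ?_ ?_
      · rw [← mul_assoc, hpw]
      · intro h0
        exact hw0 (CStarRing.star_mul_self_eq_zero_iff w |>.1 h0)
    have hvw : ∀ i, star (v i) * w = 0 := by
      intro i
      rw [← hrw, ← mul_assoc, hr, facts n v hv1 hv2 i, zero_mul]
    have hwv : ∀ i, star w * v i = 0 := by
      intro i
      have h1 := congrArg star (hvw i)
      rwa [star_mul, star_star, star_zero] at h1
    apply hn1
    refine ⟨Fin.cons w v, ?_, ?_⟩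
    · intro i
      refine Fin.cases ?_ (fun i => ?_) i
      · rw [Fin.cons_zero]
        exact hww
      · rw [Fin.cons_succ]
        exact hv1 i
    · intro i
      refine Fin.cases ?_ (fun i => ?_) i
      · intro j
        refine Fin.cases ?_ (fun j => ?_) j
        · intro h1
          exact absurd rfl h1
        · intro _
          rw [Fin.cons_zero, Fin.cons_succ]
          exact hwv j
      · intro j
        refine Fin.cases ?_ (fun j => ?_) j
        · intro _
          rw [Fin.cons_zero, Fin.cons_succ]
          exact hvw i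
        · intro h1
          rw [Fin.cons_succ, Fin.cons_succ]
          exact hv2 i j (fun h2 => h1 (by rw [h2]))
  have hone : ∑ j, v j * star (v j) = 1 := (sub_eq_zero.1 hr0).symm
  apply h.infinite
  have htop : (⊤ : Submodule ℂ N) =
      Submodule.span ℂ (Set.range fun q : Fin n × Fin n => v q.1 * star (v q.2)) := by
    refine le_antisymm ?_ le_top
    intro x _
    have hx : x = ∑ i, ∑ j, v i * (star (v i) * x * v j) * star (v j) := by
      calc x = (∑ i, v i * star (v i)) * x * (∑ j, v j * star (v j)) := by
            rw [hone, one_mul, mul_one]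
        _ = ∑ i, ∑ j, v i * (star (v i) * x * v j) * star (v j) := by
            rw [Finset.sum_mul, Finset.sum_mul]
            refine Finset.sum_congr rfl fun i _ => ?_
            rw [Finset.mul_sum]
            refine Finset.sum_congr rfl fun j _ => ?_
            simp only [mul_assoc]
    rw [hx]
    refine Submodule.sum_mem _ fun i _ => Submodule.sum_mem _ fun j _ => ?_
    have h1 : p * star (v i) = star (v i) := by
      have h2 := congrArg star (x2_mul_p hp hp2 (hv1 i))
      rwa [star_mul, hp] at h2
    have h3 : v j * p = v j := x2_mul_p hp hp2 (hv1 j)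
    obtain ⟨c, hc⟩ := x2_scalar h hp hp2 hcon (star (v i) * x * v j)
    have h4 : star (v i) * x * v j = c • p := by
      rw [← hc]
      calc star (v i) * x * v j = (p * star (v i)) * x * (v j * p) := by rw [h1, h3]
        _ = p * (star (v i) * x * v j) * p := by simp only [mul_assoc]
    rw [h4, mul_smul_comm, smul_mul_assoc, x2_mul_p hp hp2 (hv1 i)]
    exact Submodule.smul_mem _ _ (Submodule.subset_span ⟨(i, j), rfl⟩)
  exact Module.finite_def.2 (htop ▸ Submodule.fg_span (Set.finite_range _))

end SC
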