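import Pool.Agent.H77.SC.X2

/-!
# X3: projections can be halved

All traces of projections are real and `≥ 0` (`τ(e) = τ(e* e)`), `> 0` for `e ≠ 0`.
(a) For `p ≠ 0` and `ε > 0` there is a projection `0 ≠ e ≤ p` (i.e. `p e = e`) with `τ(e) < ε`:
`no_minimal` gives `e ≤ p` with `e ≠ 0`, `e ≠ p`; one of `e`, `p - e` has trace `≤ τ(p)/2`; iterate.
(b) Greedy: `e_0 = 0`, `e_{k+1} = e_k + d_k` with `d_k ≤ p - e_k` a projection with
`τ(e_k) + τ(d_k) ≤ τ(p)/2` and `τ(d_k) ≥ s_k/2`, `s_k` = supremum of the traces of such `d`.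
`e_k` is a nondecreasing sequence of projections, `‖e_l - e_k‖₂² = τ(e_l) - τ(e_k)` for `k ≤ l`, so
it is Cauchy in the 2-norm; its limit `e` is a projection, `e ≤ p`, `e_k ≤ e`, `τ(e) ≤ τ(p)/2`.  If
`τ(e) < τ(p)/2` then `p - e ≠ 0`, and (a) gives `0 ≠ d ≤ p - e ≤ p - e_k` with
`τ(e) + τ(d) ≤ τ(p)/2`, so `0 < τ(d) ≤ s_k ≤ 2 τ(d_k) → 0`: contradiction.
(`Cp2.lean` has a similar greedy argument.)
-/

open Filter Topology

namespace SC

variable {N : Type*} [CStarAlgebra N] {τ : N →ₗ[ℂ] ℂ}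

/-- `e` is a projection under `p`. -/
private def Up (p e : N) : Prop := star e = e ∧ e * e = e ∧ p * e = e

private lemma Up.right {p e : N} (hp : star p = p) (he : Up p e) : e * p = e := by
  have h1 := congrArg star he.2.2
  rwa [star_mul, he.1, hp] at h1

private lemma Up.zero (p : N) : Up p 0 := ⟨star_zero N, mul_zero _, mul_zero _⟩

private lemma Up.compl {p e : N} (hp : star p = p) (hp2 : p * p = p) (he : Up p e) :
    Up p (p - e) := by
  refine ⟨by rw [star_sub, hp, he.1], ?_, by rw [mul_sub, hp2, he.2.2]⟩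
  rw [mul_sub, sub_mul, sub_mul, hp2, he.2.1, he.2.2, he.right hp]
  abel

private lemma Up.orth {p e d : N} (hp : star p = p) (he : Up p e) (hd : Up (p - e) d) :
    e * d = 0 := by
  rw [← hd.2.2, ← mul_assoc, mul_sub, he.right hp, he.2.1, sub_self, zero_mul]

private lemma Up.orth' {p e d : N} (hp : star p = p) (he : Up p e) (hd : Up (p - e) d) :
    d * e = 0 := by
  have h1 := congrArg star (he.orth hp hd)
  rwa [star_mul, he.1, hd.1, star_zero] at h1

private lemma Up.up {p e d : N} (hp2 : p * p = p) (he : Up p e) (hd : Up (p - e) d) :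
    Up p d := by
  refine ⟨hd.1, hd.2.1, ?_⟩
  rw [← hd.2.2, ← mul_assoc, mul_sub, hp2, he.2.2]

private lemma Up.trans {p e d : N} (he : Up p e) (hd : Up e d) : Up p d := by
  refine ⟨hd.1, hd.2.1, ?_⟩
  rw [← hd.2.2, ← mul_assoc, he.2.2]

private lemma Up.add {p e d : N} (hp : star p = p) (hp2 : p * p = p) (he : Up p e)
    (hd : Up (p - e) d) : Up p (e + d) := by
  refine ⟨by rw [star_add, he.1, hd.1], ?_, by rw [mul_add, he.2.2, (he.up hp2 hd).2.2]⟩
  rw [mul_add, add_mul, add_mul, he.2.1, hd.2.1, he.orth hp hd, he.orth' hp hd]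
  abel

private lemma Up.sq (h : IsII1 τ) {p e : N} (he : Up p e) : n2 τ e ^ 2 = (τ e).re := by
  rw [n2_sq h, he.1, he.2.1]

private lemma Up.nonneg (h : IsII1 τ) {p e : N} (he : Up p e) : 0 ≤ (τ e).re := by
  rw [← he.sq h]
  positivity

private lemma Up.pos (h : IsII1 τ) {p e : N} (he : Up p e) (h0 : e ≠ 0) : 0 < (τ e).re := by
  rcases (he.nonneg h).lt_or_eq with h1 | h1
  · exact h1
  · exfalso
    rw [← he.sq h] at h1
    exact h0 (n2_eq_zero h (pow_eq_zero_iff two_ne_zero |>.1 h1.symm))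

private lemma Up.norm {p e : N} (he : Up p e) : ‖e‖ ≤ 1 := by
  have h1 : ‖star e * e‖ = ‖e‖ * ‖e‖ := CStarRing.norm_star_mul_self
  rw [he.1, he.2.1] at h1
  by_contra hcon
  push Not at hcon
  nlinarith

private lemma small_proj (h : IsII1 τ) {p : N} (hp : star p = p) (hp2 : p * p = p) (hp0 : p ≠ 0)
    (n : ℕ) : ∃ e : N, Up p e ∧ e ≠ 0 ∧ (τ e).re ≤ (τ p).re / 2 ^ n := by
  induction n with
  | zero => exact ⟨p, ⟨hp, hp2, hp2⟩, hp0, by rw [pow_zero, div_one]⟩
  | succ n ih =>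
    obtain ⟨e, he, he0, hle⟩ := ih
    obtain ⟨d, hd1, hd2, hd3, hd4, hd5⟩ := no_minimal h he.1 he.2.1 he0
    have hd : Up e d := ⟨hd1, hd2, hd3⟩
    have hc : Up e (e - d) := hd.compl he.1 he.2.1
    have hs : (τ e).re = (τ d).re + (τ (e - d)).re := by
      rw [map_sub, Complex.sub_re]
      ring
    have hpw : (τ p).re / 2 ^ (n + 1) = (τ p).re / 2 ^ n / 2 := by
      rw [pow_succ, div_div]
    rcases le_total (τ d).re (τ (e - d)).re with h1 | h1
    · exact ⟨d, he.trans hd, hd4, by rw [hpw]; linarith⟩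
    · exact ⟨e - d, he.trans hc, fun h0 => hd5 (sub_eq_zero.1 h0).symm, by rw [hpw]; linarith⟩

private lemma small_proj' (h : IsII1 τ) {p : N} (hp : star p = p) (hp2 : p * p = p) (hp0 : p ≠ 0)
    {ε : ℝ} (hε : 0 < ε) : ∃ e : N, Up p e ∧ e ≠ 0 ∧ (τ e).re < ε := by
  have hpp : Up p p := ⟨hp, hp2, hp2⟩
  have hτ := hpp.pos h hp0
  obtain ⟨n, hn⟩ := exists_pow_lt_of_lt_one (div_pos hε hτ) (by norm_num : (1 / 2 : ℝ) < 1)
  obtain ⟨e, he, he0, hle⟩ := small_proj h hp hp2 hp0 n
  refine ⟨e, he, he0, hle.trans_lt ?_⟩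
  rw [lt_div_iff₀ hτ] at hn
  calc (τ p).re / 2 ^ n = (1 / 2) ^ n * (τ p).re := by
        rw [one_div, inv_pow]
        ring
    _ < ε := hn

theorem half (h : IsII1 τ) {p : N} (hp : star p = p) (hp2 : p * p = p) :
    ∃ e : N, star e = e ∧ e * e = e ∧ p * e = e ∧ τ e = τ p / 2 := by
  have hpp : Up p p := ⟨hp, hp2, hp2⟩
  have hpn := hpp.nonneg h
  -- the greedy choice
  have hbd : ∀ e : N, BddAbove {r : ℝ | ∃ d : N, (Up (p - e) d ∧
      (τ e).re + (τ d).re ≤ (τ p).re / 2) ∧ r = (τ d).re} := by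
    intro e
    refine ⟨(τ p).re / 2 - (τ e).re, ?_⟩
    rintro _ ⟨d, ⟨-, hd⟩, rfl⟩
    linarith
  have hch : ∀ e : N, ∃ d : N, (τ e).re ≤ (τ p).re / 2 → (Up (p - e) d ∧
      (τ e).re + (τ d).re ≤ (τ p).re / 2) ∧
      sSup {r : ℝ | ∃ d : N, (Up (p - e) d ∧
        (τ e).re + (τ d).re ≤ (τ p).re / 2) ∧ r = (τ d).re} ≤ 2 * (τ d).re := by
    intro e
    by_cases hle : (τ e).re ≤ (τ p).re / 2
    · have hz : (Up (p - e) (0 : N) ∧ (τ e).re + (τ (0 : N)).re ≤ (τ p).re / 2) := by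
        refine ⟨Up.zero _, ?_⟩
        rw [map_zero, Complex.zero_re, add_zero]
        exact hle
      by_cases h0 : sSup {r : ℝ | ∃ d : N, (Up (p - e) d ∧
          (τ e).re + (τ d).re ≤ (τ p).re / 2) ∧ r = (τ d).re} ≤ 0
      · refine ⟨0, fun _ => ⟨hz, h0.trans ?_⟩⟩
        rw [map_zero, Complex.zero_re, mul_zero]
      · push Not at h0
        have hne : {r : ℝ | ∃ d : N, (Up (p - e) d ∧
            (τ e).re + (τ d).re ≤ (τ p).re / 2) ∧ r = (τ d).re}.Nonempty := ⟨_, 0, hz, rfl⟩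
        obtain ⟨_, ⟨d, hd, rfl⟩, hlt⟩ := exists_lt_of_lt_csSup hne (half_lt_self h0)
        exact ⟨d, fun _ => ⟨hd, by linarith⟩⟩
    · exact ⟨0, fun hc => absurd hc hle⟩
  choose D hD using hch
  set V : ℕ → N := fun k => (fun v => v + D v)^[k] 0 with hV
  have hV0 : V 0 = 0 := rfl
  have hVs : ∀ k, V (k + 1) = V k + D (V k) := by
    intro k
    simp only [hV, Function.iterate_succ_apply']
  have hVP : ∀ k, Up p (V k) ∧ (τ (V k)).re ≤ (τ p).re / 2 := by
    intro k
    induction k with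
    | zero =>
      rw [hV0]
      refine ⟨Up.zero _, ?_⟩
      rw [map_zero, Complex.zero_re]
      linarith
    | succ k ih =>
      rw [hVs]
      have h1 := (hD (V k) ih.2).1
      refine ⟨ih.1.add hp hp2 h1.1, ?_⟩
      rw [map_add, Complex.add_re]
      exact h1.2
  have hext : ∀ k n, Up (p - V k) (V (k + n) - V k) := by
    intro k n
    induction n with
    | zero => rw [add_zero, sub_self]; exact Up.zero _
    | succ n ih =>
      have e1 : V (k + (n + 1)) - V k = (V (k + n) - V k) + D (V (k + n)) := by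
        rw [← add_assoc, hVs]
        abel
      rw [e1]
      have hc := (hVP k).1.compl hp hp2
      refine ih.add hc.1 hc.2.1 ?_
      have e2 : p - V k - (V (k + n) - V k) = p - V (k + n) := by abel
      rw [e2]
      exact (hD (V (k + n)) (hVP (k + n)).2).1.1
  have hsq : ∀ k n, (τ (V (k + n))).re = (τ (V k)).re + n2 τ (V (k + n) - V k) ^ 2 := by
    intro k n
    rw [(hext k n).sq h, map_sub, Complex.sub_re]
    ring
  have htail : ∀ ε : ℝ, 0 < ε → ∃ K, ∀ n, (τ (V (K + n))).re - (τ (V K)).re < ε := by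
    intro ε hε
    have hb : BddAbove (Set.range fun k => (τ (V k)).re) := ⟨(τ p).re / 2, by
      rintro _ ⟨k, rfl⟩
      exact (hVP k).2⟩
    have hlt : sSup (Set.range fun k => (τ (V k)).re) - ε <
        sSup (Set.range fun k => (τ (V k)).re) := by linarith
    obtain ⟨_, ⟨K, rfl⟩, hK⟩ := exists_lt_of_lt_csSup (Set.range_nonempty _) hlt
    refine ⟨K, fun n => ?_⟩
    have h1 : (τ (V (K + n))).re ≤ sSup (Set.range fun k => (τ (V k)).re) :=
      le_csSup hb ⟨K + n, rfl⟩
    have hK' : sSup (Set.range fun k => (τ (V k)).re) - ε < (τ (V K)).re := hK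
    linarith
  have hcau : ∀ ε : ℝ, 0 < ε → ∃ K, ∀ k ≥ K, ∀ l ≥ K, n2 τ (V k - V l) < ε := by
    intro ε hε
    obtain ⟨K, hK⟩ := htail ((ε / 2) ^ 2) (by positivity)
    have hK2 : ∀ n, n2 τ (V (K + n) - V K) < ε / 2 := by
      intro n
      have h1 := hsq K n
      have h2 := hK n
      have h3 : n2 τ (V (K + n) - V K) ^ 2 < (ε / 2) ^ 2 := by linarith
      exact lt_of_pow_lt_pow_left₀ 2 (by positivity) h3
    refine ⟨K, fun k hk l hl => ?_⟩
    obtain ⟨a, rfl⟩ := Nat.exists_eq_add_of_le hk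
    obtain ⟨b, rfl⟩ := Nat.exists_eq_add_of_le hl
    have h1 := n2_sub_le h (V (K + a)) (V K) (V (K + b))
    have h2 := hK2 a
    have h3 := hK2 b
    rw [n2_sub_comm (V K)] at h1
    linarith
  obtain ⟨e, he1, hlim⟩ := h.complete V (fun k => (hVP k).1.norm) hcau
  have lim0 : ∀ (x : N) (C : ℝ) (K : ℕ), (∀ k ≥ K, n2 τ x ≤ C * n2 τ (V k - e)) → x = 0 := by
    intro x C K hx
    apply n2_eq_zero h
    have h1 : Tendsto (fun k => C * n2 τ (V k - e)) atTop (𝓝 (C * 0)) := hlim.const_mul C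
    rw [mul_zero] at h1
    have h2 : n2 τ x ≤ 0 := ge_of_tendsto h1 (eventually_atTop.2 ⟨K, hx⟩)
    exact le_antisymm h2 (n2_nonneg x)
  have hes : star e = e := by
    refine sub_eq_zero.1 (lim0 _ 2 0 fun k _ => ?_)
    have e1 : star e - e = -star (V k - e) + (V k - e) := by
      rw [star_sub, (hVP k).1.1]
      abel
    rw [e1]
    have c1 := n2_add_le h (-star (V k - e)) (V k - e)
    rw [n2_neg, n2_star h] at c1
    linarith
  have hee : e * e = e := by
    refine sub_eq_zero.1 (lim0 _ 3 0 fun k _ => ?_)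
    have e1 : e * e - e = -((V k - e) * e) + (-(V k * (V k - e)) + (V k - e)) := by
      have e2 := (hVP k).1.2.1
      have e3 : -((V k - e) * e) + (-(V k * (V k - e)) + (V k - e))
          = e * e - V k * V k + V k - e := by noncomm_ring
      rw [e3, e2]
      abel
    rw [e1]
    have hw := n2_nonneg (τ := τ) (V k - e)
    have c1 := n2_add_le h (-((V k - e) * e)) (-(V k * (V k - e)) + (V k - e))
    have c2 := n2_add_le h (-(V k * (V k - e))) (V k - e)
    rw [n2_neg] at c1 c2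
    have c3 := n2_mul_le' h (V k - e) e
    have c4 := n2_mul_le h (V k) (V k - e)
    have c5 := (hVP k).1.norm
    nlinarith
  have hpe : p * e = e := by
    refine sub_eq_zero.1 (lim0 _ (‖p‖ + 1) 0 fun k _ => ?_)
    have e1 : p * e - e = -(p * (V k - e)) + (V k - e) := by
      rw [mul_sub, (hVP k).1.2.2]
      abel
    rw [e1]
    have c1 := n2_add_le h (-(p * (V k - e))) (V k - e)
    rw [n2_neg] at c1
    have c2 := n2_mul_le h p (V k - e)
    linarith
  have hUe : Up p e := ⟨hes, hee, hpe⟩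
  have hVe : ∀ k, V k * e = V k := by
    intro k
    refine sub_eq_zero.1 (lim0 _ ‖V k‖ k fun l hl => ?_)
    obtain ⟨n, rfl⟩ := Nat.exists_eq_add_of_le hl
    have e1 := (hVP k).1.orth hp (hext k n)
    rw [mul_sub, (hVP k).1.2.1] at e1
    have e2 : V k * e - V k = V k * (e - V (k + n)) := by
      rw [mul_sub, sub_eq_zero.1 e1]
    rw [e2]
    refine (n2_mul_le h _ _).trans ?_
    rw [n2_sub_comm]
  have heV : ∀ k, e * V k = V k := by
    intro k
    have h1 := congrArg star (hVe k)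
    rwa [star_mul, hes, (hVP k).1.1] at h1
  have hmono : ∀ k, (τ (V k)).re ≤ (τ e).re := by
    intro k
    have hUk : Up e (V k) := ⟨(hVP k).1.1, (hVP k).1.2.1, heV k⟩
    have h1 := (hUk.compl hes hee).nonneg h
    rw [map_sub, Complex.sub_re] at h1
    linarith
  have hle : (τ e).re ≤ (τ p).re / 2 := by
    have h1 : Tendsto (fun k => (τ p).re / 2 + n2 τ (V k - e)) atTop (𝓝 ((τ p).re / 2 + 0)) :=
      hlim.const_add _
    rw [add_zero] at h1
    refine ge_of_tendsto h1 (Filter.Eventually.of_forall fun k => ?_)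
    have h2 := tau_le_n2 h (e - V k)
    have h3 := Complex.re_le_norm (τ (e - V k))
    rw [map_sub, Complex.sub_re] at h3
    rw [map_sub] at h2
    have h4 := (hVP k).2
    rw [n2_sub_comm e (V k)] at h2
    linarith
  have heq : (τ e).re = (τ p).re / 2 := by
    refine le_antisymm hle ?_
    by_contra hcon
    push Not at hcon
    have hne : p - e ≠ 0 := by
      intro h0
      rw [← sub_eq_zero.1 h0] at hcon
      linarith
    have hC := hUe.compl hp hp2
    obtain ⟨d, hd, hd0, hdlt⟩ := small_proj' h hC.1 hC.2.1 hne (sub_pos.2 hcon)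
    have hdpos := hd.pos h hd0
    obtain ⟨K, hK⟩ := htail ((τ d).re / 2) (by linarith)
    have h1 := hK 1
    rw [hVs, map_add, Complex.add_re] at h1
    have h2 := (hD (V K) (hVP K).2).2
    have hS : Up (p - V K) d ∧ (τ (V K)).re + (τ d).re ≤ (τ p).re / 2 := by
      refine ⟨⟨hd.1, hd.2.1, ?_⟩, ?_⟩
      · have e1 : (p - V K) * (p - e) = p - e := by
          rw [mul_sub, sub_mul, sub_mul, hp2, hpe, hVe K, (hVP K).1.right hp]
          abel
        calc (p - V K) * d = (p - V K) * ((p - e) * d) := by rw [hd.2.2]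
          _ = d := by rw [← mul_assoc, e1, hd.2.2]
      · have h3 := hmono K
        linarith
    have h3 : (τ d).re ≤ sSup {r : ℝ | ∃ d : N, (Up (p - V K) d ∧
        (τ (V K)).re + (τ d).re ≤ (τ p).re / 2) ∧ r = (τ d).re} := le_csSup (hbd _) ⟨d, hS, rfl⟩
    linarith
  refine ⟨e, hes, hee, hpe, ?_⟩
  have i1 : (τ e).im = 0 := by
    have h1 := h.real e
    rwa [hes, hee] at h1
  have i2 : (τ p).im = 0 := by
    have h1 := h.real p
    rwa [hp, hp2] at h1
  have e2 : τ p / 2 = (((τ p).re / 2 : ℝ) : ℂ) := by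
    have e3 : τ p = (((τ p).re : ℝ) : ℂ) := by
      apply Complex.ext
      · rw [Complex.ofReal_re]
      · rw [Complex.ofReal_im, i2]
    rw [Complex.ofReal_div, ← e3, Complex.ofReal_ofNat]
  rw [e2, ← heq]
  apply Complex.ext
  · rw [Complex.ofReal_re]
  · rw [Complex.ofReal_im, i1]

end SC
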